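import Mathlib

open MeasureTheory

namespace Pool.Agent.HDSum

theorem sum_image_le_aux {ι κ : Type*} [DecidableEq κ] (F : Finset ι) (g : ι → κ) (f : κ → ℝ)
    (hf : ∀ i ∈ F, 0 ≤ f (g i)) : ∑ u ∈ F.image g, f u ≤ ∑ i ∈ F, f (g i) := by
  classical
  induction F using Finset.induction_on with
  | empty => simp
  | insert a F ha ih =>
    rw [Finset.image_insert, Finset.sum_insert ha]
    have ih' := ih fun i hi => hf i (Finset.mem_insert_of_mem hi)
    have h0 := hf a (Finset.mem_insert_self _ _)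
    by_cases h : g a ∈ F.image g
    · rw [Finset.insert_eq_of_mem h]
      linarith
    · rw [Finset.sum_insert h]
      linarith

theorem finite_cover_of_hausdorff_zero (E : Set ℝ) (hE : IsCompact E) (s : ℝ) (hs : 0 < s)
    (h0 : μH[s] E = 0) (ε : ℝ) (hε : 0 < ε) :
    ∃ U : Finset (ℝ × ℝ), (∀ u ∈ U, 0 < u.2 ∧ u.2 ≤ ε) ∧
      (∀ e ∈ E, ∃ u ∈ U, |e - u.1| < u.2) ∧ ∑ u ∈ U, u.2 ^ s ≤ 1 := by
  classical
  have hcpos : (0:ℝ) < 2 ^ s := by positivity
  obtain ⟨δ, hδ, hδc⟩ : ∃ δ : ℝ, 0 < δ ∧ 2 ^ s * (δ + δ) = 1 :=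
    ⟨1 / (2 * 2 ^ s), by positivity, by field_simp; norm_num⟩
  rw [Measure.hausdorffMeasure_apply] at h0
  have hr : (0 : ENNReal) < ENNReal.ofReal (ε / 4) := by
    rw [ENNReal.ofReal_pos]; positivity
  have h1 := le_antisymm (le_trans (le_iSup₂_of_le (ENNReal.ofReal (ε / 4)) hr le_rfl) h0.le)
    bot_le
  have h2 : _ < ENNReal.ofReal δ := lt_of_le_of_lt h1.le (ENNReal.ofReal_pos.2 hδ)
  rw [iInf_lt_iff] at h2
  obtain ⟨t, h2⟩ := h2
  rw [iInf_lt_iff] at h2
  obtain ⟨hcov, h2⟩ := h2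
  rw [iInf_lt_iff] at h2
  obtain ⟨hdiam, h2⟩ := h2
  -- real diameters
  have hfin : ∀ n, Metric.ediam (t n) ≠ ⊤ := fun n => ne_top_of_le_ne_top ENNReal.ofReal_ne_top (hdiam n)
  set d : ℕ → ℝ := fun n => (Metric.ediam (t n)).toReal with hd
  have hd0 : ∀ n, 0 ≤ d n := fun n => ENNReal.toReal_nonneg
  have hd4 : ∀ n, d n ≤ ε / 4 := fun n => by
    have := ENNReal.toReal_mono ENNReal.ofReal_ne_top (hdiam n)
    rwa [ENNReal.toReal_ofReal (by positivity)] at this
  have hds : ∀ n, ENNReal.ofReal (d n ^ s) ≤ ⨆ (_ : (t n).Nonempty), Metric.ediam (t n) ^ s := by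
    intro n
    by_cases hn : (t n).Nonempty
    · rw [iSup_pos hn, ← ENNReal.ofReal_rpow_of_nonneg (hd0 n) hs.le, hd,
        ENNReal.ofReal_toReal (hfin n)]
    · have : d n = 0 := by
        rw [hd]; simp only
        rw [Set.not_nonempty_iff_eq_empty.1 hn]; simp
      rw [this, Real.zero_rpow hs.ne']; simp
  have hsumd : ∀ F : Finset ℕ, ∑ n ∈ F, d n ^ s ≤ δ := by
    intro F
    have : ENNReal.ofReal (∑ n ∈ F, d n ^ s) ≤ ENNReal.ofReal δ := by
      rw [ENNReal.ofReal_sum_of_nonneg fun n _ => Real.rpow_nonneg (hd0 n) s]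
      calc _ ≤ ∑ n ∈ F, ⨆ (_ : (t n).Nonempty), Metric.ediam (t n) ^ s :=
            Finset.sum_le_sum fun n _ => hds n
        _ ≤ _ := ENNReal.sum_le_tsum F
        _ ≤ _ := h2.le
    exact (ENNReal.ofReal_le_ofReal_iff hδ.le).1 this
  -- the thetas
  set θ : ℕ → ℝ := fun n => min (ε / 4) ((δ * (1 / 2) ^ (n + 1)) ^ (1 / s)) with hθ
  have hθ0 : ∀ n, 0 < θ n := fun n => lt_min (by positivity) (by positivity)
  have hθ4 : ∀ n, θ n ≤ ε / 4 := fun n => min_le_left _ _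
  have hθs : ∀ n, θ n ^ s ≤ δ * (1 / 2) ^ (n + 1) := by
    intro n
    calc θ n ^ s ≤ ((δ * (1 / 2) ^ (n + 1)) ^ (1 / s)) ^ s :=
          Real.rpow_le_rpow (hθ0 n).le (min_le_right _ _) hs.le
      _ = _ := by
          rw [← Real.rpow_mul (by positivity), one_div_mul_cancel hs.ne', Real.rpow_one]
  have hsumθ : ∀ F : Finset ℕ, ∑ n ∈ F, θ n ^ s ≤ δ := by
    intro F
    have hg : HasSum (fun n : ℕ => δ * (1 / 2 : ℝ) ^ (n + 1)) δ := by
      have h := (hasSum_geometric_two.mul_left (δ * (1 / 2)))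
      have e1 : (fun n : ℕ => δ * (1 / 2) * (1 / 2 : ℝ) ^ n) = fun n : ℕ => δ * (1 / 2) ^ (n + 1) := by
        funext n; rw [pow_succ]; ring
      have e2 : δ * (1 / 2) * 2 = δ := by ring
      rw [e1, e2] at h
      exact h
    calc _ ≤ ∑ n ∈ F, δ * (1 / 2 : ℝ) ^ (n + 1) := Finset.sum_le_sum fun n _ => hθs n
      _ ≤ δ := sum_le_hasSum F (fun n _ => by positivity) hg
  -- the balls
  have hp : ∀ n, ∃ p : ℝ, (t n).Nonempty → p ∈ t n := by
    intro n
    by_cases hn : (t n).Nonempty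
    · exact ⟨hn.some, fun _ => hn.some_mem⟩
    · exact ⟨0, fun h => absurd h hn⟩
  choose p hp using hp
  have hEc : E ⊆ ⋃ n, Metric.ball (p n) (d n + θ n) := by
    intro e he
    obtain ⟨n, hn⟩ := Set.mem_iUnion.1 (hcov he)
    refine Set.mem_iUnion.2 ⟨n, ?_⟩
    rw [Metric.mem_ball]
    have h3 := hp n ⟨e, hn⟩
    have h4 : dist e (p n) ≤ d n := by
      rw [dist_edist]
      exact ENNReal.toReal_mono (hfin n) (Metric.edist_le_ediam_of_mem hn h3)
    linarith [hθ0 n]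
  obtain ⟨F, hF⟩ := hE.elim_finite_subcover _ (fun n => Metric.isOpen_ball) hEc
  refine ⟨F.image fun n => (p n, d n + θ n), ?_, ?_, ?_⟩
  · intro u hu
    obtain ⟨n, _, rfl⟩ := Finset.mem_image.1 hu
    constructor
    · have := hd0 n; have := hθ0 n; simp only; linarith
    · have := hd4 n; have := hθ4 n; simp only; linarith
  · intro e he
    obtain ⟨n, hn⟩ := Set.mem_iUnion.1 (hF he)
    obtain ⟨hnF, hn⟩ := Set.mem_iUnion.1 hn
    refine ⟨(p n, d n + θ n), Finset.mem_image_of_mem _ hnF, ?_⟩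
    rwa [Metric.mem_ball, Real.dist_eq] at hn
  · refine le_trans (sum_image_le_aux F _ (fun u : ℝ × ℝ => u.2 ^ s) ?_) ?_
    · intro n _
      exact Real.rpow_nonneg (add_nonneg (hd0 n) (hθ0 n).le) s
    · calc ∑ n ∈ F, (d n + θ n) ^ s ≤ ∑ n ∈ F, 2 ^ s * (d n ^ s + θ n ^ s) := by
            refine Finset.sum_le_sum fun n _ => ?_
            have hm : d n + θ n ≤ 2 * max (d n) (θ n) := by
              linarith [le_max_left (d n) (θ n), le_max_right (d n) (θ n)]
            calc (d n + θ n) ^ s ≤ (2 * max (d n) (θ n)) ^ s :=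
                  Real.rpow_le_rpow (add_nonneg (hd0 n) (hθ0 n).le) hm hs.le
              _ = 2 ^ s * (max (d n) (θ n)) ^ s :=
                  Real.mul_rpow (by norm_num) (le_max_of_le_left (hd0 n))
              _ ≤ 2 ^ s * (d n ^ s + θ n ^ s) := by
                  apply mul_le_mul_of_nonneg_left _ hcpos.le
                  have g1 := Real.rpow_nonneg (hd0 n) s
                  have g2 := Real.rpow_nonneg (hθ0 n).le s
                  rcases max_choice (d n) (θ n) with h | h <;> rw [h] <;> linarith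
        _ = 2 ^ s * (∑ n ∈ F, d n ^ s + ∑ n ∈ F, θ n ^ s) := by
            rw [← Finset.mul_sum, Finset.sum_add_distrib]
        _ ≤ 2 ^ s * (δ + δ) :=
            mul_le_mul_of_nonneg_left (add_le_add (hsumd F) (hsumθ F)) hcpos.le
        _ = 1 := hδc

end Pool.Agent.HDSum
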