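import Pool.Agent.HDSum.Defs

open Finset

namespace Pool.Agent.HDSum

/-- antipode of a face -/
def fl_neg (X : List (Option Bool)) : List (Option Bool) := X.map (Option.map not)

/-- number of stars -/
def fl_stars : List (Option Bool) → ℕ
  | [] => 0
  | some _ :: X => fl_stars X
  | none :: X => fl_stars X + 1

/-- sum over the facets -/
def fl_d : List (Option Bool) → (List (Option Bool) → ZMod 2) → ZMod 2
  | [], _ => 0
  | some b :: X, g => fl_d X (fun Y => g (some b :: Y))
  | none :: X, g => g (some true :: X) + g (some false :: X) + fl_d X (fun Y => g (none :: Y))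

/-- the functional -/
def fl_Phi : ℕ → ℕ → (List (Option Bool) → ZMod 2) → ZMod 2
  | 0, 0, g => g []
  | 0, _ + 1, _ => 0
  | N + 1, 0, g => fl_Phi N 0 (fun X => g (some true :: X))
  | N + 1, J + 1, g => fl_Phi N (J + 1) (fun X => g (some true :: X)) +
      fl_Phi N J (fun X => g (none :: fl_neg X))

/-- facet relation -/
inductive fl_Fac : List (Option Bool) → List (Option Bool) → Prop
  | here (b : Bool) (X : List (Option Bool)) : fl_Fac (some b :: X) (none :: X)
  | cons (a : Option Bool) (W X : List (Option Bool)) (h : fl_Fac W X) : fl_Fac (a :: W) (a :: X)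

lemma fl_two : (2 : ZMod 2) = 0 := rfl

lemma fl_neg_nil : fl_neg [] = [] := rfl

lemma fl_neg_some (b : Bool) (X : List (Option Bool)) :
    fl_neg (some b :: X) = some (!b) :: fl_neg X := rfl

lemma fl_neg_none (X : List (Option Bool)) : fl_neg (none :: X) = none :: fl_neg X := rfl

lemma fl_neg_neg (X : List (Option Bool)) : fl_neg (fl_neg X) = X := by
  induction X with
  | nil => rfl
  | cons a X ih =>
    cases a with
    | none => rw [fl_neg_none, fl_neg_none, ih]
    | some b => rw [fl_neg_some, fl_neg_some, ih, Bool.not_not]

lemma fl_length_neg (X : List (Option Bool)) : (fl_neg X).length = X.length := by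
  unfold fl_neg
  rw [List.length_map]

lemma fl_stars_neg (X : List (Option Bool)) : fl_stars (fl_neg X) = fl_stars X := by
  induction X with
  | nil => rfl
  | cons a X ih =>
    cases a with
    | none => rw [fl_neg_none, fl_stars, fl_stars, ih]
    | some b => rw [fl_neg_some, fl_stars, fl_stars, ih]

lemma fl_d_add (X : List (Option Bool)) (g g' : List (Option Bool) → ZMod 2) :
    fl_d X (fun Y => g Y + g' Y) = fl_d X g + fl_d X g' := by
  induction X generalizing g g' with
  | nil => simp [fl_d]
  | cons a X ih =>
    cases a with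
    | none =>
      rw [fl_d, fl_d, fl_d, ih (fun Y => g (none :: Y)) (fun Y => g' (none :: Y))]
      ring
    | some b =>
      rw [fl_d, fl_d, fl_d, ih (fun Y => g (some b :: Y)) (fun Y => g' (some b :: Y))]

lemma fl_d_mul (X : List (Option Bool)) (c : ZMod 2) (g : List (Option Bool) → ZMod 2) :
    fl_d X (fun Y => c * g Y) = c * fl_d X g := by
  induction X generalizing g with
  | nil => simp [fl_d]
  | cons a X ih =>
    cases a with
    | none =>
      rw [fl_d, fl_d, ih (fun Y => g (none :: Y))]
      ring
    | some b =>
      rw [fl_d, fl_d, ih (fun Y => g (some b :: Y))]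

lemma fl_d_zero (X : List (Option Bool)) : fl_d X (fun _ => 0) = 0 := by
  induction X with
  | nil => rfl
  | cons a X ih =>
    cases a with
    | none => rw [fl_d, ih]; ring
    | some b => rw [fl_d, ih]

lemma fl_d_one (X : List (Option Bool)) : fl_d X (fun _ => 1) = 0 := by
  induction X with
  | nil => rfl
  | cons a X ih =>
    cases a with
    | none => rw [fl_d, ih]; rfl
    | some b => rw [fl_d, ih]

lemma fl_d_d (X : List (Option Bool)) (g : List (Option Bool) → ZMod 2) :
    fl_d X (fun Y => fl_d Y g) = 0 := by
  induction X generalizing g with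
  | nil => rfl
  | cons a X ih =>
    cases a with
    | none =>
      have e : fl_d (none :: X) (fun Y => fl_d Y g) =
          fl_d X (fun Y => g (some true :: Y)) + fl_d X (fun Y => g (some false :: Y)) +
          fl_d X (fun Y => (g (some true :: Y) + g (some false :: Y)) +
            fl_d Y (fun Z => g (none :: Z))) := rfl
      rw [e, fl_d_add, fl_d_add, ih]
      linear_combination (fl_d X (fun Y => g (some true :: Y)) +
        fl_d X (fun Y => g (some false :: Y))) * fl_two
    | some b => exact ih _

lemma fl_d_neg (X : List (Option Bool)) (g : List (Option Bool) → ZMod 2) :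
    fl_d (fl_neg X) g = fl_d X (fun Y => g (fl_neg Y)) := by
  induction X generalizing g with
  | nil => rfl
  | cons a X ih =>
    cases a with
    | none =>
      rw [fl_neg_none, fl_d, fl_d, ih (fun Y => g (none :: Y))]
      have e1 : fl_neg (some true :: X) = some false :: fl_neg X := rfl
      have e2 : fl_neg (some false :: X) = some true :: fl_neg X := rfl
      rw [e1, e2]
      have e3 : (fun Y => g (none :: fl_neg Y)) = fun Y => g (fl_neg (none :: Y)) := rfl
      rw [e3]
      ring
    | some b =>
      rw [fl_neg_some, fl_d, fl_d, ih (fun Y => g (some (!b) :: Y))]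
      rfl

lemma fl_Phi_add (N J : ℕ) (g g' : List (Option Bool) → ZMod 2) :
    fl_Phi N J (fun X => g X + g' X) = fl_Phi N J g + fl_Phi N J g' := by
  induction N generalizing J g g' with
  | zero =>
    cases J with
    | zero => rfl
    | succ J => simp [fl_Phi]
  | succ N ih =>
    cases J with
    | zero =>
      rw [fl_Phi, fl_Phi, fl_Phi, ih 0 (fun X => g (some true :: X)) (fun X => g' (some true :: X))]
    | succ J =>
      rw [fl_Phi, fl_Phi, fl_Phi,
        ih (J + 1) (fun X => g (some true :: X)) (fun X => g' (some true :: X)),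
        ih J (fun X => g (none :: fl_neg X)) (fun X => g' (none :: fl_neg X))]
      ring

lemma fl_Phi_congr (N J : ℕ) (g g' : List (Option Bool) → ZMod 2)
    (h : ∀ X : List (Option Bool), X.length = N → fl_stars X = J → g X = g' X) :
    fl_Phi N J g = fl_Phi N J g' := by
  induction N generalizing J g g' with
  | zero =>
    cases J with
    | zero => exact h [] rfl rfl
    | succ J => rfl
  | succ N ih =>
    cases J with
    | zero =>
      rw [fl_Phi, fl_Phi]
      apply ih
      intro X hX hs
      exact h _ (by rw [List.length_cons, hX]) (by rw [fl_stars, hs])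
    | succ J =>
      rw [fl_Phi, fl_Phi]
      congr 1
      · apply ih
        intro X hX hs
        exact h _ (by rw [List.length_cons, hX]) (by rw [fl_stars, hs])
      · apply ih
        intro X hX hs
        exact h _ (by rw [List.length_cons, fl_length_neg, hX]) (by rw [fl_stars, fl_stars_neg, hs])

lemma fl_Phi_zero (N J : ℕ) : fl_Phi N J (fun _ => 0) = 0 := by
  induction N generalizing J with
  | zero =>
    cases J with
    | zero => rfl
    | succ J => rfl
  | succ N ih =>
    cases J with
    | zero => rw [fl_Phi, ih]
    | succ J => rw [fl_Phi, ih, ih, add_zero]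

lemma fl_Phi_one (N : ℕ) : fl_Phi N 0 (fun _ => 1) = 1 := by
  induction N with
  | zero => rfl
  | succ N ih => rw [fl_Phi, ih]

lemma fl_Phi_d0 (N : ℕ) (g : List (Option Bool) → ZMod 2) :
    fl_Phi N 0 (fun X => fl_d X g) = 0 := by
  induction N generalizing g with
  | zero => rfl
  | succ N ih => exact ih (fun Y => g (some true :: Y))

lemma fl_Phi_main (N J : ℕ) (g : List (Option Bool) → ZMod 2) :
    fl_Phi N (J + 1) (fun X => fl_d X g) = fl_Phi N J g + fl_Phi N J (fun X => g (fl_neg X)) := by
  induction N generalizing J g with
  | zero =>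
    cases J with
    | zero =>
      have e1 : fl_Phi 0 (0 + 1) (fun X => fl_d X g) = 0 := rfl
      have e2 : fl_Phi 0 0 g = g [] := rfl
      have e3 : fl_Phi 0 0 (fun X => g (fl_neg X)) = g [] := rfl
      rw [e1, e2, e3]
      linear_combination (-g []) * fl_two
    | succ J => simp [fl_Phi]
  | succ N ih =>
    have h2 : ∀ K, fl_Phi N K (fun X => fl_d (none :: fl_neg X) g) =
        fl_Phi N K (fun X => g (some true :: fl_neg X)) +
        fl_Phi N K (fun X => g (some false :: fl_neg X)) +
        fl_Phi N K (fun X => fl_d X (fun Y => g (none :: fl_neg Y))) := by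
      intro K
      rw [← fl_Phi_add, ← fl_Phi_add]
      congr 1
      funext X
      rw [fl_d, fl_d_neg]
    have h1 : ∀ K, fl_Phi N (K + 1) (fun X => fl_d (some true :: X) g) =
        fl_Phi N K (fun X => g (some true :: X)) +
        fl_Phi N K (fun X => g (some true :: fl_neg X)) := by
      intro K
      exact ih K (fun Y => g (some true :: Y))
    cases J with
    | zero =>
      have e1 : fl_Phi (N + 1) (0 + 1) (fun X => fl_d X g) =
        fl_Phi N (0 + 1) (fun X => fl_d (some true :: X) g) +
        fl_Phi N 0 (fun X => fl_d (none :: fl_neg X) g) := rfl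
      have e2 : fl_Phi (N + 1) 0 g = fl_Phi N 0 (fun X => g (some true :: X)) := rfl
      have e3 : fl_Phi (N + 1) 0 (fun X => g (fl_neg X)) =
        fl_Phi N 0 (fun X => g (some false :: fl_neg X)) := rfl
      rw [e1, e2, e3, h1, h2, fl_Phi_d0]
      linear_combination (fl_Phi N 0 (fun X => g (some true :: fl_neg X))) * fl_two
    | succ J =>
      have e1 : fl_Phi (N + 1) (J + 1 + 1) (fun X => fl_d X g) =
        fl_Phi N (J + 1 + 1) (fun X => fl_d (some true :: X) g) +
        fl_Phi N (J + 1) (fun X => fl_d (none :: fl_neg X) g) := rfl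
      have e2 : fl_Phi (N + 1) (J + 1) g = fl_Phi N (J + 1) (fun X => g (some true :: X)) +
        fl_Phi N J (fun X => g (none :: fl_neg X)) := rfl
      have e3 : fl_Phi (N + 1) (J + 1) (fun X => g (fl_neg X)) =
        fl_Phi N (J + 1) (fun X => g (some false :: fl_neg X)) +
        fl_Phi N J (fun X => g (none :: fl_neg (fl_neg X))) := rfl
      have e4 := ih J (fun Y => g (none :: fl_neg Y))
      rw [e1, e2, e3, h1, h2, e4]
      linear_combination (fl_Phi N (J + 1) (fun X => g (some true :: fl_neg X))) * fl_two

/-- first sign -/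
def fl_fs : List (Option Bool) → Bool
  | [] => true
  | some b :: _ => b
  | none :: X => fl_fs X

/-- chosen vertex -/
def fl_c (X : List (Option Bool)) : List Bool := X.map (fun x => x.getD (fl_fs X))

/-- indicator -/
def fl_h (s : List Bool → Bool) (X : List (Option Bool)) : ZMod 2 := if s (fl_c X) then 1 else 0

/-- the chain -/
def fl_C (s : ℕ → List Bool → Bool) : ℕ → List (Option Bool) → ZMod 2
  | 0, _ => 1
  | k + 1, X => fl_d X (fun W => fl_h (s k) W * fl_C s k W)

lemma fl_d_C (s : ℕ → List Bool → Bool) (k : ℕ) (X : List (Option Bool)) :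
    fl_d X (fl_C s k) = 0 := by
  cases k with
  | zero => exact fl_d_one X
  | succ k => exact fl_d_d X _

lemma fl_d_congr (X : List (Option Bool)) (g g' : List (Option Bool) → ZMod 2)
    (h : ∀ W, fl_Fac W X → g W = g' W) : fl_d X g = fl_d X g' := by
  induction X generalizing g g' with
  | nil => rfl
  | cons a X ih =>
    cases a with
    | none =>
      rw [fl_d, fl_d, h _ (fl_Fac.here true X), h _ (fl_Fac.here false X),
        ih (fun Y => g (none :: Y)) (fun Y => g' (none :: Y))
          (fun W hW => h _ (fl_Fac.cons _ _ _ hW))]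
    | some b =>
      rw [fl_d, fl_d]
      exact ih _ _ (fun W hW => h _ (fl_Fac.cons _ _ _ hW))

lemma fl_Fac_length {W X : List (Option Bool)} (h : fl_Fac W X) : W.length = X.length := by
  induction h with
  | here b X => rfl
  | cons a W X h ih => rw [List.length_cons, List.length_cons, ih]

lemma fl_Fac_stars {W X : List (Option Bool)} (h : fl_Fac W X) :
    fl_stars X = fl_stars W + 1 := by
  induction h with
  | here b X => rfl
  | cons a W X h ih =>
    cases a with
    | none => rw [fl_stars, fl_stars, ih]
    | some b => rw [fl_stars, fl_stars, ih]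

lemma fl_Fac_some {W X : List (Option Bool)} (h : fl_Fac W X) : ∃ b, some b ∈ W := by
  induction h with
  | here b X => exact ⟨b, List.mem_cons_self⟩
  | cons a W X h ih =>
    obtain ⟨b, hb⟩ := ih
    exact ⟨b, List.mem_cons_of_mem _ hb⟩

lemma fl_fs_neg {X : List (Option Bool)} (h : ∃ b, some b ∈ X) :
    fl_fs (fl_neg X) = !(fl_fs X) := by
  induction X with
  | nil => obtain ⟨b, hb⟩ := h; simp at hb
  | cons a X ih =>
    cases a with
    | none =>
      rw [fl_neg_none, fl_fs, fl_fs]
      apply ih
      obtain ⟨b, hb⟩ := h
      exact ⟨b, by simpa using hb⟩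
    | some b => rw [fl_neg_some, fl_fs, fl_fs]

lemma fl_c_neg {X : List (Option Bool)} (h : ∃ b, some b ∈ X) :
    fl_c (fl_neg X) = (fl_c X).map not := by
  unfold fl_c
  rw [fl_fs_neg h]
  unfold fl_neg
  rw [List.map_map, List.map_map]
  apply List.map_congr_left
  intro x _
  cases x <;> rfl

lemma fl_c_length (X : List (Option Bool)) : (fl_c X).length = X.length := by
  unfold fl_c
  rw [List.length_map]

lemma fl_h_neg {N : ℕ} {s : List Bool → Bool}
    (hs : ∀ T : List Bool, T.length = N → s (T.map not) = !(s T)) {X : List (Option Bool)}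
    (hX : X.length = N) (h : ∃ b, some b ∈ X) : fl_h s (fl_neg X) = fl_h s X + 1 := by
  unfold fl_h
  rw [fl_c_neg h, hs _ (by rw [fl_c_length, hX])]
  cases s (fl_c X) <;> rfl

lemma fl_C_neg {N : ℕ} {s : ℕ → List Bool → Bool}
    (hs : ∀ k, ∀ T : List Bool, T.length = N → s k (T.map not) = !(s k T)) (k : ℕ)
    (X : List (Option Bool)) (hX : X.length = N) : fl_C s k (fl_neg X) = fl_C s k X := by
  induction k generalizing X with
  | zero => rfl
  | succ k ih =>
    rw [fl_C, fl_C, fl_d_neg]
    have e : fl_d X (fun Y => fl_h (s k) (fl_neg Y) * fl_C s k (fl_neg Y)) =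
        fl_d X (fun Y => fl_h (s k) Y * fl_C s k Y + fl_C s k Y) := by
      apply fl_d_congr
      intro W hW
      have hWl : W.length = N := by rw [fl_Fac_length hW, hX]
      rw [fl_h_neg (hs k) hWl (fl_Fac_some hW), ih W hWl]
      ring
    rw [e, fl_d_add, fl_d_C, add_zero]

lemma fl_exists_some {X : List (Option Bool)} (h : fl_stars X < X.length) :
    ∃ b, some b ∈ X := by
  induction X with
  | nil => simp [fl_stars] at h
  | cons a X ih =>
    cases a with
    | none =>
      rw [fl_stars, List.length_cons] at h
      obtain ⟨b, hb⟩ := ih (by omega)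
      exact ⟨b, List.mem_cons_of_mem _ hb⟩
    | some b => exact ⟨b, List.mem_cons_self⟩

lemma fl_Phi_C {N : ℕ} {s : ℕ → List Bool → Bool}
    (hs : ∀ k, ∀ T : List Bool, T.length = N → s k (T.map not) = !(s k T)) (J : ℕ) (hJ : J ≤ N) :
    fl_Phi N J (fl_C s J) = 1 := by
  induction J with
  | zero => exact fl_Phi_one N
  | succ J ih =>
    have e1 : fl_Phi N (J + 1) (fl_C s (J + 1)) =
        fl_Phi N (J + 1) (fun X => fl_d X (fun W => fl_h (s J) W * fl_C s J W)) := rfl
    rw [e1, fl_Phi_main, ← fl_Phi_add, ← ih (by omega)]
    apply fl_Phi_congr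
    intro X hX hst
    have hsome := fl_exists_some (X := X) (by omega)
    rw [fl_h_neg (hs J) hX hsome, fl_C_neg hs J X hX]
    linear_combination (fl_h (s J) X * fl_C s J X) * fl_two

lemma fl_exists_face {N : ℕ} {s : ℕ → List Bool → Bool}
    (hs : ∀ k, ∀ T : List Bool, T.length = N → s k (T.map not) = !(s k T)) (J : ℕ) (hJ : J ≤ N) :
    ∃ X : List (Option Bool), X.length = N ∧ fl_stars X = J ∧ fl_C s J X ≠ 0 := by
  by_contra hcon
  push Not at hcon
  have h1 : fl_Phi N J (fl_C s J) = fl_Phi N J (fun _ => 0) :=
    fl_Phi_congr N J _ _ fun X hX hst => hcon X hX hst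
  rw [fl_Phi_C hs J hJ, fl_Phi_zero] at h1
  exact one_ne_zero h1

/-- vertex of a face -/
def fl_V (T : List Bool) (X : List (Option Bool)) : Prop :=
  List.Forall₂ (fun t x => x = none ∨ x = some t) T X

lemma fl_V_c (X : List (Option Bool)) : fl_V (fl_c X) X := by
  unfold fl_V fl_c
  rw [List.forall₂_map_left_iff, List.forall₂_same]
  intro x _
  cases x with
  | none => exact Or.inl rfl
  | some b => exact Or.inr rfl

lemma fl_V_Fac {W X : List (Option Bool)} (h : fl_Fac W X) {T : List Bool} (hT : fl_V T W) :
    fl_V T X := by
  induction h generalizing T with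
  | here b X =>
    cases hT with
    | cons h1 h2 => exact List.Forall₂.cons (Or.inl rfl) h2
  | cons a W X h ih =>
    cases hT with
    | cons h1 h2 => exact List.Forall₂.cons h1 (ih h2)

lemma fl_extract (s : ℕ → List Bool → Bool) (k : ℕ) (X : List (Option Bool))
    (hst : fl_stars X = k) (hC : fl_C s k X ≠ 0) :
    ∃ T, fl_V T X ∧ ∀ i < k, ∃ T' Y, fl_V T Y ∧ fl_V T' Y ∧ fl_stars Y ≤ i + 1 ∧ fl_V T' X ∧
      s i T' ≠ s i T := by
  induction k generalizing X with
  | zero => exact ⟨fl_c X, fl_V_c X, fun i hi => absurd hi (Nat.not_lt_zero i)⟩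
  | succ k ih =>
    have h1 : ∃ W, fl_Fac W X ∧ (fl_h (s k) W + fl_h (s k) X) * fl_C s k W ≠ 0 := by
      by_contra hcon
      push Not at hcon
      apply hC
      have e1 : fl_d X (fun W => fl_h (s k) W * fl_C s k W + fl_h (s k) X * fl_C s k W) =
          fl_d X (fun _ => 0) := by
        apply fl_d_congr
        intro W hW
        rw [← add_mul]
        exact hcon W hW
      rw [fl_d_add, fl_d_mul, fl_d_C, mul_zero, add_zero, fl_d_zero] at e1
      exact e1
    obtain ⟨W, hW, hne⟩ := h1
    have hW1 : fl_C s k W ≠ 0 := right_ne_zero_of_mul hne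
    have hW2 : fl_h (s k) W + fl_h (s k) X ≠ 0 := left_ne_zero_of_mul hne
    have hstW : fl_stars W = k := by
      have := fl_Fac_stars hW
      omega
    obtain ⟨T, hT, hTi⟩ := ih W hstW hW1
    have hTX := fl_V_Fac hW hT
    have hs2 : s k (fl_c W) ≠ s k (fl_c X) := by
      intro heq
      apply hW2
      unfold fl_h
      rw [heq]
      cases s k (fl_c X) <;> rfl
    refine ⟨T, hTX, fun i hi => ?_⟩
    by_cases hik : i < k
    · obtain ⟨T', Y, a1, a2, a3, a4, a5⟩ := hTi i hik
      exact ⟨T', Y, a1, a2, a3, fl_V_Fac hW a4, a5⟩
    · have hik' : i = k := by omega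
      subst hik'
      by_cases hc : s i (fl_c W) = s i T
      · exact ⟨fl_c X, X, hTX, fl_V_c X, by omega, fl_V_c X, fun h => hs2 (by rw [h, hc])⟩
      · exact ⟨fl_c W, X, hTX, fl_V_Fac hW (fl_V_c W), by omega, fl_V_Fac hW (fl_V_c W), hc⟩

/-- set of a vertex -/
def fl_set : List ℕ → List Bool → Finset ℕ
  | x :: L, b :: T => if b then insert x (fl_set L T) else fl_set L T
  | _, _ => ∅

lemma fl_set_sub (L : List ℕ) (T : List Bool) : fl_set L T ⊆ L.toFinset := by
  induction L generalizing T with
  | nil => simp [fl_set]
  | cons x L ih =>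
    cases T with
    | nil => simp [fl_set]
    | cons b T =>
      rw [fl_set, List.toFinset_cons]
      split_ifs
      · exact Finset.insert_subset_insert _ (ih T)
      · exact (ih T).trans (Finset.subset_insert _ _)

lemma fl_set_not (L : List ℕ) (hL : L.Nodup) (T : List Bool) (hT : T.length = L.length) :
    fl_set L (T.map not) = L.toFinset \ fl_set L T := by
  induction L generalizing T with
  | nil => simp [fl_set]
  | cons x L ih =>
    cases T with
    | nil => simp at hT
    | cons b T =>
      rw [List.nodup_cons] at hL
      have hT' : T.length = L.length := by simpa using hT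
      have h1 := ih hL.2 T hT'
      have hx : x ∉ fl_set L T := fun h => hL.1 (List.mem_toFinset.1 (fl_set_sub L T h))
      have hx' : x ∉ L.toFinset := fun h => hL.1 (List.mem_toFinset.1 h)
      rw [List.map_cons, fl_set, fl_set, List.toFinset_cons, h1]
      cases b with
      | true =>
        rw [if_neg (by simp), if_pos rfl]
        ext a
        simp only [Finset.mem_sdiff, Finset.mem_insert]
        constructor
        · rintro ⟨h2, h3⟩
          refine ⟨Or.inr h2, ?_⟩
          rintro (h4 | h4)
          · subst h4; exact hx' h2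
          · exact h3 h4
        · rintro ⟨h2, h3⟩
          push Not at h3
          rcases h2 with h2 | h2
          · exact absurd h2 h3.1
          · exact ⟨h2, h3.2⟩
      | false =>
        rw [if_pos (by simp), if_neg (by simp)]
        ext a
        simp only [Finset.mem_sdiff, Finset.mem_insert]
        constructor
        · rintro (h2 | ⟨h2, h3⟩)
          · subst h2; exact ⟨Or.inl rfl, hx⟩
          · exact ⟨Or.inr h2, h3⟩
        · rintro ⟨h2 | h2, h3⟩
          · exact Or.inl h2
          · exact Or.inr ⟨h2, h3⟩

lemma fl_set_symmDiff (X : List (Option Bool)) (L : List ℕ) (T T' : List Bool) (h : fl_V T X)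
    (h' : fl_V T' X) : (symmDiff (fl_set L T) (fl_set L T')).card ≤ fl_stars X := by
  induction X generalizing L T T' with
  | nil =>
    cases h; cases h'
    simp
  | cons a X ih =>
    cases h with
    | cons h1 h2 =>
      cases h' with
      | cons h1' h2' =>
        rename_i b T b' T'
        cases L with
        | nil => simp [fl_set]
        | cons x L =>
          have h3 := ih L T T' h2 h2'
          cases a with
          | none =>
            have h4 : symmDiff (fl_set (x :: L) (b :: T)) (fl_set (x :: L) (b' :: T')) ⊆
                insert x (symmDiff (fl_set L T) (fl_set L T')) := by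
              intro y hy
              rw [Finset.mem_insert]
              by_cases hyx : y = x
              · exact Or.inl hyx
              · right
                have e1 : y ∈ fl_set (x :: L) (b :: T) ↔ y ∈ fl_set L T := by
                  rw [fl_set]
                  split_ifs
                  · rw [Finset.mem_insert]; simp [hyx]
                  · exact Iff.rfl
                have e2 : y ∈ fl_set (x :: L) (b' :: T') ↔ y ∈ fl_set L T' := by
                  rw [fl_set]
                  split_ifs
                  · rw [Finset.mem_insert]; simp [hyx]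
                  · exact Iff.rfl
                rw [Finset.mem_symmDiff] at hy ⊢
                rw [e1, e2] at hy
                exact hy
            have h5 := Finset.card_le_card h4
            have h6 := Finset.card_insert_le x (symmDiff (fl_set L T) (fl_set L T'))
            rw [fl_stars]
            omega
          | some c =>
            have hb : b = c := by
              rcases h1 with h1 | h1
              · cases h1
              · exact (Option.some.inj h1).symm
            have hb' : b' = c := by
              rcases h1' with h1' | h1'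
              · cases h1'
              · exact (Option.some.inj h1').symm
            subst hb
            subst hb'
            have h4 : symmDiff (fl_set (x :: L) (b' :: T)) (fl_set (x :: L) (b' :: T')) ⊆
                symmDiff (fl_set L T) (fl_set L T') := by
              intro y hy
              rw [fl_set, fl_set, Finset.mem_symmDiff] at hy
              rw [Finset.mem_symmDiff]
              split_ifs at hy
              · simp only [Finset.mem_insert] at hy
                tauto
              · exact hy
            have h5 := Finset.card_le_card h4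
            rw [fl_stars]
            omega

/-- Flag lemma (combinatorial Borsuk-Ulam type statement). -/
theorem flag_lemma (O : Finset ℕ) (J : ℕ) (s : ℕ → Finset ℕ → Bool)
    (hodd : ∀ i, ∀ T, T ⊆ O → s i (O \ T) = !(s i T)) :
    ∃ T, T ⊆ O ∧ ∀ i, i < J → ∃ T', T' ⊆ O ∧ (symmDiff T T').card ≤ i + 1 ∧ s i T' ≠ s i T := by
  obtain ⟨L, hL⟩ : ∃ L : List ℕ, L = O.toList := ⟨_, rfl⟩
  have hnd : L.Nodup := by rw [hL]; exact O.nodup_toList
  have hto : L.toFinset = O := by rw [hL]; exact O.toList_toFinset
  have hlen : L.length = O.card := by rw [hL]; exact O.length_toList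
  have hs : ∀ k, ∀ T : List Bool, T.length = L.length →
      (fun k T => s k (fl_set L T)) k (T.map not) = !((fun k T => s k (fl_set L T)) k T) := by
    intro k T hT
    show s k (fl_set L (T.map not)) = !(s k (fl_set L T))
    rw [fl_set_not L hnd T hT, hto]
    exact hodd k _ (by rw [← hto]; exact fl_set_sub L T)
  obtain ⟨X, hX, hst, hC⟩ := fl_exists_face (N := L.length)
    (s := fun k T => s k (fl_set L T)) hs (min J L.length) (min_le_right _ _)
  obtain ⟨T, hT, hTi⟩ := fl_extract _ _ X hst hC
  have hTO : fl_set L T ⊆ O := by rw [← hto]; exact fl_set_sub L T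
  refine ⟨fl_set L T, hTO, fun i hi => ?_⟩
  by_cases hiN : i < L.length
  · obtain ⟨T', Y, a1, a2, a3, a4, a5⟩ := hTi i (by omega)
    refine ⟨fl_set L T', by rw [← hto]; exact fl_set_sub L T', ?_, a5⟩
    exact (fl_set_symmDiff Y L T T' a1 a2).trans a3
  · refine ⟨O \ fl_set L T, Finset.sdiff_subset, ?_, ?_⟩
    · have h1 : symmDiff (fl_set L T) (O \ fl_set L T) ⊆ O := by
        intro y hy
        rw [Finset.mem_symmDiff] at hy
        rcases hy with ⟨h1, _⟩ | ⟨h1, _⟩
        · exact hTO h1
        · exact (Finset.mem_sdiff.1 h1).1
      have h2 := Finset.card_le_card h1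
      omega
    · rw [hodd i _ hTO]
      cases s i (fl_set L T) <;> simp

end Pool.Agent.HDSum
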