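import Mathlib

open MeasureTheory

namespace Pool.Agent.HDSum

theorem hausdorff_zero_of_cells (F : Set ℝ) (t : ℝ) (ht : 0 < t) (b : ℕ → ℝ) (hb : ∀ j, 0 ≤ b j)
    (hsum : Summable (fun j : ℕ => b j * (2 : ℝ) ^ (-t * (j : ℝ) ^ 5))) (j1 : ℕ)
    (h : ∀ j0 : ℕ, j1 ≤ j0 → ∃ J : ℕ, ∃ G : ℕ → Finset ℤ, (∀ j, ((G j).card : ℝ) ≤ b j) ∧
      ∀ z ∈ F, ∃ j, j0 ≤ j ∧ j ≤ J ∧ ⌊(2 : ℝ) ^ (j ^ 5) * z⌋ ∈ G j) :
    μH[t] F = 0 := by
  have hnonneg : ∀ j : ℕ, 0 ≤ b j * (2 : ℝ) ^ (-t * (j : ℝ) ^ 5) := fun j =>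
    mul_nonneg (hb j) (Real.rpow_nonneg (by norm_num) _)
  choose J G hG hc using fun n : ℕ => h (j1 + n) (Nat.le_add_right _ _)
  let I : ∀ n : ℕ, Finset (Σ _ : ℕ, ℤ) := fun n => (Finset.Icc (j1 + n) (J n)).sigma (G n)
  let T : ∀ n : ℕ, (I n) → Set ℝ := fun n i => {z : ℝ | ⌊(2 : ℝ) ^ (i.1.1 ^ 5) * z⌋ = i.1.2}
  have hdiam : ∀ (j : ℕ) (g : ℤ), Metric.ediam {z : ℝ | ⌊(2 : ℝ) ^ (j ^ 5) * z⌋ = g} ≤
      ENNReal.ofReal ((2 : ℝ) ^ (-(j : ℝ) ^ 5)) := by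
    intro j g
    apply Metric.ediam_le
    intro x hx y hy
    have hx' := Int.floor_eq_iff.mp hx
    have hy' := Int.floor_eq_iff.mp hy
    rw [edist_dist]
    apply ENNReal.ofReal_le_ofReal
    have hp : (0 : ℝ) < (2 : ℝ) ^ (j ^ 5) := by positivity
    have h1 : (2 : ℝ) ^ (j ^ 5) * dist x y ≤ 1 := by
      rw [Real.dist_eq, ← abs_of_pos hp, ← abs_mul, abs_le, mul_sub]
      constructor <;> linarith [hx'.1, hx'.2, hy'.1, hy'.2]
    have h2 : (2 : ℝ) ^ (-(j : ℝ) ^ 5) = ((2 : ℝ) ^ (j ^ 5))⁻¹ := by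
      rw [Real.rpow_neg (by norm_num), ← Real.rpow_natCast (2 : ℝ) (j ^ 5)]
      push_cast
      rfl
    rw [h2, ← one_div, le_div_iff₀ hp, mul_comm]
    exact h1
  have key : μH[t] F ≤ Filter.liminf (fun n : ℕ => ∑ i : (I n), Metric.ediam (T n i) ^ t)
      Filter.atTop := by
    refine Measure.hausdorffMeasure_le_liminf_sum t F
      (fun n : ℕ => ENNReal.ofReal ((1 / 2 : ℝ) ^ n)) ?_ T ?_ ?_
    · have h0 : Filter.Tendsto (fun n : ℕ => ((1 / 2 : ℝ)) ^ n) Filter.atTop (nhds 0) :=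
        tendsto_pow_atTop_nhds_zero_of_lt_one (by norm_num) (by norm_num)
      have := ENNReal.tendsto_ofReal h0
      simpa using this
    · refine Filter.Eventually.of_forall fun n i => ?_
      refine (hdiam _ _).trans (ENNReal.ofReal_le_ofReal ?_)
      have hi := i.2
      simp only [I, Finset.mem_sigma, Finset.mem_Icc] at hi
      have h3 : (n : ℝ) ≤ (i.1.1 : ℝ) ^ 5 := by
        have h4 : n ≤ i.1.1 := by omega
        have h5 : i.1.1 ≤ i.1.1 ^ 5 := Nat.le_self_pow (by norm_num) _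
        exact_mod_cast h4.trans h5
      calc (2 : ℝ) ^ (-(i.1.1 : ℝ) ^ 5) ≤ (2 : ℝ) ^ (-(n : ℝ)) :=
            Real.rpow_le_rpow_of_exponent_le (by norm_num) (by linarith)
        _ = (1 / 2 : ℝ) ^ n := by
            rw [Real.rpow_neg (by norm_num), Real.rpow_natCast, one_div, inv_pow]
    · refine Filter.Eventually.of_forall fun n z hz => ?_
      obtain ⟨j, hj1, hj2, hj3⟩ := hc n z hz
      refine Set.mem_iUnion.mpr ⟨⟨⟨j, ⌊(2 : ℝ) ^ (j ^ 5) * z⌋⟩, ?_⟩, rfl⟩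
      simp only [I, Finset.mem_sigma, Finset.mem_Icc]
      exact ⟨⟨hj1, hj2⟩, hj3⟩
  have hbound : ∀ n : ℕ, (∑ i : (I n), Metric.ediam (T n i) ^ t) ≤
      ENNReal.ofReal (∑' j : ℕ, (fun j : ℕ => b j * (2 : ℝ) ^ (-t * (j : ℝ) ^ 5)) (j + n)) := by
    intro n
    have h1 : (∑ i : (I n), Metric.ediam (T n i) ^ t) ≤
        ∑ i : (I n), ENNReal.ofReal ((2 : ℝ) ^ (-t * (i.1.1 : ℝ) ^ 5)) := by
      refine Finset.sum_le_sum fun i _ => ?_
      calc Metric.ediam (T n i) ^ t ≤ ENNReal.ofReal ((2 : ℝ) ^ (-(i.1.1 : ℝ) ^ 5)) ^ t :=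
            ENNReal.rpow_le_rpow (hdiam _ _) ht.le
        _ = ENNReal.ofReal ((2 : ℝ) ^ (-t * (i.1.1 : ℝ) ^ 5)) := by
            rw [ENNReal.ofReal_rpow_of_nonneg (by positivity) ht.le,
              ← Real.rpow_mul (by norm_num)]
            congr 2
            ring
    refine h1.trans ?_
    rw [Finset.sum_coe_sort (I n)
      (fun x : (Σ _ : ℕ, ℤ) => ENNReal.ofReal ((2 : ℝ) ^ (-t * (x.1 : ℝ) ^ 5)))]
    rw [← ENNReal.ofReal_sum_of_nonneg (fun i _ => Real.rpow_nonneg (by norm_num) _)]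
    apply ENNReal.ofReal_le_ofReal
    rw [Finset.sum_sigma]
    have h2 : ∀ j ∈ Finset.Icc (j1 + n) (J n), (∑ _g ∈ G n j, (2 : ℝ) ^ (-t * (j : ℝ) ^ 5)) ≤
        b j * (2 : ℝ) ^ (-t * (j : ℝ) ^ 5) := by
      intro j _
      rw [Finset.sum_const, nsmul_eq_mul]
      exact mul_le_mul_of_nonneg_right (hG n j) (Real.rpow_nonneg (by norm_num) _)
    refine (Finset.sum_le_sum h2).trans ?_
    have hs' : Summable (fun j : ℕ =>
        (fun j : ℕ => b j * (2 : ℝ) ^ (-t * (j : ℝ) ^ 5)) (j + n)) :=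
      (summable_nat_add_iff n).mpr hsum
    have h3 : ∑ j ∈ Finset.Icc (j1 + n) (J n), b j * (2 : ℝ) ^ (-t * (j : ℝ) ^ 5) =
        ∑ j ∈ (Finset.Icc (j1 + n) (J n)).image (fun j => j - n),
          (fun j : ℕ => b j * (2 : ℝ) ^ (-t * (j : ℝ) ^ 5)) (j + n) := by
      rw [Finset.sum_image]
      · refine Finset.sum_congr rfl fun j hj => ?_
        have : j - n + n = j := by
          have := (Finset.mem_Icc.mp hj).1
          omega
        simp only [this]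
      · intro x hx y hy hxy
        have h5 := (Finset.mem_Icc.mp hx).1
        have h6 := (Finset.mem_Icc.mp hy).1
        simp only at hxy
        omega
    rw [h3]
    exact hs'.sum_le_tsum _ (fun j _ => hnonneg _)
  have hlim : Filter.Tendsto (fun n : ℕ => ENNReal.ofReal
      (∑' j : ℕ, (fun j : ℕ => b j * (2 : ℝ) ^ (-t * (j : ℝ) ^ 5)) (j + n)))
      Filter.atTop (nhds 0) := by
    have := ENNReal.tendsto_ofReal (tendsto_sum_nat_add
      (fun j : ℕ => b j * (2 : ℝ) ^ (-t * (j : ℝ) ^ 5)))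
    simpa using this
  have hle : Filter.liminf (fun n : ℕ => ∑ i : (I n), Metric.ediam (T n i) ^ t)
      Filter.atTop ≤ 0 := by
    rw [← hlim.liminf_eq]
    exact Filter.liminf_le_liminf (Filter.Eventually.of_forall hbound)
  exact le_antisymm (key.trans hle) bot_le

end Pool.Agent.HDSum
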