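import Pool.Agent.HDSum.Defs

open Finset

namespace Pool.Agent.HDSum

/-- statement of the flag lemma -/
def FlagLemma : Prop := ∀ (O : Finset ℕ) (J : ℕ) (s : ℕ → Finset ℕ → Bool)
    (_ : ∀ i, ∀ T, T ⊆ O → s i (O \ T) = !(s i T)),
    ∃ T, T ⊆ O ∧ ∀ i, i < J → ∃ T', T' ⊆ O ∧ (symmDiff T T').card ≤ i + 1 ∧ s i T' ≠ s i T

lemma symmDiff_compl_compl {O T T' : Finset ℕ} (hT : T ⊆ O) (hT' : T' ⊆ O) :
    symmDiff (O \ T) (O \ T') = symmDiff T T' := by
  ext i
  simp only [Finset.mem_symmDiff, Finset.mem_sdiff]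
  have h1 := @hT i
  have h2 := @hT' i
  tauto

lemma symmDiff_card_triangle (A B C : Finset ℕ) :
    (symmDiff A C).card ≤ (symmDiff A B).card + (symmDiff B C).card := by
  calc (symmDiff A C).card ≤ (symmDiff A B ∪ symmDiff B C).card := by
        apply Finset.card_le_card
        intro i
        simp only [Finset.mem_symmDiff, Finset.mem_union]
        tauto
    _ ≤ _ := Finset.card_union_le _ _

theorem labels (flag : FlagLemma) (O : Finset ℕ) (F : ℕ → Finset ℕ → Prop) (j0 J : ℕ)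
    (hcov : ∀ T, T ⊆ O → ∃ j, j0 ≤ j ∧ j ≤ J ∧ F j T) :
    ∃ j, j0 ≤ j ∧ j ≤ J ∧ ∃ T, T ⊆ O ∧ ∃ T', T' ⊆ O ∧ F j T ∧ F j T' ∧
      (symmDiff T (O \ T')).card ≤ 2 * (j + 1 - j0) := by
  classical
  rcases O.eq_empty_or_nonempty with hO | hO
  · obtain ⟨j, h1, h2, h3⟩ := hcov ∅ (Finset.empty_subset _)
    refine ⟨j, h1, h2, ∅, Finset.empty_subset _, ∅, Finset.empty_subset _, h3, h3, ?_⟩
    rw [hO]; simp
  by_contra hcon
  push Not at hcon
  let p0 := O.min' hO
  have hp0 : p0 ∈ O := Finset.min'_mem O hO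
  -- near F / near -F
  let A : ℕ → Finset ℕ → Prop := fun i T => ∃ T1, T1 ⊆ O ∧ F (j0 + i) T1 ∧ (symmDiff T T1).card ≤ i + 1
  let Bn : ℕ → Finset ℕ → Prop := fun i T => ∃ T1, T1 ⊆ O ∧ F (j0 + i) T1 ∧
    (symmDiff T (O \ T1)).card ≤ i + 1
  let s : ℕ → Finset ℕ → Bool := fun i T =>
    if j0 + i ≤ J then
      (if A i T then true else if Bn i T then false else decide (p0 ∈ T))
    else decide (p0 ∈ T)
  have hAB : ∀ i, j0 + i ≤ J → ∀ T, A i T → Bn i T → False := by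
    rintro i hi T ⟨T1, h1, h2, h3⟩ ⟨T2, g1, g2, g3⟩
    have := hcon (j0 + i) (by omega) hi T1 h1 T2 g1 h2 g2
    have htri := symmDiff_card_triangle T1 T (O \ T2)
    rw [symmDiff_comm] at h3
    omega
  have hAc : ∀ i T, T ⊆ O → (A i (O \ T) ↔ Bn i T) := by
    intro i T hT
    constructor
    · rintro ⟨T1, h1, h2, h3⟩
      refine ⟨T1, h1, h2, ?_⟩
      have e : symmDiff T (O \ T1) = symmDiff (O \ T) T1 := by
        rw [← symmDiff_compl_compl hT (Finset.sdiff_subset : O \ T1 ⊆ O)]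
        rw [Finset.sdiff_sdiff_eq_self h1]
      rw [e]; exact h3
    · rintro ⟨T1, h1, h2, h3⟩
      refine ⟨T1, h1, h2, ?_⟩
      have e : symmDiff T (O \ T1) = symmDiff (O \ T) T1 := by
        rw [← symmDiff_compl_compl hT (Finset.sdiff_subset : O \ T1 ⊆ O)]
        rw [Finset.sdiff_sdiff_eq_self h1]
      rw [← e]; exact h3
  have hBc : ∀ i T, T ⊆ O → (Bn i (O \ T) ↔ A i T) := by
    intro i T hT
    have := hAc i (O \ T) Finset.sdiff_subset
    rw [Finset.sdiff_sdiff_eq_self hT] at this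
    exact this.symm
  have hodd : ∀ i, ∀ T, T ⊆ O → s i (O \ T) = !(s i T) := by
    intro i T hT
    have hp : decide (p0 ∈ O \ T) = !decide (p0 ∈ T) := by
      simp [Finset.mem_sdiff, hp0]
    by_cases hi : j0 + i ≤ J
    · simp only [s, if_pos hi]
      by_cases hA : A i T
      · have hB : ¬ Bn i T := fun h => hAB i hi T hA h
        have hA' : ¬ A i (O \ T) := fun h => hB ((hAc i T hT).1 h)
        have hB' : Bn i (O \ T) := (hBc i T hT).2 hA
        rw [if_neg hA', if_pos hB', if_pos hA]; rfl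
      · by_cases hB : Bn i T
        · have hA' : A i (O \ T) := (hAc i T hT).2 hB
          rw [if_pos hA', if_neg hA, if_pos hB]; rfl
        · have hA' : ¬ A i (O \ T) := fun h => hB ((hAc i T hT).1 h)
          have hB' : ¬ Bn i (O \ T) := fun h => hA ((hBc i T hT).1 h)
          rw [if_neg hA', if_neg hB', if_neg hA, if_neg hB, hp]
    · simp only [s, if_neg hi]
      exact hp
  obtain ⟨T, hT, hflag⟩ := flag O (J + 1 - j0) s hodd
  obtain ⟨j, h1, h2, h3⟩ := hcov T hT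
  obtain ⟨i, rfl⟩ : ∃ i, j = j0 + i := ⟨j - j0, by omega⟩
  obtain ⟨T', hT', hc, hne⟩ := hflag i (by omega)
  apply hne
  have e1 : s i T = true := by
    simp only [s, if_pos h2]
    rw [if_pos]
    exact ⟨T, hT, h3, by simp⟩
  have e2 : s i T' = true := by
    simp only [s, if_pos h2]
    rw [if_pos]
    exact ⟨T, hT, h3, by rw [symmDiff_comm]; exact hc⟩
  rw [e1, e2]

end Pool.Agent.HDSum
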