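import Mathlib

open Finset

namespace Pool.Agent.HDSum

/-- total size of the noise at very fine levels is negligible -/
theorem tail_bound (ψ : ℝ) (hψ : 0 < ψ) (C : ℝ) (hC : 0 ≤ C) :
    ∃ j1 : ℕ, ∀ j : ℕ, j1 ≤ j → ∀ n : ℕ,
      ∑ i ∈ range n, C * ((j ^ 2 + 1 + i : ℕ) : ℝ) *
        (2 : ℝ) ^ (-(ψ / 2) * ((j ^ 2 + 1 + i : ℕ) : ℝ) ^ 4) ≤ 1 / (2 : ℝ) ^ (j ^ 5) := by
  obtain ⟨K, hK⟩ := pow_unbounded_of_one_lt C (by norm_num : (1 : ℝ) < 2)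
  obtain ⟨j0, hj0⟩ := exists_nat_ge (2 * ((K : ℝ) + 3) / ψ)
  refine ⟨j0 + 1, fun j hj n => ?_⟩
  have hj1 : (1 : ℝ) ≤ (j : ℝ) := by exact_mod_cast (by omega : 1 ≤ j)
  have hjj0 : (j0 : ℝ) ≤ (j : ℝ) := by exact_mod_cast (by omega : j0 ≤ j)
  have hψj : (K : ℝ) + 3 ≤ ψ / 2 * j := by
    have h1 : 2 * ((K : ℝ) + 3) / ψ ≤ j := hj0.trans hjj0
    rw [div_le_iff₀ hψ] at h1
    linarith
  have hterm : ∀ i : ℕ, C * ((j ^ 2 + 1 + i : ℕ) : ℝ) *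
        (2 : ℝ) ^ (-(ψ / 2) * ((j ^ 2 + 1 + i : ℕ) : ℝ) ^ 4) ≤
        (1 / (2 : ℝ) ^ (j ^ 5)) * (1 / 2) ^ (i + 1) := by
    intro i
    set l : ℕ := j ^ 2 + 1 + i with hl
    have hL1 : (1 : ℝ) ≤ (l : ℝ) := by exact_mod_cast (by rw [hl]; omega : 1 ≤ l)
    have hLj : (j : ℝ) ^ 2 ≤ (l : ℝ) := by
      have : j ^ 2 ≤ l := by rw [hl]; omega
      exact_mod_cast this
    have hLi : (i : ℝ) + 1 ≤ (l : ℝ) := by
      have : i + 1 ≤ l := by rw [hl]; omega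
      exact_mod_cast this
    have hlp : ((l : ℕ) : ℝ) ≤ (2 : ℝ) ^ l := by exact_mod_cast (Nat.lt_two_pow_self (n := l)).le
    have h6 : ((j : ℝ)) ^ 6 ≤ (l : ℝ) ^ 3 := by
      have := pow_le_pow_left₀ (by positivity) hLj 3
      calc (j : ℝ) ^ 6 = ((j : ℝ) ^ 2) ^ 3 := by ring
        _ ≤ _ := this
    have hj5 : (1 : ℝ) ≤ (j : ℝ) ^ 5 := one_le_pow₀ hj1
    have hmain : (K : ℝ) + 2 * l + (j : ℝ) ^ 5 ≤ ψ / 2 * (l : ℝ) ^ 4 := by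
      have hK0 : (0 : ℝ) ≤ (K : ℝ) := Nat.cast_nonneg K
      have e1 : (K : ℝ) + 2 * l + (j : ℝ) ^ 5 ≤ (K + 2 + (j : ℝ) ^ 5) * l := by
        nlinarith
      have e2 : (K : ℝ) + 2 + (j : ℝ) ^ 5 ≤ ψ / 2 * (j : ℝ) ^ 6 := by
        have : (K + 3 : ℝ) * (j : ℝ) ^ 5 ≤ (ψ / 2 * j) * (j : ℝ) ^ 5 :=
          mul_le_mul_of_nonneg_right hψj (by positivity)
        have e3 : (ψ / 2 * j) * (j : ℝ) ^ 5 = ψ / 2 * (j : ℝ) ^ 6 := by ring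
        nlinarith
      calc (K : ℝ) + 2 * l + (j : ℝ) ^ 5 ≤ (K + 2 + (j : ℝ) ^ 5) * l := e1
        _ ≤ (ψ / 2 * (j : ℝ) ^ 6) * l := mul_le_mul_of_nonneg_right e2 (by linarith)
        _ ≤ (ψ / 2 * (l : ℝ) ^ 3) * l := by
            apply mul_le_mul_of_nonneg_right _ (by linarith)
            exact mul_le_mul_of_nonneg_left h6 (by positivity)
        _ = ψ / 2 * (l : ℝ) ^ 4 := by ring
    calc C * (l : ℝ) * (2 : ℝ) ^ (-(ψ / 2) * (l : ℝ) ^ 4)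
        ≤ (2 : ℝ) ^ K * (2 : ℝ) ^ l * (2 : ℝ) ^ (-(ψ / 2) * (l : ℝ) ^ 4) := by
          apply mul_le_mul_of_nonneg_right _ (by positivity)
          exact mul_le_mul hK.le hlp (by positivity) (by positivity)
      _ = (2 : ℝ) ^ ((K : ℝ) + l + (-(ψ / 2) * (l : ℝ) ^ 4)) := by
          rw [Real.rpow_add (by norm_num), Real.rpow_add (by norm_num), Real.rpow_natCast,
            Real.rpow_natCast]
      _ ≤ (2 : ℝ) ^ (-((j ^ 5 : ℕ) : ℝ) + -((i + 1 : ℕ) : ℝ)) := by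
          apply Real.rpow_le_rpow_of_exponent_le (by norm_num)
          push_cast
          linarith
      _ = (1 / (2 : ℝ) ^ (j ^ 5)) * (1 / 2) ^ (i + 1) := by
          rw [Real.rpow_add (by norm_num), Real.rpow_neg (by norm_num), Real.rpow_neg (by norm_num),
            Real.rpow_natCast, Real.rpow_natCast, one_div, one_div, inv_pow]
  have hgeo : ∀ n : ℕ, ∑ i ∈ range n, (1 / 2 : ℝ) ^ (i + 1) = 1 - (1 / 2) ^ n := by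
    intro n
    induction n with
    | zero => simp
    | succ n ih => rw [Finset.sum_range_succ, ih, pow_succ]; ring
  calc _ ≤ ∑ i ∈ range n, (1 / (2 : ℝ) ^ (j ^ 5)) * (1 / 2) ^ (i + 1) :=
        Finset.sum_le_sum fun i _ => hterm i
    _ = (1 / (2 : ℝ) ^ (j ^ 5)) * (1 - (1 / 2) ^ n) := by rw [← Finset.mul_sum, hgeo]
    _ ≤ (1 / (2 : ℝ) ^ (j ^ 5)) * 1 := by
        apply mul_le_mul_of_nonneg_left _ (by positivity)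
        have : (0 : ℝ) < (1 / 2) ^ n := by positivity
        linarith
    _ = _ := mul_one _

/-- the final series converges -/
theorem bound_summable (s ψ t S : ℝ) (C : ℕ) (hs : 0 < s) (hψ : 0 < ψ) (hS : 0 ≤ S)
    (ht : 2 * s + 5 * ψ < t) :
    Summable (fun j : ℕ =>
      ((4 : ℝ) ^ j * (2 : ℝ) ^ (2 * s * ((j : ℝ) + 1) ^ 5) * 200 *
        (4 : ℝ) ^ ((j ^ 2 + 1) * (C * j ^ 2 + 1)) * (2 : ℝ) ^ (4 * ψ * (j : ℝ) ^ 5) *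
        ((2 * S + 1) ^ (2 * j) * (2 : ℝ) ^ (ψ * (j : ℝ) ^ 5)) * (4 * j + 12)) *
      (2 : ℝ) ^ (-t * (j : ℝ) ^ 5)) := by
  obtain ⟨K, hK⟩ := pow_unbounded_of_one_lt (2 * S + 1) (by norm_num : (1 : ℝ) < 2)
  set D : ℝ := 62 * s + 4 * ((C : ℝ) + 1) + (4 + 2 * K) + 12 with hD
  set δ : ℝ := t - 2 * s - 5 * ψ with hδ
  have hδ0 : 0 < δ := by rw [hδ]; linarith
  obtain ⟨j0, hj0⟩ := exists_nat_ge (D / δ)
  refine Summable.of_norm_bounded_eventually_nat (g := fun j : ℕ => (1 / 2 : ℝ) ^ j)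
    summable_geometric_two ?_
  filter_upwards [Filter.eventually_ge_atTop (j0 + 1)] with j hj
  have hj1 : (1 : ℝ) ≤ (j : ℝ) := by exact_mod_cast (by omega : 1 ≤ j)
  have hjj0 : (j0 : ℝ) ≤ (j : ℝ) := by exact_mod_cast (by omega : j0 ≤ j)
  have hDj : D ≤ δ * j := by
    have h1 : D / δ ≤ j := hj0.trans hjj0
    rw [div_le_iff₀ hδ0] at h1
    linarith
  rw [Real.norm_of_nonneg (by positivity)]
  have f1 : (4 : ℝ) ^ j = (2 : ℝ) ^ (2 * (j : ℝ)) := by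
    rw [Real.rpow_mul (by norm_num), Real.rpow_natCast]; norm_num
  have f2 : (200 : ℝ) ≤ (2 : ℝ) ^ (8 : ℝ) := by
    rw [show (8 : ℝ) = ((8 : ℕ) : ℝ) by norm_num, Real.rpow_natCast]; norm_num
  have f3 : (4 : ℝ) ^ ((j ^ 2 + 1) * (C * j ^ 2 + 1)) =
      (2 : ℝ) ^ (2 * (((j : ℝ) ^ 2 + 1) * (C * (j : ℝ) ^ 2 + 1))) := by
    rw [Real.rpow_mul (by norm_num)]
    have : ((j : ℝ) ^ 2 + 1) * (C * (j : ℝ) ^ 2 + 1) = (((j ^ 2 + 1) * (C * j ^ 2 + 1) : ℕ) : ℝ) := by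
      push_cast; ring
    rw [this, Real.rpow_natCast]; norm_num
  have f4 : (2 * S + 1) ^ (2 * j) ≤ (2 : ℝ) ^ (2 * (K : ℝ) * j) := by
    calc (2 * S + 1) ^ (2 * j) ≤ ((2 : ℝ) ^ K) ^ (2 * j) :=
          pow_le_pow_left₀ (by linarith) hK.le _
      _ = (2 : ℝ) ^ (2 * (K : ℝ) * j) := by
          rw [← pow_mul]
          have : 2 * (K : ℝ) * j = ((K * (2 * j) : ℕ) : ℝ) := by push_cast; ring
          rw [this, Real.rpow_natCast]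
  have f5 : (4 * (j : ℝ) + 12) ≤ (2 : ℝ) ^ ((j : ℝ) + 4) := by
    have : (j : ℝ) + 4 = ((j + 4 : ℕ) : ℝ) := by push_cast; ring
    rw [this, Real.rpow_natCast]
    have h1 : (j : ℝ) + 1 ≤ (2 : ℝ) ^ j := by exact_mod_cast Nat.lt_two_pow_self (n := j)
    rw [pow_add]
    nlinarith
  have hexp : 2 * (j : ℝ) + 2 * s * ((j : ℝ) + 1) ^ 5 + 8 +
      2 * (((j : ℝ) ^ 2 + 1) * (C * (j : ℝ) ^ 2 + 1)) + 4 * ψ * (j : ℝ) ^ 5 +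
      (2 * (K : ℝ) * j + ψ * (j : ℝ) ^ 5) + ((j : ℝ) + 4) + (-t * (j : ℝ) ^ 5) ≤ -(j : ℝ) := by
    have hj2 : (1 : ℝ) ≤ (j : ℝ) ^ 2 := one_le_pow₀ hj1
    have hj4 : (1 : ℝ) ≤ (j : ℝ) ^ 4 := one_le_pow₀ hj1
    have g1 : ((j : ℝ) + 1) ^ 5 ≤ (j : ℝ) ^ 5 + 31 * (j : ℝ) ^ 4 := by
      have a1 : (j : ℝ) ^ 3 ≤ (j : ℝ) ^ 4 := pow_le_pow_right₀ hj1 (by norm_num)
      have a2 : (j : ℝ) ^ 2 ≤ (j : ℝ) ^ 4 := pow_le_pow_right₀ hj1 (by norm_num)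
      have a3 : (j : ℝ) ≤ (j : ℝ) ^ 4 := le_self_pow₀ hj1 (by norm_num)
      nlinarith
    have hC0 : (0 : ℝ) ≤ (C : ℝ) := Nat.cast_nonneg C
    have hK0 : (0 : ℝ) ≤ (K : ℝ) := Nat.cast_nonneg K
    have g2 : ((j : ℝ) ^ 2 + 1) * (C * (j : ℝ) ^ 2 + 1) ≤ 2 * ((C : ℝ) + 1) * (j : ℝ) ^ 4 := by
      have b1 : (j : ℝ) ^ 2 + 1 ≤ 2 * (j : ℝ) ^ 2 := by linarith
      have b2 : C * (j : ℝ) ^ 2 + 1 ≤ ((C : ℝ) + 1) * (j : ℝ) ^ 2 := by linarith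
      calc _ ≤ (2 * (j : ℝ) ^ 2) * (((C : ℝ) + 1) * (j : ℝ) ^ 2) :=
            mul_le_mul b1 b2 (by positivity) (by positivity)
        _ = _ := by ring
    have g3 : (j : ℝ) ≤ (j : ℝ) ^ 4 := le_self_pow₀ hj1 (by norm_num)
    have g4 : (4 + 2 * (K : ℝ)) * j ≤ (4 + 2 * (K : ℝ)) * (j : ℝ) ^ 4 :=
      mul_le_mul_of_nonneg_left g3 (by positivity)
    have g5 : D * (j : ℝ) ^ 4 ≤ (δ * j) * (j : ℝ) ^ 4 :=
      mul_le_mul_of_nonneg_right hDj (by positivity)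
    have g6 : 2 * s * ((j : ℝ) + 1) ^ 5 ≤ 2 * s * ((j : ℝ) ^ 5 + 31 * (j : ℝ) ^ 4) :=
      mul_le_mul_of_nonneg_left g1 (by positivity)
    rw [hD] at g5
    rw [hδ] at g5
    nlinarith
  calc _ ≤ ((2 : ℝ) ^ (2 * (j : ℝ)) * (2 : ℝ) ^ (2 * s * ((j : ℝ) + 1) ^ 5) * (2 : ℝ) ^ (8 : ℝ) *
        (2 : ℝ) ^ (2 * (((j : ℝ) ^ 2 + 1) * (C * (j : ℝ) ^ 2 + 1))) *
        (2 : ℝ) ^ (4 * ψ * (j : ℝ) ^ 5) *
        ((2 : ℝ) ^ (2 * (K : ℝ) * j) * (2 : ℝ) ^ (ψ * (j : ℝ) ^ 5)) *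
        (2 : ℝ) ^ ((j : ℝ) + 4)) * (2 : ℝ) ^ (-t * (j : ℝ) ^ 5) := by
        rw [f1, f3]
        gcongr
    _ = (2 : ℝ) ^ (2 * (j : ℝ) + 2 * s * ((j : ℝ) + 1) ^ 5 + 8 +
      2 * (((j : ℝ) ^ 2 + 1) * (C * (j : ℝ) ^ 2 + 1)) + 4 * ψ * (j : ℝ) ^ 5 +
      (2 * (K : ℝ) * j + ψ * (j : ℝ) ^ 5) + ((j : ℝ) + 4) + (-t * (j : ℝ) ^ 5)) := by
        simp only [Real.rpow_add (by norm_num : (0 : ℝ) < 2)]
    _ ≤ (2 : ℝ) ^ (-(j : ℝ)) := Real.rpow_le_rpow_of_exponent_le (by norm_num) hexp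
    _ = (1 / 2) ^ j := by
        rw [Real.rpow_neg (by norm_num), Real.rpow_natCast, one_div, inv_pow]

end Pool.Agent.HDSum
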