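import Pool.Agent.HDSum.Dual
import Pool.Agent.HDSum.Labels
import Pool.Agent.HDSum.Flag
import Pool.Agent.HDSum.Cover
import Pool.Agent.HDSum.Haus
import Pool.Agent.HDSum.Numeric

open Finset MeasureTheory
open scoped Pointwise

namespace Pool.Agent.HDSum

/-- the achievement set -/
def AS (x : ℕ → ℝ) : Set ℝ := Set.range (fun A : Set ℕ => ∑' n, A.indicator x n)

lemma sv_mem_AS (x : ℕ → ℝ) (a : Finset ℕ) : sv x a ∈ AS x := by
  refine ⟨(a : Set ℕ), ?_⟩
  simp only
  rw [tsum_eq_sum (s := a) (fun n hn => Set.indicator_of_notMem (by simpa using hn) _)]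
  unfold sv
  apply Finset.sum_congr rfl
  intro i hi
  exact Set.indicator_of_mem (by simpa using hi) _

lemma AS_compact (x : ℕ → ℝ) (hx : ∀ n, 0 < x n) (hs : Summable x) : IsCompact (AS x) := by
  classical
  have h1 : AS x = Set.range (fun ε : ℕ → Bool => ∑' n, if ε n = true then x n else 0) := by
    ext z
    constructor
    · rintro ⟨A, rfl⟩
      refine ⟨fun n => decide (n ∈ A), ?_⟩
      simp only
      congr 1
      funext n
      by_cases h : n ∈ A
      · simp [h]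
      · simp [h]
    · rintro ⟨ε, rfl⟩
      refine ⟨{n | ε n = true}, ?_⟩
      simp only
      congr 1
      funext n
      by_cases h : ε n = true
      · rw [if_pos h]; exact Set.indicator_of_mem (s := {n | ε n = true}) h _
      · rw [if_neg h]; exact Set.indicator_of_notMem (s := {n | ε n = true}) h _
  rw [h1]
  apply isCompact_range
  apply continuous_tsum (u := x) _ hs
  · intro n ε
    split_ifs
    · rw [Real.norm_of_nonneg (hx n).le]
    · rw [norm_zero]; exact (hx n).le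
  · intro n
    have : (fun ε : ℕ → Bool => if ε n = true then x n else 0) =
        (fun b : Bool => if b = true then x n else 0) ∘ (fun ε : ℕ → Bool => ε n) := rfl
    rw [this]
    exact (continuous_of_discreteTopology).comp (continuous_apply n)

lemma approx_one (x : ℕ → ℝ) (hs : Summable x) (A : Set ℕ) (ε : ℝ) (hε : 0 < ε) :
    ∃ a : Finset ℕ, |(∑' n, A.indicator x n) - sv x a| ≤ ε := by
  classical
  have h := (hs.indicator A).hasSum.tendsto_sum_nat
  rw [Metric.tendsto_atTop] at h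
  obtain ⟨N, hN⟩ := h ε hε
  have h1 := hN N le_rfl
  refine ⟨(range N).filter (fun i => i ∈ A), ?_⟩
  have e : sv x ((range N).filter (fun i => i ∈ A)) = ∑ i ∈ range N, A.indicator x i := by
    unfold sv
    rw [Finset.sum_filter]
    apply Finset.sum_congr rfl
    intro i _
    simp [Set.indicator_apply]
  rw [e, abs_sub_comm]
  rw [Real.dist_eq] at h1
  exact h1.le

lemma approx_two (x : ℕ → ℝ) (hs : Summable x) (z : ℝ) (hz : z ∈ AS x + AS x) (ε : ℝ)
    (hε : 0 < ε) : ∃ a b : Finset ℕ, |z - (sv x a + sv x b)| ≤ ε := by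
  obtain ⟨u, ⟨A, rfl⟩, v, ⟨B, rfl⟩, rfl⟩ := Set.mem_add.1 hz
  obtain ⟨a, ha⟩ := approx_one x hs A (ε / 2) (by linarith)
  obtain ⟨b, hb⟩ := approx_one x hs B (ε / 2) (by linarith)
  refine ⟨a, b, ?_⟩
  rw [abs_le] at ha hb ⊢
  simp only
  constructor
  · linarith [ha.1, hb.1]
  · linarith [ha.2, hb.2]

lemma finite_of_bounded (A : Set ℤ) (N : ℝ) (h : ∀ Z : Finset ℤ, (∀ g ∈ Z, g ∈ A) → (Z.card : ℝ) ≤ N) :
    ∃ F : Finset ℤ, (∀ g, g ∈ F ↔ g ∈ A) ∧ (F.card : ℝ) ≤ N := by
  have hfin : A.Finite := by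
    by_contra hinf
    obtain ⟨n, hn⟩ := exists_nat_gt N
    obtain ⟨Z, hZ, hc⟩ := (show A.Infinite from hinf).exists_subset_card_eq n
    have := h Z (fun g hg => hZ hg)
    rw [hc] at this
    linarith
  refine ⟨hfin.toFinset, fun g => by simp, h _ (fun g hg => by simpa using hg)⟩

lemma Rl_mono {i j : ℕ} (h : i ≤ j) : Rl i ≤ Rl j := by
  unfold Rl
  exact pow_le_pow_right₀ (by norm_num) (Nat.pow_le_pow_left h 5)

lemma exists_lev (j0 : ℕ) (ρ : ℝ) (h0 : 0 < ρ) (h1 : ρ ≤ 1 / Rl j0) :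
    ∃ j, j0 ≤ j ∧ 1 / Rl (j + 1) < ρ ∧ ρ ≤ 1 / Rl j := by
  classical
  have hex : ∃ k, j0 ≤ k ∧ 1 / Rl (k + 1) < ρ := by
    obtain ⟨n, hn⟩ := exists_nat_gt (1 / ρ)
    refine ⟨max j0 n, le_max_left _ _, ?_⟩
    rw [div_lt_comm₀ (Rl_pos _) h0]
    refine hn.trans_le ?_
    have h2 : (n : ℝ) ≤ Rl (n + 1) := by
      unfold Rl
      have : n < 2 ^ ((n + 1) ^ 5) := by
        calc n < 2 ^ n := Nat.lt_two_pow_self
          _ ≤ 2 ^ ((n + 1) ^ 5) := by
            apply Nat.pow_le_pow_right (by norm_num)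
            have h3 : (n + 1) ^ 1 ≤ (n + 1) ^ 5 := Nat.pow_le_pow_right (by omega) (by norm_num)
            rw [pow_one] at h3
            omega
      exact_mod_cast this.le
    exact h2.trans (Rl_mono (by have := le_max_right j0 n; omega))
  refine ⟨Nat.find hex, (Nat.find_spec hex).1, (Nat.find_spec hex).2, ?_⟩
  by_contra hcon
  push Not at hcon
  have hne : Nat.find hex ≠ j0 := by
    intro he
    rw [he] at hcon
    linarith
  have hgt : j0 < Nat.find hex := lt_of_le_of_ne (Nat.find_spec hex).1 (Ne.symm hne)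
  have := Nat.find_min hex (show Nat.find hex - 1 < Nat.find hex by omega)
  apply this
  refine ⟨by omega, ?_⟩
  have e : Nat.find hex - 1 + 1 = Nat.find hex := by omega
  rw [e]; exact hcon

lemma flagLemma : FlagLemma := fun O J s h => flag_lemma O J s h

theorem hausdorff_sum_zero (x : ℕ → ℝ) (hx : ∀ n, 0 < x n) (hs : Summable x) (s ψ t : ℝ)
    (hs0 : 0 < s) (hψ : 0 < ψ) (ht : 2 * s + 5 * ψ < t) (h0 : μH[s] (AS x) = 0) :
    μH[t] (AS x + AS x) = 0 := by
  classical
  set S : ℝ := ∑' n, x n with hS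
  have hS0 : 0 ≤ S := tsum_nonneg (fun n => (hx n).le)
  obtain ⟨d⟩ := exists_LD x hx hs ψ S hψ le_rfl
  obtain ⟨j1, hj1⟩ := tail_bound ψ hψ (d.C : ℝ) (Nat.cast_nonneg _)
  have hsum := bound_summable s ψ t S d.C hs0 hψ hS0 ht
  refine hausdorff_zero_of_cells (AS x + AS x) t (by linarith) _ ?_ hsum
    (max (max d.jg j1) 1) ?_
  · intro j; positivity
  intro j0 hj0
  have hjg : d.jg ≤ j0 := le_trans (le_trans (le_max_left _ _) (le_max_left _ _)) hj0
  have hj1' : j1 ≤ j0 := le_trans (le_trans (le_max_right _ _) (le_max_left _ _)) hj0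
  have hj01 : 1 ≤ j0 := le_trans (le_max_right _ _) hj0
  have htail : ∀ j, j0 ≤ j → ∀ n : ℕ, ∑ i ∈ range n, (d.C : ℝ) * ((j ^ 2 + 1 + i : ℕ) : ℝ) *
      βl ψ (j ^ 2 + 1 + i) ≤ 1 / Rl j := by
    intro j hj n
    exact hj1 j (hj1'.trans hj) n
  -- the cover
  obtain ⟨U, hU1, hU2, hU3⟩ := finite_cover_of_hausdorff_zero (AS x) (AS_compact x hx hs) s hs0 h0
    (1 / Rl j0) (by have := Rl_pos j0; positivity)
  have hlevex : ∀ u : ℝ × ℝ, ∃ j, u ∈ U → j0 ≤ j ∧ 1 / Rl (j + 1) < u.2 ∧ u.2 ≤ 1 / Rl j := by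
    intro u
    by_cases hu : u ∈ U
    · obtain ⟨j, hj⟩ := exists_lev j0 u.2 (hU1 u hu).1 (hU1 u hu).2
      exact ⟨j, fun _ => hj⟩
    · exact ⟨0, fun h => absurd h hu⟩
  choose lev hlev using hlevex
  set J : ℕ := max j0 (U.sup lev) with hJ
  have hlevJ : ∀ u ∈ U, lev u ≤ J := fun u hu => le_trans (Finset.le_sup hu) (le_max_right _ _)
  let Uj : ℕ → Finset (ℝ × ℝ) := fun j => U.filter (fun u => lev u = j)
  let Pj : ℕ → Finset ℕ → ℝ := fun j =>
    noise d.Y d.κ j0 (J + 1 - j0) (fun a => ∑ u ∈ Uj j, ev x u.1 u.2 a)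
  let Good : ℕ → Set ℤ := fun j => {g | ∃ (z : ℝ) (a b : Finset ℕ) (P : Pat), cell (Rl j) z = g ∧
      Disjoint P.1 P.2 ∧ P.1.card + P.2.card ≤ 2 * j ∧
      |z - (sv x a + sv x b + pv x P)| ≤ 1 / Rl j ∧
      (1 / 2 : ℝ) ^ j ≤ Pj j a ∧ (1 / 2 : ℝ) ^ j ≤ Pj j b}
  let bj : ℕ → ℝ := fun j => (4 : ℝ) ^ j * (2 : ℝ) ^ (2 * s * ((j : ℝ) + 1) ^ 5) * 200 *
        (4 : ℝ) ^ ((j ^ 2 + 1) * (d.C * j ^ 2 + 1)) * (2 : ℝ) ^ (4 * ψ * (j : ℝ) ^ 5) *
        ((2 * S + 1) ^ (2 * j) * (2 : ℝ) ^ (ψ * (j : ℝ) ^ 5)) * (4 * j + 12)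
  have hUjcard : ∀ j, ((Uj j).card : ℝ) ^ 2 ≤ (2 : ℝ) ^ (2 * s * ((j : ℝ) + 1) ^ 5) := by
    intro j
    have hR := Rl_pos (j + 1)
    have e1 : ((Uj j).card : ℝ) * (1 / Rl (j + 1)) ^ s ≤ 1 := by
      calc ((Uj j).card : ℝ) * (1 / Rl (j + 1)) ^ s = ∑ u ∈ Uj j, (1 / Rl (j + 1)) ^ s := by simp
        _ ≤ ∑ u ∈ Uj j, u.2 ^ s := by
            apply Finset.sum_le_sum
            intro u hu
            obtain ⟨huU, hul⟩ := Finset.mem_filter.1 hu
            have := (hlev u huU).2.1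
            rw [hul] at this
            exact Real.rpow_le_rpow (by positivity) this.le hs0.le
        _ ≤ ∑ u ∈ U, u.2 ^ s := by
            apply Finset.sum_le_sum_of_subset_of_nonneg (Finset.filter_subset _ _)
            intro u hu _
            exact Real.rpow_nonneg (hU1 u hu).1.le _
        _ ≤ 1 := hU3
    have e2 : ((Uj j).card : ℝ) ≤ (2 : ℝ) ^ (s * ((j : ℝ) + 1) ^ 5) := by
      have e3 : (1 / Rl (j + 1)) ^ s = ((2 : ℝ) ^ (s * ((j : ℝ) + 1) ^ 5))⁻¹ := by
        unfold Rl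
        rw [one_div, Real.inv_rpow (by positivity), ← Real.rpow_natCast,
          ← Real.rpow_mul (by norm_num)]
        congr 2
        push_cast
        ring
      rw [e3] at e1
      have hpos : (0 : ℝ) < (2 : ℝ) ^ (s * ((j : ℝ) + 1) ^ 5) := by positivity
      rw [← div_eq_mul_inv, div_le_one hpos] at e1
      exact e1
    calc ((Uj j).card : ℝ) ^ 2 ≤ ((2 : ℝ) ^ (s * ((j : ℝ) + 1) ^ 5)) ^ 2 :=
          pow_le_pow_left₀ (Nat.cast_nonneg _) e2 2
      _ = _ := by
          rw [← Real.rpow_natCast, ← Real.rpow_mul (by norm_num)]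
          congr 1
          push_cast
          ring
  have hGoodfin : ∀ j, j0 ≤ j → j ≤ J → ∃ F : Finset ℤ, (∀ g, g ∈ F ↔ g ∈ Good j) ∧
      (F.card : ℝ) ≤ bj j := by
    intro j h1 h2
    apply finite_of_bounded
    intro Z hZ
    have hUle : ∀ u ∈ Uj j, u.2 ≤ 1 / Rl j := by
      intro u hu
      obtain ⟨huU, hul⟩ := Finset.mem_filter.1 hu
      have := (hlev u huU).2.2
      rw [hul] at this
      exact this
    have := count_level hS0 d j0 j J hjg h1 h2 (htail j h1) (Uj j) hUle Z (fun g hg => hZ g hg)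
    refine this.trans ?_
    simp only [bj]
    gcongr
    exact hUjcard j
  have hGex : ∀ j, ∃ F : Finset ℤ, (F.card : ℝ) ≤ bj j ∧
      (j0 ≤ j → j ≤ J → ∀ g, g ∈ F ↔ g ∈ Good j) := by
    intro j
    by_cases hj : j0 ≤ j ∧ j ≤ J
    · obtain ⟨F, hF1, hF2⟩ := hGoodfin j hj.1 hj.2
      exact ⟨F, hF2, fun _ _ => hF1⟩
    · refine ⟨∅, ?_, fun h1 h2 => absurd ⟨h1, h2⟩ hj⟩
      simp only [bj, Finset.card_empty, Nat.cast_zero]
      positivity
  choose G hG1 hG2 using hGex
  refine ⟨J, G, hG1, ?_⟩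
  intro z hz
  obtain ⟨a0, b0, hab⟩ := approx_two x hs z hz (1 / Rl J) (by have := Rl_pos J; positivity)
  -- decomposition
  set Tw := a0 ∩ b0 with hTw
  set O := symmDiff a0 b0 with hO
  have hdisjTO : Disjoint Tw O := by
    rw [Finset.disjoint_left]
    intro i hi hi'
    rw [hTw, Finset.mem_inter] at hi
    rw [hO, Finset.mem_symmDiff] at hi'
    tauto
  have hsvab : sv x a0 + sv x b0 = 2 * sv x Tw + sv x O := by
    have e1 : sv x a0 = sv x (a0 ∩ b0) + sv x (a0 \ b0) := by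
      unfold sv; exact (Finset.sum_inter_add_sum_sdiff a0 b0 x).symm
    have e2 : sv x b0 = sv x (b0 ∩ a0) + sv x (b0 \ a0) := by
      unfold sv; exact (Finset.sum_inter_add_sum_sdiff b0 a0 x).symm
    have e3 : sv x O = sv x (a0 \ b0) + sv x (b0 \ a0) := by
      rw [hO, symmDiff_def, Finset.sup_eq_union]
      apply sv_union_disj
      rw [Finset.disjoint_left]
      intro i hi hi'
      simp only [Finset.mem_sdiff] at hi hi'
      tauto
    rw [Finset.inter_comm b0 a0] at e2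
    rw [e1, e2, e3, hTw]
    ring
  -- labels
  have hcov : ∀ T, T ⊆ O → ∃ j, j0 ≤ j ∧ j ≤ J ∧ (1 / 2 : ℝ) ^ j ≤ Pj j (Tw ∪ T) := by
    intro T _
    by_contra hcon
    push Not at hcon
    have hsum1 : (1 : ℝ) ≤ ∑ j ∈ Finset.Icc j0 J, Pj j (Tw ∪ T) := by
      have e1 : ∑ j ∈ Finset.Icc j0 J, Pj j (Tw ∪ T) =
          noise d.Y d.κ j0 (J + 1 - j0)
            (fun a => ∑ j ∈ Finset.Icc j0 J, ∑ u ∈ Uj j, ev x u.1 u.2 a) (Tw ∪ T) := by
        rw [noise_sum]
      rw [e1, ← noise_one d.Y d.κ (J + 1 - j0) j0 (fun l _ => d.hYne l) (Tw ∪ T)]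
      apply noise_mono
      intro a
      obtain ⟨u, hu, hud⟩ := hU2 (sv x a) (sv_mem_AS x a)
      have hj := hlev u hu
      have hmem : lev u ∈ Finset.Icc j0 J := Finset.mem_Icc.2 ⟨hj.1, hlevJ u hu⟩
      calc (1 : ℝ) = ev x u.1 u.2 a := by unfold ev; rw [if_pos hud.le]
        _ ≤ ∑ u ∈ Uj (lev u), ev x u.1 u.2 a :=
            Finset.single_le_sum (f := fun u : ℝ × ℝ => ev x u.1 u.2 a)
              (fun u _ => ev_nonneg _ _ _ _) (Finset.mem_filter.2 ⟨hu, rfl⟩)
        _ ≤ _ := Finset.single_le_sum (f := fun j => ∑ u ∈ Uj j, ev x u.1 u.2 a)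
              (fun j _ => Finset.sum_nonneg fun u _ => ev_nonneg _ _ _ _) hmem
    have hsum2 : ∑ j ∈ Finset.Icc j0 J, Pj j (Tw ∪ T) < 1 := by
      calc ∑ j ∈ Finset.Icc j0 J, Pj j (Tw ∪ T) < ∑ j ∈ Finset.Icc j0 J, (1 / 2 : ℝ) ^ j := by
            apply Finset.sum_lt_sum_of_nonempty
            · exact ⟨j0, Finset.mem_Icc.2 ⟨le_rfl, le_max_left _ _⟩⟩
            · intro j hj
              rw [Finset.mem_Icc] at hj
              exact hcon j hj.1 hj.2
        _ ≤ ∑ j ∈ Finset.range J, (1 / 2 : ℝ) * (1 / 2 : ℝ) ^ j := by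
            have : ∀ j ∈ Finset.range J, (1 / 2 : ℝ) * (1 / 2 : ℝ) ^ j = (1 / 2 : ℝ) ^ (j + 1) :=
              fun j _ => by rw [pow_succ]; ring
            rw [Finset.sum_congr rfl this]
            have e2 : ∑ j ∈ Finset.range J, (1 / 2 : ℝ) ^ (j + 1) =
                ∑ j ∈ (Finset.range J).image (fun j => j + 1), (1 / 2 : ℝ) ^ j := by
              rw [Finset.sum_image]
              intro a _ b _ h
              simpa using h
            rw [e2]
            apply Finset.sum_le_sum_of_subset_of_nonneg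
            · intro j hj
              rw [Finset.mem_Icc] at hj
              rw [Finset.mem_image]
              exact ⟨j - 1, Finset.mem_range.2 (by omega), by omega⟩
            · intro j _ _; positivity
        _ ≤ 1 := by
            rw [← Finset.mul_sum]
            have hg : ∑ j ∈ Finset.range J, (1 / 2 : ℝ) ^ j ≤ 2 := by
              have := (summable_geometric_two).sum_le_tsum (Finset.range J)
                (fun i _ => by positivity)
              rwa [tsum_geometric_two] at this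
            linarith
    linarith
  obtain ⟨j, hjj0, hjJ, T, hT, T', hT', hPT, hPT', hcard⟩ :=
    labels flagLemma O (fun j T => (1 / 2 : ℝ) ^ j ≤ Pj j (Tw ∪ T)) j0 J hcov
  refine ⟨j, hjj0, hjJ, ?_⟩
  have hgoal : cell (Rl j) z ∈ G j := by
    rw [hG2 j hjj0 hjJ]
    refine ⟨z, Tw ∪ T, Tw ∪ T', ((O \ T') \ T, T \ (O \ T')), rfl, ?_, ?_, ?_, hPT, hPT'⟩
    · rw [Finset.disjoint_left]
      intro i hi hi'
      simp only [Finset.mem_sdiff] at hi hi'
      tauto
    · have e1 : ((O \ T') \ T).card + (T \ (O \ T')).card = (symmDiff T (O \ T')).card := by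
        rw [symmDiff_def, Finset.sup_eq_union, Finset.card_union_of_disjoint, add_comm]
        rw [Finset.disjoint_left]
        intro i hi hi'
        simp only [Finset.mem_sdiff] at hi hi'
        tauto
      simp only
      rw [e1]
      omega
    · have e1 : sv x (Tw ∪ T) = sv x Tw + sv x T :=
        sv_union_disj x _ _ (hdisjTO.mono_right hT)
      have e2 : sv x (Tw ∪ T') = sv x Tw + sv x T' :=
        sv_union_disj x _ _ (hdisjTO.mono_right hT')
      have e3 : sv x O = sv x (O \ T') + sv x T' := by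
        unfold sv; exact (Finset.sum_sdiff hT').symm
      have e4 : sv x (O \ T') = sv x ((O \ T') ∩ T) + sv x ((O \ T') \ T) := by
        unfold sv; exact (Finset.sum_inter_add_sum_sdiff _ _ x).symm
      have e5 : sv x T = sv x (T ∩ (O \ T')) + sv x (T \ (O \ T')) := by
        unfold sv; exact (Finset.sum_inter_add_sum_sdiff _ _ x).symm
      rw [Finset.inter_comm T (O \ T')] at e5
      have e6 : sv x (Tw ∪ T) + sv x (Tw ∪ T') + pv x ((O \ T') \ T, T \ (O \ T')) =
          sv x a0 + sv x b0 := by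
        unfold pv
        simp only
        rw [e1, e2, hsvab]
        linarith
      rw [e6]
      refine hab.trans ?_
      exact one_div_le_one_div_of_le (Rl_pos j) (Rl_mono hjJ)
  exact hgoal

end Pool.Agent.HDSum
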