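import Pool.Agent.HDSum.Special

open Finset

namespace Pool.Agent.HDSum

lemma pats_zero (B : Finset ℕ) : pats B 0 = {(∅, ∅)} := by
  ext p
  rw [mem_pats, Finset.mem_singleton]
  constructor
  · rintro ⟨_, _, _, h⟩
    have h1 : p.1.card = 0 := by omega
    have h2 : p.2.card = 0 := by omega
    rw [Finset.card_eq_zero] at h1 h2
    exact Prod.ext h1 h2
  · rintro rfl
    simp

lemma card_pats_le (B : Finset ℕ) (k : ℕ) : (pats B k).card ≤ (2 * B.card + 1) ^ k := by
  classical
  induction k with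
  | zero => simp [pats_zero]
  | succ k ih =>
    -- every pattern of size ≤ k+1 is obtained from one of size ≤ k
    let T : Finset (Option (Bool × ℕ)) := insert none ((Finset.univ ×ˢ B).image some)
    let Φ : Pat × Option (Bool × ℕ) → Pat := fun q =>
      match q.2 with
      | none => q.1
      | some (true, i) => (insert i q.1.1, q.1.2)
      | some (false, i) => (q.1.1, insert i q.1.2)
    have hT : T.card ≤ 2 * B.card + 1 := by
      refine le_trans (Finset.card_insert_le _ _) ?_
      have := Finset.card_image_le (s := (Finset.univ : Finset Bool) ×ˢ B) (f := some)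
      rw [Finset.card_product] at this
      simp at this
      simp only [add_le_add_iff_right]
      refine le_trans ?_ this
      simp
    have hsub : pats B (k + 1) ⊆ (pats B k ×ˢ T).image Φ := by
      intro p hp
      obtain ⟨h1, h2, hd, hc⟩ := mem_pats.1 hp
      rw [Finset.mem_image]
      by_cases hk : p.1.card + p.2.card ≤ k
      · refine ⟨(p, none), ?_, rfl⟩
        rw [Finset.mem_product]
        exact ⟨mem_pats.2 ⟨h1, h2, hd, hk⟩, Finset.mem_insert_self _ _⟩
      · rcases p.1.eq_empty_or_nonempty with he | ⟨i, hi⟩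
        · have hne : p.2.Nonempty := by
            rw [← Finset.card_pos]
            rw [he] at hk
            simp at hk
            omega
          obtain ⟨i, hi⟩ := hne
          refine ⟨((p.1, p.2.erase i), some (false, i)), ?_, ?_⟩
          · rw [Finset.mem_product]
            refine ⟨mem_pats.2 ⟨h1, (Finset.erase_subset _ _).trans h2,
              hd.mono_right (Finset.erase_subset _ _), ?_⟩, ?_⟩
            · have := Finset.card_erase_of_mem hi
              have hpos := Finset.card_pos.2 ⟨i, hi⟩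
              simp only
              omega
            · apply Finset.mem_insert_of_mem
              rw [Finset.mem_image]
              exact ⟨(false, i), Finset.mem_product.2 ⟨Finset.mem_univ _, h2 hi⟩, rfl⟩
          · simp only [Φ]
            rw [Finset.insert_erase hi]
        · refine ⟨((p.1.erase i, p.2), some (true, i)), ?_, ?_⟩
          · rw [Finset.mem_product]
            refine ⟨mem_pats.2 ⟨(Finset.erase_subset _ _).trans h1, h2,
              hd.mono_left (Finset.erase_subset _ _), ?_⟩, ?_⟩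
            · have := Finset.card_erase_of_mem hi
              have hpos := Finset.card_pos.2 ⟨i, hi⟩
              simp only
              omega
            · apply Finset.mem_insert_of_mem
              rw [Finset.mem_image]
              exact ⟨(true, i), Finset.mem_product.2 ⟨Finset.mem_univ _, h1 hi⟩, rfl⟩
          · simp only [Φ]
            rw [Finset.insert_erase hi]
    calc (pats B (k + 1)).card ≤ ((pats B k ×ˢ T).image Φ).card := Finset.card_le_card hsub
      _ ≤ (pats B k ×ˢ T).card := Finset.card_image_le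
      _ = (pats B k).card * T.card := Finset.card_product _ _
      _ ≤ (2 * B.card + 1) ^ k * (2 * B.card + 1) := Nat.mul_le_mul ih hT
      _ = (2 * B.card + 1) ^ (k + 1) := by ring

lemma pats_mono {B : Finset ℕ} {k m : ℕ} (h : k ≤ m) : pats B k ⊆ pats B m := by
  intro p hp
  obtain ⟨h1, h2, hd, hc⟩ := mem_pats.1 hp
  exact mem_pats.2 ⟨h1, h2, hd, hc.trans h⟩

lemma pats_swap {B : Finset ℕ} {m : ℕ} {p : Pat} (h : p ∈ pats B m) : (p.2, p.1) ∈ pats B m := by
  obtain ⟨h1, h2, hd, hc⟩ := mem_pats.1 h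
  exact mem_pats.2 ⟨h2, h1, hd.symm, by simp only; omega⟩

lemma pv_swap (x : ℕ → ℝ) (p : Pat) : pv x (p.2, p.1) = - pv x p := by
  unfold pv; simp

/-- splitting a pattern along `B` and `G` -/
lemma pv_split (x : ℕ → ℝ) (B G : Finset ℕ) (p : Pat) :
    pv x p = pv x (p.1 ∩ B, p.2 ∩ B) + pv x ((p.1 \ B) ∩ G, (p.2 \ B) ∩ G) +
      pv x ((p.1 \ B) \ G, (p.2 \ B) \ G) := by
  unfold pv sv
  simp only
  have a1 := Finset.sum_inter_add_sum_sdiff p.1 B x
  have a2 := Finset.sum_inter_add_sum_sdiff p.2 B x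
  have a3 := Finset.sum_inter_add_sum_sdiff (p.1 \ B) G x
  have a4 := Finset.sum_inter_add_sum_sdiff (p.2 \ B) G x
  linarith

lemma abs_pv_le (x : ℕ → ℝ) (p : Pat) (c : ℝ) (h1 : ∀ i ∈ p.1, |x i| ≤ c)
    (h2 : ∀ i ∈ p.2, |x i| ≤ c) : |pv x p| ≤ ((p.1.card + p.2.card : ℕ) : ℝ) * c := by
  unfold pv sv
  calc |∑ i ∈ p.1, x i - ∑ i ∈ p.2, x i| ≤ |∑ i ∈ p.1, x i| + |∑ i ∈ p.2, x i| := abs_sub _ _
    _ ≤ ∑ i ∈ p.1, |x i| + ∑ i ∈ p.2, |x i| :=
        add_le_add (Finset.abs_sum_le_sum_abs _ _) (Finset.abs_sum_le_sum_abs _ _)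
    _ ≤ ∑ i ∈ p.1, c + ∑ i ∈ p.2, c :=
        add_le_add (Finset.sum_le_sum h1) (Finset.sum_le_sum h2)
    _ = ((p.1.card + p.2.card : ℕ) : ℝ) * c := by
        rw [Finset.sum_const, Finset.sum_const, nsmul_eq_mul, nsmul_eq_mul]; push_cast; ring

theorem count_lemma (x : ℕ → ℝ) (R : ℝ) (hR : 0 < R) (B G : Finset ℕ) (k m : ℕ) (hkm : k ≤ m)
    (hsmall : ∀ i, i ∉ B → i ∉ G → |x i| ≤ 1 / R) {ι : Type} (Z : Finset ι) (z : ι → ℝ)
    (hinj : ∀ i ∈ Z, ∀ i' ∈ Z, cell R (z i) = cell R (z i') → i = i')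
    (a b : ι → Finset ℕ) (P : ι → Pat)
    (hP : ∀ i ∈ Z, Disjoint (P i).1 (P i).2 ∧ (P i).1.card + (P i).2.card ≤ k)
    (hz : ∀ i ∈ Z, |z i - (sv x (a i) + sv x (b i) + pv x (P i))| ≤ 1 / R) (q q' : ℝ) :
    ∑ i ∈ Z, ind (Q1 x R B m) (sv x (a i) - q) * ind (Q1 x R B m) (sv x (b i) - q') ≤
      ((cells3 x R B m).card : ℝ) * ((pats G k).card : ℝ) * (2 * k + 12) := by
  classical
  let Z' := Z.filter (fun i => sv x (a i) - q ∈ Q1 x R B m ∧ sv x (b i) - q' ∈ Q1 x R B m)
  have h1 : ∑ i ∈ Z, ind (Q1 x R B m) (sv x (a i) - q) * ind (Q1 x R B m) (sv x (b i) - q') =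
      (Z'.card : ℝ) := by
    rw [Finset.card_filter]
    push_cast
    apply Finset.sum_congr rfl
    intro i _
    by_cases ha : sv x (a i) - q ∈ Q1 x R B m
    · by_cases hb : sv x (b i) - q' ∈ Q1 x R B m
      · rw [ind_of_mem ha, ind_of_mem hb, if_pos ⟨ha, hb⟩]; norm_num
      · rw [ind_of_not_mem hb, if_neg (fun h => hb h.2)]; norm_num
    · rw [ind_of_not_mem ha, if_neg (fun h => ha h.1)]; norm_num
  rw [h1]
  let Φ : ℤ × Pat × ℤ → ℤ := fun w => ⌊R * (q + q' + pv x w.2.1)⌋ + w.1 + w.2.2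
  let D := cells3 x R B m ×ˢ pats G k ×ˢ Finset.Icc (-(k : ℤ) - 1) ((k : ℤ) + 10)
  have h2 : Z'.image (fun i => cell R (z i)) ⊆ D.image Φ := by
    intro c hc
    obtain ⟨i, hi, rfl⟩ := Finset.mem_image.1 hc
    obtain ⟨hiZ, ⟨y, hy, hyQ⟩, ⟨y', hy', hyQ'⟩⟩ := Finset.mem_filter.1 hi
    obtain ⟨hd, hcard⟩ := hP i hiZ
    have hzi := hz i hiZ
    set p := P i with hp
    -- the three parts of the pattern
    have hpB : ((p.1 ∩ B, p.2 ∩ B) : Pat) ∈ pats B m := by
      rw [mem_pats]
      refine ⟨Finset.inter_subset_right, Finset.inter_subset_right,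
        hd.mono Finset.inter_subset_left Finset.inter_subset_left, ?_⟩
      refine le_trans (add_le_add (Finset.card_le_card Finset.inter_subset_left)
        (Finset.card_le_card Finset.inter_subset_left)) ?_
      omega
    have hpG : (((p.1 \ B) ∩ G, (p.2 \ B) ∩ G) : Pat) ∈ pats G k := by
      rw [mem_pats]
      have s1 : (p.1 \ B) ∩ G ⊆ p.1 := Finset.inter_subset_left.trans Finset.sdiff_subset
      have s2 : (p.2 \ B) ∩ G ⊆ p.2 := Finset.inter_subset_left.trans Finset.sdiff_subset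
      refine ⟨Finset.inter_subset_right, Finset.inter_subset_right, hd.mono s1 s2, ?_⟩
      exact le_trans (add_le_add (Finset.card_le_card s1) (Finset.card_le_card s2)) hcard
    have hrest : |pv x ((p.1 \ B) \ G, (p.2 \ B) \ G)| ≤ (k : ℝ) * (1 / R) := by
      refine le_trans (abs_pv_le x _ (1 / R) ?_ ?_) ?_
      · intro j hj
        simp only [mem_sdiff] at hj
        exact hsmall j hj.1.2 hj.2
      · intro j hj
        simp only [mem_sdiff] at hj
        exact hsmall j hj.1.2 hj.2
      · apply mul_le_mul_of_nonneg_right _ (by positivity)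
        have s1 : (p.1 \ B) \ G ⊆ p.1 := Finset.sdiff_subset.trans Finset.sdiff_subset
        have s2 : (p.2 \ B) \ G ⊆ p.2 := Finset.sdiff_subset.trans Finset.sdiff_subset
        exact_mod_cast le_trans (add_le_add (Finset.card_le_card s1) (Finset.card_le_card s2)) hcard
    -- the cell of the middle part
    set e : ℤ := cell R (pv x (y.2, y.1) + pv x (y'.2, y'.1) + pv x (p.1 ∩ B, p.2 ∩ B)) with he
    have heC : e ∈ cells3 x R B m := by
      unfold cells3
      rw [Finset.mem_image]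
      exact ⟨((y.2, y.1), (y'.2, y'.1), (p.1 ∩ B, p.2 ∩ B)),
        Finset.mem_product.2 ⟨pats_swap hy, Finset.mem_product.2 ⟨pats_swap hy', hpB⟩⟩, rfl⟩
    set g : ℤ := ⌊R * (q + q' + pv x ((p.1 \ B) ∩ G, (p.2 \ B) ∩ G))⌋ with hg
    have hfl1 := Int.floor_le (R * (q + q' + pv x ((p.1 \ B) ∩ G, (p.2 \ B) ∩ G)))
    have hfl2 := Int.lt_floor_add_one (R * (q + q' + pv x ((p.1 \ B) ∩ G, (p.2 \ B) ∩ G)))
    have hfe1 : (e : ℝ) ≤ R * (pv x (y.2, y.1) + pv x (y'.2, y'.1) + pv x (p.1 ∩ B, p.2 ∩ B)) :=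
      Int.floor_le _
    have hfe2 : R * (pv x (y.2, y.1) + pv x (y'.2, y'.1) + pv x (p.1 ∩ B, p.2 ∩ B)) < (e : ℝ) + 1 :=
      Int.lt_floor_add_one _
    rw [← hg] at hfl1 hfl2
    rw [pv_swap, pv_swap] at hfe1 hfe2
    obtain ⟨u1, u2⟩ := hyQ
    obtain ⟨w1, w2⟩ := hyQ'
    have hsplit := pv_split x B G p
    -- scale everything by R
    have U1 : 0 ≤ R * (sv x (a i) - q + pv x y) := mul_nonneg hR.le u1
    have U2 : R * (sv x (a i) - q + pv x y) ≤ 4 := by
      have := mul_le_mul_of_nonneg_left u2 hR.le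
      rwa [mul_div_cancel₀ _ hR.ne'] at this
    have W1 : 0 ≤ R * (sv x (b i) - q' + pv x y') := mul_nonneg hR.le w1
    have W2 : R * (sv x (b i) - q' + pv x y') ≤ 4 := by
      have := mul_le_mul_of_nonneg_left w2 hR.le
      rwa [mul_div_cancel₀ _ hR.ne'] at this
    have V1 : |R * pv x ((p.1 \ B) \ G, (p.2 \ B) \ G)| ≤ k := by
      rw [abs_mul, abs_of_pos hR]
      have := mul_le_mul_of_nonneg_left hrest hR.le
      have e2 : R * ((k : ℝ) * (1 / R)) = k := by field_simp
      rwa [e2] at this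
    have T1 : |R * (z i - (sv x (a i) + sv x (b i) + pv x p))| ≤ 1 := by
      rw [abs_mul, abs_of_pos hR]
      have := mul_le_mul_of_nonneg_left hzi hR.le
      have e2 : R * (1 / R) = 1 := by field_simp
      rwa [e2] at this
    rw [abs_le] at V1 T1
    have hRz : R * z i = R * (z i - (sv x (a i) + sv x (b i) + pv x p)) +
        R * (sv x (a i) - q + pv x y) + R * (sv x (b i) - q' + pv x y') +
        R * (-pv x y + -pv x y' + pv x (p.1 ∩ B, p.2 ∩ B)) +
        R * (q + q' + pv x ((p.1 \ B) ∩ G, (p.2 \ B) ∩ G)) +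
        R * pv x ((p.1 \ B) \ G, (p.2 \ B) \ G) := by
      rw [hsplit]; ring
    have lo : ((g + e + (-(k : ℤ) - 1) : ℤ) : ℝ) ≤ R * z i := by
      push_cast
      rw [hRz]
      linarith [V1.1, T1.1]
    have hi' : R * z i < ((g + e + ((k : ℤ) + 11) : ℤ) : ℝ) := by
      push_cast
      rw [hRz]
      linarith [V1.2, T1.2]
    have c1 : g + e + (-(k : ℤ) - 1) ≤ cell R (z i) := Int.le_floor.2 lo
    have c2 : cell R (z i) < g + e + ((k : ℤ) + 11) := Int.floor_lt.2 hi'
    rw [Finset.mem_image]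
    refine ⟨(e, ((p.1 \ B) ∩ G, (p.2 \ B) ∩ G), cell R (z i) - g - e), ?_, ?_⟩
    · rw [Finset.mem_product, Finset.mem_product, Finset.mem_Icc]
      exact ⟨heC, hpG, by simp only; omega, by simp only; omega⟩
    · simp only [Φ]
      rw [← hg]; ring
  have h3 : Z'.card ≤ (cells3 x R B m).card * ((pats G k).card * (2 * k + 12)) := by
    calc Z'.card = (Z'.image (fun i => cell R (z i))).card := by
          symm
          apply Finset.card_image_of_injOn
          intro i hi i' hi' heq
          exact hinj i (Finset.mem_filter.1 (Finset.mem_coe.1 hi)).1 i'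
            (Finset.mem_filter.1 (Finset.mem_coe.1 hi')).1 heq
      _ ≤ (D.image Φ).card := Finset.card_le_card h2
      _ ≤ D.card := Finset.card_image_le
      _ = (cells3 x R B m).card * ((pats G k).card *
            (Finset.Icc (-(k : ℤ) - 1) ((k : ℤ) + 10)).card) := by
          rw [Finset.card_product, Finset.card_product]
      _ = (cells3 x R B m).card * ((pats G k).card * (2 * k + 12)) := by
          rw [Int.card_Icc]
          congr 2
          have : ((k : ℤ) + 10 + 1 - (-(k : ℤ) - 1)) = ((2 * k + 12 : ℕ) : ℤ) := by push_cast; ring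
          rw [this, Int.toNat_natCast]
  calc (Z'.card : ℝ) ≤ (((cells3 x R B m).card * ((pats G k).card * (2 * k + 12)) : ℕ) : ℝ) := by
        exact_mod_cast h3
    _ = _ := by push_cast; ring

end Pool.Agent.HDSum
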