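import Mathlib

/-!
Definitions for the bound `dim_H (E+E) ≤ 2 dim_H E` for achievement sets.
-/

open Finset

namespace Pool.Agent.HDSum

/-- patterns: (plus items, minus items) -/
abbrev Pat := Finset ℕ × Finset ℕ

/-- value of a finite digit set -/
noncomputable def sv (x : ℕ → ℝ) (a : Finset ℕ) : ℝ := ∑ i ∈ a, x i

/-- value of a pattern: plus items minus minus items -/
noncomputable def pv (x : ℕ → ℝ) (p : Pat) : ℝ := sv x p.1 - sv x p.2

/-- index of the cell of width `1/R` containing `t` -/
noncomputable def cell (R : ℝ) (t : ℝ) : ℤ := ⌊R * t⌋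

/-- patterns with disjoint parts inside `B`, of total size at most `m` -/
def pats (B : Finset ℕ) (m : ℕ) : Finset Pat :=
  (B.powerset ×ˢ B.powerset).filter (fun p => Disjoint p.1 p.2 ∧ p.1.card + p.2.card ≤ m)

/-- cells hit by values of patterns -/
noncomputable def cells1 (x : ℕ → ℝ) (R : ℝ) (B : Finset ℕ) (m : ℕ) : Finset ℤ :=
  (pats B m).image (fun p => cell R (pv x p))

/-- cells hit by sums of three values of patterns -/
noncomputable def cells3 (x : ℕ → ℝ) (R : ℝ) (B : Finset ℕ) (m : ℕ) : Finset ℤ :=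
  (pats B m ×ˢ pats B m ×ˢ pats B m).image
    (fun p => cell R (pv x p.1 + pv x p.2.1 + pv x p.2.2))

end Pool.Agent.HDSum
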