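import Pool.Agent.HDSum.Level

open Finset

namespace Pool.Agent.HDSum

lemma LD.step_size {x : ℕ → ℝ} {ψ S : ℝ} (d : LD x ψ S) (l : ℕ) (hl : d.jg ≤ l) (y : Pat)
    (hy : y ∈ d.Y l) (a : Finset ℕ) :
    |sv x (d.κ l a y) - sv x a| ≤ (d.C : ℝ) * (l : ℝ) * βl ψ l := by
  obtain ⟨y', hy', he⟩ := overw_incr x (d.κ l) (d.hκ l) (d.B l) (d.m l) y (d.hYp l hy) a
  rw [he]
  obtain ⟨h1, h2, _, hc⟩ := mem_pats.1 hy'
  have := abs_pv_le x y' (βl ψ l) (fun i hi => d.hB l i (h1 hi)) (fun i hi => d.hB l i (h2 hi))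
  have e : sv x a + pv x y' - sv x a = pv x y' := by ring
  rw [e]
  refine this.trans ?_
  apply mul_le_mul_of_nonneg_right _ (βl_pos ψ l).le
  have := (d.hm l hl).2.1
  exact_mod_cast hc.trans this

/-- the averaged event at a level satisfies the dual bound -/
theorem dual_level {x : ℕ → ℝ} {ψ S : ℝ} (d : LD x ψ S) (j0 j J : ℕ) (hj0 : d.jg ≤ j0)
    (h1 : j0 ≤ j) (h2 : j ≤ J)
    (htail : ∀ n : ℕ, ∑ i ∈ range n, (d.C : ℝ) * ((j ^ 2 + 1 + i : ℕ) : ℝ) * βl ψ (j ^ 2 + 1 + i) ≤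
      1 / Rl j)
    (U : Finset (ℝ × ℝ)) (hU : ∀ u ∈ U, u.2 ≤ 1 / Rl j) :
    DualS x (Q1 x (Rl j) (d.B j) (d.m j))
      ((U.card : ℝ) * (5 * Real.sqrt (8 * (d.Y j).card) / (d.Y j).card) *
        2 ^ ((j ^ 2 + 1) * (d.C * j ^ 2 + 1)))
      (noise d.Y d.κ j0 (J + 1 - j0) (fun a => ∑ u ∈ U, ev x u.1 u.2 a)) := by
  classical
  have hRj := Rl_pos j
  obtain ⟨n1, hn1⟩ : ∃ n1, j = j0 + n1 := ⟨j - j0, by omega⟩
  have hjsq : j ≤ j ^ 2 := by nlinarith [Nat.zero_le j]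
  obtain ⟨n2, n3, hn, hn2, hn3⟩ : ∃ n2 n3 : ℕ, J + 1 - j0 = n1 + (1 + (n2 + n3)) ∧
      j + n2 ≤ j ^ 2 ∧ (n3 = 0 ∨ j + 1 + n2 = j ^ 2 + 1) := by
    by_cases hJ : J ≤ j ^ 2
    · exact ⟨J - j, 0, by omega, by omega, Or.inl rfl⟩
    · exact ⟨j ^ 2 - j, J - j ^ 2, by omega, by omega, Or.inr (by omega)⟩
  -- phase 3
  have hf3 : ∀ a, noise d.Y d.κ (j + 1 + n2) n3 (fun a => ∑ u ∈ U, ev x u.1 u.2 a) a ≤
      ∑ u ∈ U, ind (Q0 (Rl j)) (sv x a - (u.1 - 2 / Rl j)) := by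
    intro a
    rw [noise_sum]
    apply Finset.sum_le_sum
    intro u hu
    have ht := noise_tiny d.Y d.κ x (fun l => (d.C : ℝ) * (l : ℝ) * βl ψ l) u.1 u.2 n3
      (j + 1 + n2) (fun l' hl1 hl2 y hy a => d.step_size l' (by omega) y hy a) a
    refine ht.trans ?_
    have hT : ∑ i ∈ range n3, (d.C : ℝ) * ((j + 1 + n2 + i : ℕ) : ℝ) * βl ψ (j + 1 + n2 + i) ≤
        1 / Rl j := by
      rcases hn3 with h | h
      · rw [h]; simp; exact hRj.le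
      · rw [h]; exact htail n3
    have hu2 := hU u hu
    unfold ev
    split_ifs with hcase
    · rw [ind_of_mem]
      rw [abs_le] at hcase
      have e : 4 / Rl j = 4 * (1 / Rl j) := by ring
      have e2 : 2 / Rl j = 2 * (1 / Rl j) := by ring
      constructor
      · rw [e2]; linarith [hcase.1]
      · rw [e2, e]; linarith [hcase.2]
    · exact ind_nonneg _ _
  have hd3 := DualS.base (x := x) (Q := Q0 (Rl j)) U (fun u => u.1 - 2 / Rl j) hf3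
  -- phase 2
  have hgood : ∀ l', d.jg ≤ l' → (d.Y l').Nonempty ∧ Overw (d.κ l') ∧
      ∀ y ∈ d.Y l', y.1.card + y.2.card ≤ d.m l' := by
    intro l' _
    exact ⟨d.hYne l', d.hκ l', fun y hy => (mem_pats.1 (d.hYp l' hy)).2.2.2⟩
  have hd2 := DualS.generic d.Y d.κ d.m hd3 n2 (j + 1) (fun l' hl1 _ => hgood l' (by omega))
  -- level j
  have hd1 := DualS.special hRj hd2 (d.Y j) (d.hYne j) (d.B j) (d.m j) (d.hYp j) (d.κ j) (d.hκ j)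
    (fun a q => d.hcell j a q)
  -- phase 1
  have hd0 := DualS.generic d.Y d.κ d.m hd1 n1 j0 (fun l' hl1 _ => hgood l' (by omega))
  have hfun : noise d.Y d.κ j0 (J + 1 - j0) (fun a => ∑ u ∈ U, ev x u.1 u.2 a) =
      noise d.Y d.κ j0 n1 (fun a => (∑ y ∈ d.Y j, noise d.Y d.κ (j + 1) n2
        (noise d.Y d.κ (j + 1 + n2) n3 (fun a => ∑ u ∈ U, ev x u.1 u.2 a)) (d.κ j a y)) /
          ((d.Y j).card : ℝ)) := by
    rw [hn, noise_add, ← hn1]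
    congr 1
    funext a
    rw [add_comm 1 (n2 + n3), noise_succ, noise_add]
  rw [hfun]
  refine DualS.mono hd0 ?_ (fun a => le_rfl)
  -- exponents
  have hexp : ∑ i ∈ range n2, (d.m (j + 1 + i) + 1) + ∑ i ∈ range n1, (d.m (j0 + i) + 1) ≤
      (j ^ 2 + 1) * (d.C * j ^ 2 + 1) := by
    have e1 : ∑ i ∈ range n2, (d.m (j + 1 + i) + 1) ≤ n2 * (d.C * j ^ 2 + 1) := by
      calc _ ≤ ∑ i ∈ range n2, (d.C * j ^ 2 + 1) := by
            apply Finset.sum_le_sum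
            intro i hi
            rw [Finset.mem_range] at hi
            have := (d.hm (j + 1 + i) (by omega)).2.1
            have h3 : d.C * (j + 1 + i) ≤ d.C * j ^ 2 := Nat.mul_le_mul_left _ (by omega)
            omega
        _ = n2 * (d.C * j ^ 2 + 1) := by simp
    have e2 : ∑ i ∈ range n1, (d.m (j0 + i) + 1) ≤ n1 * (d.C * j ^ 2 + 1) := by
      calc _ ≤ ∑ i ∈ range n1, (d.C * j ^ 2 + 1) := by
            apply Finset.sum_le_sum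
            intro i hi
            rw [Finset.mem_range] at hi
            have := (d.hm (j0 + i) (by omega)).2.1
            have h3 : d.C * (j0 + i) ≤ d.C * j ^ 2 := Nat.mul_le_mul_left _ (by omega)
            omega
        _ = n1 * (d.C * j ^ 2 + 1) := by simp
    calc _ ≤ n2 * (d.C * j ^ 2 + 1) + n1 * (d.C * j ^ 2 + 1) := add_le_add e1 e2
      _ = (n2 + n1) * (d.C * j ^ 2 + 1) := by ring
      _ ≤ (j ^ 2 + 1) * (d.C * j ^ 2 + 1) := Nat.mul_le_mul_right _ (by omega)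
  have hpow : (2 : ℝ) ^ (∑ i ∈ range n2, (d.m (j + 1 + i) + 1)) *
      2 ^ (∑ i ∈ range n1, (d.m (j0 + i) + 1)) ≤ 2 ^ ((j ^ 2 + 1) * (d.C * j ^ 2 + 1)) := by
    rw [← pow_add]
    exact pow_le_pow_right₀ (by norm_num) hexp
  calc _ = ((U.card : ℝ) * (5 * Real.sqrt (8 * (d.Y j).card) / (d.Y j).card)) *
        ((2 : ℝ) ^ (∑ i ∈ range n2, (d.m (j + 1 + i) + 1)) *
      2 ^ (∑ i ∈ range n1, (d.m (j0 + i) + 1))) := by ring
    _ ≤ _ := mul_le_mul_of_nonneg_left hpow (by positivity)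

theorem count_level {x : ℕ → ℝ} {ψ S : ℝ} (hS : 0 ≤ S) (d : LD x ψ S) (j0 j J : ℕ)
    (hj0 : d.jg ≤ j0) (h1 : j0 ≤ j) (h2 : j ≤ J)
    (htail : ∀ n : ℕ, ∑ i ∈ range n, (d.C : ℝ) * ((j ^ 2 + 1 + i : ℕ) : ℝ) * βl ψ (j ^ 2 + 1 + i) ≤
      1 / Rl j)
    (U : Finset (ℝ × ℝ)) (hU : ∀ u ∈ U, u.2 ≤ 1 / Rl j) (Z : Finset ℤ)
    (hZ : ∀ g ∈ Z, ∃ (z : ℝ) (a b : Finset ℕ) (P : Pat), cell (Rl j) z = g ∧
      Disjoint P.1 P.2 ∧ P.1.card + P.2.card ≤ 2 * j ∧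
      |z - (sv x a + sv x b + pv x P)| ≤ 1 / Rl j ∧
      (1 / 2 : ℝ) ^ j ≤ noise d.Y d.κ j0 (J + 1 - j0) (fun a => ∑ u ∈ U, ev x u.1 u.2 a) a ∧
      (1 / 2 : ℝ) ^ j ≤ noise d.Y d.κ j0 (J + 1 - j0) (fun a => ∑ u ∈ U, ev x u.1 u.2 a) b) :
    (Z.card : ℝ) ≤ (4 : ℝ) ^ j * (U.card : ℝ) ^ 2 * 200 *
        (4 : ℝ) ^ ((j ^ 2 + 1) * (d.C * j ^ 2 + 1)) * (2 : ℝ) ^ (4 * ψ * (j : ℝ) ^ 5) *
        ((2 * S + 1) ^ (2 * j) * (2 : ℝ) ^ (ψ * (j : ℝ) ^ 5)) * (4 * j + 12) := by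
  classical
  have hRj := Rl_pos j
  have hd := dual_level d j0 j J hj0 h1 h2 htail U hU
  have hch : ∀ g : ℤ, ∃ (z : ℝ) (a b : Finset ℕ) (P : Pat), g ∈ Z → cell (Rl j) z = g ∧
      Disjoint P.1 P.2 ∧ P.1.card + P.2.card ≤ 2 * j ∧
      |z - (sv x a + sv x b + pv x P)| ≤ 1 / Rl j ∧
      (1 / 2 : ℝ) ^ j ≤ noise d.Y d.κ j0 (J + 1 - j0) (fun a => ∑ u ∈ U, ev x u.1 u.2 a) a ∧
      (1 / 2 : ℝ) ^ j ≤ noise d.Y d.κ j0 (J + 1 - j0) (fun a => ∑ u ∈ U, ev x u.1 u.2 a) b := by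
    intro g
    by_cases hg : g ∈ Z
    · obtain ⟨z, a, b, P, h⟩ := hZ g hg
      exact ⟨z, a, b, P, fun _ => h⟩
    · exact ⟨0, ∅, ∅, (∅, ∅), fun h => absurd h hg⟩
  choose z a b P hzabP using hch
  have hm := d.hm j (by omega)
  set K : ℝ := ((cells3 x (Rl j) (d.B j) (d.m j)).card : ℝ) * ((pats (d.G j) (2 * j)).card : ℝ) *
    (2 * ((2 * j : ℕ) : ℝ) + 12) with hK
  have hcount := fun q q' => count_lemma x (Rl j) hRj (d.B j) (d.G j) (2 * j) (d.m j) hm.1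
    (d.hsmall j) Z z (fun i hi i' hi' he => by
      rw [(hzabP i hi).1, (hzabP i' hi').1] at he; exact he) a b P
    (fun i hi => ⟨(hzabP i hi).2.1, (hzabP i hi).2.2.1⟩) (fun i hi => (hzabP i hi).2.2.2.1) q q'
  have hpair := DualS.pair hd (noise_nonneg _ _ (fun a => Finset.sum_nonneg fun u _ =>
      ev_nonneg x u.1 u.2 a) _ _) Z a b ((1 / 2 : ℝ) ^ j) (by positivity)
      (fun g hg => (hzabP g hg).2.2.2.2.1) (fun g hg => (hzabP g hg).2.2.2.2.2) K hcount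
  -- simplify
  have hYpos : (0 : ℝ) < (d.Y j).card := by exact_mod_cast (d.hYne j).card_pos
  have hW2 : ((U.card : ℝ) * (5 * Real.sqrt (8 * (d.Y j).card) / (d.Y j).card) *
        2 ^ ((j ^ 2 + 1) * (d.C * j ^ 2 + 1))) ^ 2 =
      (U.card : ℝ) ^ 2 * 200 / (d.Y j).card * 4 ^ ((j ^ 2 + 1) * (d.C * j ^ 2 + 1)) := by
    have hsq : Real.sqrt (8 * (d.Y j).card) ^ 2 = 8 * (d.Y j).card := Real.sq_sqrt (by positivity)
    have h4 : ((2 : ℝ) ^ ((j ^ 2 + 1) * (d.C * j ^ 2 + 1))) ^ 2 =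
        4 ^ ((j ^ 2 + 1) * (d.C * j ^ 2 + 1)) := by
      rw [← pow_mul, mul_comm _ 2, pow_mul]; norm_num
    rw [mul_pow, mul_pow, div_pow, mul_pow, hsq, h4]
    field_simp
    ring
  rw [hW2] at hpair
  -- bound K
  have hG : ((pats (d.G j) (2 * j)).card : ℝ) ≤
      (2 * S + 1) ^ (2 * j) * (2 : ℝ) ^ (ψ * (j : ℝ) ^ 5) := by
    have e1 : ((pats (d.G j) (2 * j)).card : ℝ) ≤ (((2 * (d.G j).card + 1 : ℕ)) : ℝ) ^ (2 * j) := by
      exact_mod_cast card_pats_le (d.G j) (2 * j)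
    have e2 : (((2 * (d.G j).card + 1 : ℕ)) : ℝ) ^ (2 * j) ≤ ((2 * S + 1) / βl ψ j) ^ (2 * j) :=
      pow_le_pow_left₀ (Nat.cast_nonneg _) (d.hG j) _
    refine e1.trans (e2.trans (le_of_eq ?_))
    rw [div_pow, div_eq_mul_inv]
    congr 1
    unfold βl
    rw [← Real.rpow_natCast, ← Real.rpow_mul (by norm_num), ← Real.rpow_neg (by norm_num)]
    congr 1
    push_cast
    ring
  have hKle : K ≤ ((2 : ℝ) ^ (4 * ψ * (j : ℝ) ^ 5) * ((d.Y j).card : ℝ)) *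
      ((2 * S + 1) ^ (2 * j) * (2 : ℝ) ^ (ψ * (j : ℝ) ^ 5)) * (4 * j + 12) := by
    rw [hK]
    have e3 : (2 * ((2 * j : ℕ) : ℝ) + 12) = 4 * j + 12 := by push_cast; ring
    rw [e3]
    apply mul_le_mul_of_nonneg_right _ (by positivity)
    exact mul_le_mul hm.2.2 hG (Nat.cast_nonneg _) (by positivity)
  have hη : ((1 / 2 : ℝ) ^ j) ^ 2 = 1 / 4 ^ j := by
    rw [← pow_mul, mul_comm j 2, pow_mul, ← one_div_pow]; norm_num
  rw [hη] at hpair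
  have h4j : (0 : ℝ) < 4 ^ j := by positivity
  have hfin : (Z.card : ℝ) ≤ 4 ^ j * ((U.card : ℝ) ^ 2 * 200 / (d.Y j).card *
      4 ^ ((j ^ 2 + 1) * (d.C * j ^ 2 + 1)) * K) := by
    have := mul_le_mul_of_nonneg_left hpair h4j.le
    calc (Z.card : ℝ) = 4 ^ j * ((Z.card : ℝ) * (1 / 4 ^ j)) := by field_simp
      _ ≤ _ := this
  refine hfin.trans ?_
  calc _ ≤ 4 ^ j * ((U.card : ℝ) ^ 2 * 200 / (d.Y j).card *
      4 ^ ((j ^ 2 + 1) * (d.C * j ^ 2 + 1)) * (((2 : ℝ) ^ (4 * ψ * (j : ℝ) ^ 5) *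
      ((d.Y j).card : ℝ)) *
      ((2 * S + 1) ^ (2 * j) * (2 : ℝ) ^ (ψ * (j : ℝ) ^ 5)) * (4 * j + 12))) := by
        apply mul_le_mul_of_nonneg_left _ h4j.le
        exact mul_le_mul_of_nonneg_left hKle (by positivity)
    _ = _ := by field_simp

end Pool.Agent.HDSum
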