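import Pool.Agent.HDSum.Defs

open Finset

namespace Pool.Agent.HDSum.Gr


lemma growth_pats_mono (B : Finset ℕ) {m m' : ℕ} (h : m ≤ m') : pats B m ⊆ pats B m' := by
  intro p hp
  rw [pats, mem_filter] at hp ⊢
  exact ⟨hp.1, hp.2.1, hp.2.2.trans h⟩

lemma growth_cells_mono (x : ℕ → ℝ) (R : ℝ) (B : Finset ℕ) {m m' : ℕ} (h : m ≤ m') :
    (cells1 x R B m).card ≤ (cells1 x R B m').card :=
  card_le_card (image_subset_image (growth_pats_mono B h))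

lemma growth_cells_pos (x : ℕ → ℝ) (R : ℝ) (B : Finset ℕ) (m : ℕ) :
    1 ≤ (cells1 x R B m).card := by
  rw [Nat.one_le_iff_ne_zero, ← Nat.pos_iff_ne_zero, card_pos]
  refine ⟨cell R (pv x (∅, ∅)), mem_image.2 ⟨(∅, ∅), ?_, rfl⟩⟩
  rw [pats, mem_filter]
  simp

lemma growth_pv_le (x : ℕ → ℝ) (B : Finset ℕ) (hx : ∀ i ∈ B, |x i| ≤ 1) {m : ℕ} {p : Pat}
    (hp : p ∈ pats B m) : |pv x p| ≤ m := by
  rw [pats, mem_filter, mem_product, mem_powerset, mem_powerset] at hp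
  obtain ⟨⟨h1, h2⟩, -, h3⟩ := hp
  have key : ∀ a : Finset ℕ, a ⊆ B → |sv x a| ≤ a.card := by
    intro a ha
    unfold sv
    calc |∑ i ∈ a, x i| ≤ ∑ i ∈ a, |x i| := abs_sum_le_sum_abs _ _
      _ ≤ ∑ i ∈ a, (1:ℝ) := sum_le_sum (fun i hi => hx i (ha hi))
      _ = a.card := by simp
  have k1 := key _ h1
  have k2 := key _ h2
  have h3' : (p.1.card : ℝ) + p.2.card ≤ m := by exact_mod_cast h3
  unfold pv
  calc |sv x p.1 - sv x p.2| ≤ |sv x p.1| + |sv x p.2| := abs_sub _ _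
    _ ≤ m := by linarith

lemma growth_cells_le (x : ℕ → ℝ) (B : Finset ℕ) (hx : ∀ i ∈ B, |x i| ≤ 1) (m K : ℕ) :
    (cells1 x (K : ℝ) B m).card ≤ 2 * m * K + 1 := by
  have hsub : cells1 x (K : ℝ) B m ⊆ Finset.Icc (-((m * K : ℕ) : ℤ)) ((m * K : ℕ) : ℤ) := by
    intro c hc
    obtain ⟨p, hp, rfl⟩ := mem_image.1 hc
    have h1 := growth_pv_le x B hx hp
    rw [abs_le] at h1
    have hK : (0:ℝ) ≤ K := Nat.cast_nonneg K
    rw [mem_Icc]
    constructor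
    · rw [cell, Int.le_floor]
      push_cast
      nlinarith
    · have h2 : (K:ℝ) * pv x p ≤ ((m * K : ℕ) : ℤ) := by
        push_cast
        nlinarith
      have h3 := Int.floor_le ((K:ℝ) * pv x p)
      have h4 : ((⌊(K:ℝ) * pv x p⌋ : ℤ) : ℝ) ≤ (((m * K : ℕ) : ℤ) : ℝ) := h3.trans h2
      exact_mod_cast h4
  calc (cells1 x (K : ℝ) B m).card ≤ (Finset.Icc (-((m * K : ℕ) : ℤ)) ((m * K : ℕ) : ℤ)).card :=
        card_le_card hsub
    _ = 2 * m * K + 1 := by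
        rw [Int.card_Icc]
        push_cast
        have : ((m:ℤ) * K + 1 - -((m:ℤ) * K)) = ((2 * m * K + 1 : ℕ) : ℤ) := by push_cast; ring
        rw [this, Int.toNat_natCast]

theorem growth
    (ruzsa : ∀ (x : ℕ → ℝ) (R : ℝ) (B : Finset ℕ) (m : ℕ),
      (cells3 x R B m).card * (cells1 x R B m).card ^ 2 ≤
        64 * 3 ^ (7 * m) * ((cells1 x R B (3 * m)).card * (cells1 x R B (2 * m)).card ^ 2))
    (ψ : ℝ) (hψ : 0 < ψ) :
    ∃ C : ℕ, ∃ j0 : ℕ, ∀ j : ℕ, j0 ≤ j → ∀ (x : ℕ → ℝ) (B : Finset ℕ), (∀ i ∈ B, |x i| ≤ 1) →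
      ∃ m : ℕ, 2 * j ≤ m ∧ m ≤ C * j ∧
        ((cells3 x (2 ^ (j ^ 5)) B m).card : ℝ) ≤
          (2 : ℝ) ^ (4 * ψ * (j : ℝ) ^ 5) * ((cells1 x (2 ^ (j ^ 5)) B m).card : ℝ) := by
  set I : ℕ := ⌈2 / ψ⌉₊ + 1 with hI
  set C : ℕ := 2 * 3 ^ I with hC
  set j0 : ℕ := max (2 * C + 1) (⌈(6 + 14 * C) / ψ⌉₊ + 1) with hj0
  refine ⟨C, j0, ?_⟩
  intro j hj x B hx
  have hj1 : 2 * C + 1 ≤ j := le_trans (le_max_left _ _) hj
  have hj2 : ⌈(6 + 14 * (C:ℝ)) / ψ⌉₊ + 1 ≤ j := le_trans (le_max_right _ _) hj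
  have hjpos : 1 ≤ j := by omega
  have hjR : (1:ℝ) ≤ j := by exact_mod_cast hjpos
  -- ψ I ≥ 2 + ψ
  have hψI : 2 + ψ ≤ ψ * I := by
    have h1 : 2 / ψ ≤ (⌈2 / ψ⌉₊ : ℝ) := Nat.le_ceil _
    rw [div_le_iff₀ hψ] at h1
    rw [hI]
    push_cast
    nlinarith
  have hlarge : (6 + 14 * (C:ℝ)) * j ≤ ψ * (j:ℝ) ^ 5 := by
    have h1 : (6 + 14 * (C:ℝ)) / ψ ≤ (⌈(6 + 14 * (C:ℝ)) / ψ⌉₊ : ℝ) := Nat.le_ceil _
    have h2 : ((⌈(6 + 14 * (C:ℝ)) / ψ⌉₊ : ℕ) : ℝ) + 1 ≤ j := by exact_mod_cast hj2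
    have h3 : (6 + 14 * (C:ℝ)) / ψ ≤ j := by linarith
    rw [div_le_iff₀ hψ] at h3
    have h4 : (j:ℝ) ≤ (j:ℝ) ^ 4 := by
      calc (j:ℝ) = (j:ℝ) ^ 1 := (pow_one _).symm
        _ ≤ (j:ℝ) ^ 4 := pow_le_pow_right₀ hjR (by norm_num)
    calc (6 + 14 * (C:ℝ)) * j ≤ (j * ψ) * j := by gcongr
      _ = ψ * (j * j) := by ring
      _ ≤ ψ * ((j:ℝ) ^ 4 * j) := by gcongr
      _ = ψ * (j:ℝ) ^ 5 := by ring
  set K : ℕ := 2 ^ (j ^ 5) with hK
  have hKR : ((2:ℝ) ^ (j ^ 5)) = (K : ℝ) := by rw [hK]; push_cast; rfl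
  rw [hKR]
  set N : ℕ → ℕ := fun m => (cells1 x (K:ℝ) B m).card with hN
  have hN1 : ∀ m, 1 ≤ N m := fun m => growth_cells_pos x K B m
  have hNmono : ∀ {m m' : ℕ}, m ≤ m' → N m ≤ N m' := fun h => growth_cells_mono x K B h
  have hNle : ∀ m, N m ≤ 2 * m * K + 1 := fun m => growth_cells_le x B hx m K
  set q : ℝ := (2:ℝ) ^ (ψ * (j:ℝ) ^ 5) with hq
  have hq0 : 0 < q := Real.rpow_pos_of_pos (by norm_num) _
  -- pigeonhole
  obtain ⟨i, hi, hiN⟩ : ∃ i < I, (N (3 * (2 * j * 3 ^ i)) : ℝ) ≤ q * N (2 * j * 3 ^ i) := by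
    by_contra hcon
    push Not at hcon
    have hind : ∀ i ≤ I, q ^ i ≤ (N (2 * j * 3 ^ i) : ℝ) := by
      intro i
      induction i with
      | zero =>
        intro _
        simp only [pow_zero, mul_one]
        exact_mod_cast hN1 (2 * j)
      | succ i ih =>
        intro hi
        have h1 := ih (by omega)
        have h2 := hcon i (by omega)
        have h3 : 3 * (2 * j * 3 ^ i) = 2 * j * 3 ^ (i + 1) := by rw [pow_succ]; ring
        rw [h3] at h2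
        calc q ^ (i + 1) = q * q ^ i := by ring
          _ ≤ q * N (2 * j * 3 ^ i) := by gcongr
          _ ≤ _ := h2.le
    have h1 := hind I le_rfl
    have h2 : N (2 * j * 3 ^ I) ≤ 2 * (2 * j * 3 ^ I) * K + 1 := hNle _
    have h3 : 2 * (2 * j * 3 ^ I) * K + 1 ≤ K * K := by
      have e1 : 2 * (2 * j * 3 ^ I) = 2 * C * j := by rw [hC]; ring
      rw [e1]
      have hKj : j * j < K := by
        calc j * j ≤ j ^ 5 := by
              calc j * j = j ^ 2 := by ring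
                _ ≤ j ^ 5 := Nat.pow_le_pow_right hjpos (by norm_num)
          _ < 2 ^ (j ^ 5) := Nat.lt_two_pow_self
      have hK1 : 1 ≤ K := Nat.one_le_two_pow
      calc 2 * C * j * K + 1 ≤ 2 * C * j * K + K := by omega
        _ = (2 * C * j + 1) * K := by ring
        _ ≤ (j * j) * K := by
            apply Nat.mul_le_mul_right
            calc 2 * C * j + 1 ≤ 2 * C * j + j := by omega
              _ = (2 * C + 1) * j := by ring
              _ ≤ j * j := Nat.mul_le_mul_right _ hj1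
        _ ≤ K * K := Nat.mul_le_mul_right _ hKj.le
    have h4 : (N (2 * j * 3 ^ I) : ℝ) ≤ (K:ℝ) * K := by exact_mod_cast h2.trans h3
    have h5 : (K:ℝ) * K = (2:ℝ) ^ (2 * (j:ℝ) ^ 5) := by
      rw [hK]
      push_cast
      rw [← pow_add, ← Real.rpow_natCast]
      congr 1
      push_cast
      ring
    have h6 : q ^ I = (2:ℝ) ^ (ψ * I * (j:ℝ) ^ 5) := by
      rw [hq, ← Real.rpow_natCast, ← Real.rpow_mul (by norm_num)]
      congr 1
      ring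
    have h7 : (2:ℝ) ^ (2 * (j:ℝ) ^ 5) < (2:ℝ) ^ (ψ * I * (j:ℝ) ^ 5) := by
      apply Real.rpow_lt_rpow_of_exponent_lt (by norm_num)
      have h8 : (0:ℝ) < (j:ℝ) ^ 5 := by positivity
      nlinarith
    rw [h5] at h4
    rw [h6] at h1
    linarith
  set m : ℕ := 2 * j * 3 ^ i with hm
  refine ⟨m, ?_, ?_, ?_⟩
  · calc 2 * j = 2 * j * 1 := by ring
      _ ≤ 2 * j * 3 ^ i := Nat.mul_le_mul_left _ (Nat.one_le_pow _ _ (by norm_num))
  · calc m ≤ 2 * j * 3 ^ I := Nat.mul_le_mul_left _ (Nat.pow_le_pow_right (by norm_num) hi.le)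
      _ = C * j := by rw [hC]; ring
  · have hmC : m ≤ C * j := by
      calc m ≤ 2 * j * 3 ^ I := Nat.mul_le_mul_left _ (Nat.pow_le_pow_right (by norm_num) hi.le)
        _ = C * j := by rw [hC]; ring
    have hr := ruzsa x (K:ℝ) B m
    have hr' : ((cells3 x (K:ℝ) B m).card : ℝ) * (N m : ℝ) ^ 2 ≤
        64 * 3 ^ (7 * m) * ((N (3 * m) : ℝ) * (N (2 * m) : ℝ) ^ 2) := by exact_mod_cast hr
    have hNm : (0:ℝ) < N m := by exact_mod_cast hN1 m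
    have h23 : (N (2 * m) : ℝ) ≤ N (3 * m) := by
      have : N (2 * m) ≤ N (3 * m) := hNmono (by omega)
      exact_mod_cast this
    have h64 : (64:ℝ) * 3 ^ (7 * m) ≤ q := by
      have e1 : (64:ℝ) * 3 ^ (7 * m) ≤ (2:ℝ) ^ ((6 + 14 * C) * j) := by
        have e2 : (3:ℝ) ^ (7 * m) ≤ (2:ℝ) ^ (14 * C * j) := by
          calc (3:ℝ) ^ (7 * m) ≤ (4:ℝ) ^ (7 * m) := by gcongr; norm_num
            _ = (2:ℝ) ^ (14 * m) := by
                rw [show (4:ℝ) = 2 ^ 2 by norm_num, ← pow_mul]; congr 1; ring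
            _ ≤ (2:ℝ) ^ (14 * C * j) := by
                apply pow_le_pow_right₀ (by norm_num)
                calc 14 * m ≤ 14 * (C * j) := Nat.mul_le_mul_left _ hmC
                  _ = _ := by ring
        have e3 : (64:ℝ) ≤ (2:ℝ) ^ (6 * j) := by
          calc (64:ℝ) = 2 ^ 6 := by norm_num
            _ ≤ (2:ℝ) ^ (6 * j) := pow_le_pow_right₀ (by norm_num) (by omega)
        calc (64:ℝ) * 3 ^ (7 * m) ≤ (2:ℝ) ^ (6 * j) * (2:ℝ) ^ (14 * C * j) := by gcongr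
          _ = _ := by rw [← pow_add]; congr 1; ring
      refine e1.trans ?_
      rw [hq, ← Real.rpow_natCast]
      apply Real.rpow_le_rpow_of_exponent_le (by norm_num)
      push_cast
      exact hlarge
    have hA : ((cells3 x (K:ℝ) B m).card : ℝ) * (N m : ℝ) ^ 2 ≤ (q ^ 4 * N m) * (N m : ℝ) ^ 2 := by
      calc ((cells3 x (K:ℝ) B m).card : ℝ) * (N m : ℝ) ^ 2
          ≤ 64 * 3 ^ (7 * m) * ((N (3 * m) : ℝ) * (N (2 * m) : ℝ) ^ 2) := hr'
        _ ≤ q * ((N (3 * m) : ℝ) * (N (3 * m) : ℝ) ^ 2) := by gcongr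
        _ ≤ q * ((q * N m) * (q * N m) ^ 2) := by gcongr
        _ = (q ^ 4 * N m) * (N m : ℝ) ^ 2 := by ring
    have hB := le_of_mul_le_mul_right hA (by positivity)
    have hq4 : q ^ 4 = (2:ℝ) ^ (4 * ψ * (j:ℝ) ^ 5) := by
      rw [hq, ← Real.rpow_natCast, ← Real.rpow_mul (by norm_num)]
      congr 1
      push_cast
      ring
    rw [← hq4]
    exact hB

end Pool.Agent.HDSum.Gr
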