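import Pool.Agent.HDSum.Defs

open Finset

namespace Pool.Agent.HDSum

lemma kernel_aux {ι : Type*} [DecidableEq ι] (Y A : Finset ι) (f g : ι → ℤ)
    (h : ∀ p q : ℤ, (Y.filter (fun y => f y = p ∧ g y = q)).card ≤ 2) (q : ℤ) (hAY : A ⊆ Y)
    (hA : ∀ y ∈ A, f y = q ∧ (Y.filter (fun y' => f y' = q)).card ≤
      (Y.filter (fun y' => g y' = g y)).card) : A.card ^ 2 ≤ 2 * Y.card := by
  have h1 : A.card ≤ 2 * (A.image g).card := by
    apply Finset.card_le_mul_card_image
    intro r _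
    refine le_trans (Finset.card_le_card ?_) (h q r)
    intro y hy
    simp only [mem_filter] at hy ⊢
    exact ⟨hAY hy.1, (hA y hy.1).1, hy.2⟩
  have h2 : A.card ≤ (Y.filter (fun y' => f y' = q)).card := by
    apply Finset.card_le_card
    intro y hy
    simp only [mem_filter]
    exact ⟨hAY hy, (hA y hy).1⟩
  have h3 : (A.image g).card * A.card ≤ Y.card := by
    calc (A.image g).card * A.card = ∑ r ∈ A.image g, A.card := by simp
      _ ≤ ∑ r ∈ A.image g, (Y.filter (fun y' => g y' = r)).card := by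
          apply Finset.sum_le_sum
          intro r hr
          obtain ⟨y, hy, rfl⟩ := Finset.mem_image.1 hr
          exact le_trans h2 (hA y hy).2
      _ ≤ ∑ r ∈ Y.image g, (Y.filter (fun y' => g y' = r)).card :=
          Finset.sum_le_sum_of_subset (Finset.image_subset_image hAY)
      _ = Y.card := (Finset.card_eq_sum_card_image g Y).symm
  calc A.card ^ 2 = A.card * A.card := by ring
    _ ≤ (2 * (A.image g).card) * A.card := Nat.mul_le_mul_right _ h1
    _ = 2 * ((A.image g).card * A.card) := by ring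
    _ ≤ 2 * Y.card := Nat.mul_le_mul_left _ h3

theorem kernel_lemma {ι : Type*} [DecidableEq ι] (Y : Finset ι) (f1 f2 : ι → ℤ)
    (h : ∀ p q : ℤ, (Y.filter (fun y => f1 y = p ∧ f2 y = q)).card ≤ 2) :
    ∃ b : ι → Bool, ∀ q : ℤ,
      ((Y.filter (fun y => (if b y then f1 y else f2 y) = q)).card) ^ 2 ≤ 8 * Y.card := by
  classical
  let n1 : ℤ → ℕ := fun p => (Y.filter (fun y' => f1 y' = p)).card
  let n2 : ℤ → ℕ := fun p => (Y.filter (fun y' => f2 y' = p)).card
  refine ⟨fun y => decide (n1 (f1 y) ≤ n2 (f2 y)), fun q => ?_⟩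
  let A1 := Y.filter (fun y => f1 y = q ∧ n1 (f1 y) ≤ n2 (f2 y))
  let A2 := Y.filter (fun y => f2 y = q ∧ ¬ n1 (f1 y) ≤ n2 (f2 y))
  have hA1 : A1.card ^ 2 ≤ 2 * Y.card := by
    apply kernel_aux Y A1 f1 f2 h q (Finset.filter_subset _ _)
    intro y hy
    obtain ⟨_, h1, h2⟩ := Finset.mem_filter.1 hy
    refine ⟨h1, ?_⟩
    rw [h1] at h2
    exact h2
  have hA2 : A2.card ^ 2 ≤ 2 * Y.card := by
    apply kernel_aux Y A2 f2 f1 (fun p q => by
      have := h q p
      simpa only [and_comm] using this) q (Finset.filter_subset _ _)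
    intro y hy
    obtain ⟨_, h1, h2⟩ := Finset.mem_filter.1 hy
    refine ⟨h1, ?_⟩
    rw [h1] at h2
    exact (not_le.1 h2).le
  have hsub : (Y.filter (fun y => (if decide (n1 (f1 y) ≤ n2 (f2 y)) = true then f1 y else f2 y) = q))
      ⊆ A1 ∪ A2 := by
    intro y hy
    simp only [mem_filter, decide_eq_true_eq, mem_union, A1, A2] at hy ⊢
    by_cases hc : n1 (f1 y) ≤ n2 (f2 y)
    · rw [if_pos hc] at hy
      exact Or.inl ⟨hy.1, hy.2, hc⟩
    · rw [if_neg hc] at hy
      exact Or.inr ⟨hy.1, hy.2, hc⟩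
  have hc := le_trans (Finset.card_le_card hsub) (Finset.card_union_le A1 A2)
  calc _ ≤ (A1.card + A2.card) ^ 2 := Nat.pow_le_pow_left hc 2
    _ ≤ 8 * Y.card := by nlinarith [sq_nonneg ((A1.card : ℤ) - A2.card), hA1, hA2, two_mul_le_add_sq (A1.card) (A2.card)]

lemma sv_union_disj (x : ℕ → ℝ) (a b : Finset ℕ) (h : Disjoint a b) :
    sv x (a ∪ b) = sv x a + sv x b := Finset.sum_union h

/-- the kernel on patterns -/
theorem exists_kernel (x : ℕ → ℝ) (R : ℝ) (Y : Finset Pat)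
    (hinj : ∀ y ∈ Y, ∀ y' ∈ Y, cell R (pv x y) = cell R (pv x y') → y = y')
    (a : Finset ℕ) :
    ∃ κ : Pat → Finset ℕ,
      (∀ y, κ y = (a \ (y.1 ∪ y.2)) ∪ y.1 ∨ κ y = (a \ (y.1 ∪ y.2)) ∪ y.2) ∧
      ∀ q : ℤ, ((Y.filter (fun y => cell R (sv x (κ y)) = q)).card) ^ 2 ≤ 8 * Y.card := by
  classical
  have key : ∀ p q : ℤ, (Y.filter (fun y =>
      cell R (sv x ((a \ (y.1 ∪ y.2)) ∪ y.1)) = p ∧ cell R (sv x ((a \ (y.1 ∪ y.2)) ∪ y.2)) = q)).card
      ≤ 2 := by
    intro p q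
    have hsub : ((Y.filter (fun y =>
      cell R (sv x ((a \ (y.1 ∪ y.2)) ∪ y.1)) = p ∧
        cell R (sv x ((a \ (y.1 ∪ y.2)) ∪ y.2)) = q)).image (fun y => cell R (pv x y))) ⊆
        {p - q - 1, p - q} := by
      intro c hc
      obtain ⟨y, hy, rfl⟩ := Finset.mem_image.1 hc
      obtain ⟨hyY, h1, h2⟩ := Finset.mem_filter.1 hy
      have e1 : sv x ((a \ (y.1 ∪ y.2)) ∪ y.1) = sv x (a \ (y.1 ∪ y.2)) + sv x y.1 := by
        apply sv_union_disj
        rw [Finset.disjoint_left]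
        intro i hi hi'
        exact (Finset.mem_sdiff.1 hi).2 (Finset.mem_union_left _ hi')
      have e2 : sv x ((a \ (y.1 ∪ y.2)) ∪ y.2) = sv x (a \ (y.1 ∪ y.2)) + sv x y.2 := by
        apply sv_union_disj
        rw [Finset.disjoint_left]
        intro i hi hi'
        exact (Finset.mem_sdiff.1 hi).2 (Finset.mem_union_right _ hi')
      rw [e1] at h1
      rw [e2] at h2
      unfold cell at h1 h2 ⊢
      rw [Int.floor_eq_iff] at h1 h2
      have e3 : R * pv x y = R * (sv x (a \ (y.1 ∪ y.2)) + sv x y.1) -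
          R * (sv x (a \ (y.1 ∪ y.2)) + sv x y.2) := by unfold pv; ring
      have l1 : ((p - q - 1 : ℤ) : ℝ) < R * pv x y := by push_cast; rw [e3]; linarith [h1.1, h2.2]
      have l2 : R * pv x y < ((p - q + 1 : ℤ) : ℝ) := by push_cast; rw [e3]; linarith [h1.2, h2.1]
      have l3 : p - q - 1 ≤ ⌊R * pv x y⌋ := Int.le_floor.2 l1.le
      have l4 : ⌊R * pv x y⌋ < p - q + 1 := Int.floor_lt.2 l2
      simp only [mem_insert, mem_singleton]
      omega
    calc _ = ((Y.filter (fun y =>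
      cell R (sv x ((a \ (y.1 ∪ y.2)) ∪ y.1)) = p ∧
        cell R (sv x ((a \ (y.1 ∪ y.2)) ∪ y.2)) = q)).image (fun y => cell R (pv x y))).card := by
          symm
          apply Finset.card_image_of_injOn
          intro y hy y' hy' heq
          have hy1 := (Finset.mem_filter.1 (Finset.mem_coe.1 hy)).1
          have hy2 := (Finset.mem_filter.1 (Finset.mem_coe.1 hy')).1
          exact hinj y hy1 y' hy2 heq
      _ ≤ ({p - q - 1, p - q} : Finset ℤ).card := Finset.card_le_card hsub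
      _ ≤ 2 := Finset.card_le_two
  obtain ⟨b, hb⟩ := kernel_lemma Y _ _ key
  refine ⟨fun y => if b y then (a \ (y.1 ∪ y.2)) ∪ y.1 else (a \ (y.1 ∪ y.2)) ∪ y.2, ?_, ?_⟩
  · intro y
    by_cases h : b y
    · left; simp [h]
    · right; simp [h]
  · intro q
    have := hb q
    convert this using 4 with y
    by_cases h : b y
    · simp [h]
    · simp [h]

end Pool.Agent.HDSum
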