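import Pool.Agent.HDSum.Defs

open Finset

namespace Pool.Agent.HDSum.Rz


theorem mem_pats {B : Finset ℕ} {m : ℕ} {p : Pat} :
    p ∈ pats B m ↔ p.1 ⊆ B ∧ p.2 ⊆ B ∧ Disjoint p.1 p.2 ∧ p.1.card + p.2.card ≤ m := by
  simp only [pats, mem_filter, mem_product, mem_powerset]
  tauto

theorem cell_bit (R a b : ℝ) :
    cell R (a + b) - cell R a - cell R b ∈ Icc (0 : ℤ) 1 := by
  simp only [cell, mul_add, mem_Icc]
  have h1 := Int.floor_le (R * a)
  have h2 := Int.lt_floor_add_one (R * a)
  have h3 := Int.floor_le (R * b)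
  have h4 := Int.lt_floor_add_one (R * b)
  have h5 := Int.floor_le (R * a + R * b)
  have h6 := Int.lt_floor_add_one (R * a + R * b)
  constructor
  · have : (⌊R * a⌋ + ⌊R * b⌋ : ℤ) ≤ ⌊R * a + R * b⌋ := by
      rw [Int.le_floor]; push_cast; linarith
    omega
  · have : (⌊R * a + R * b⌋ : ℝ) < ⌊R * a⌋ + ⌊R * b⌋ + 2 := by linarith
    have h7 : ⌊R * a + R * b⌋ < ⌊R * a⌋ + ⌊R * b⌋ + 2 := by exact_mod_cast this
    omega

/-- support -/
def supp (p : Pat) : Finset ℕ := p.1 ∪ p.2

theorem card_supp_le {B : Finset ℕ} {m : ℕ} {p : Pat} (h : p ∈ pats B m) : (supp p).card ≤ m :=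
  (card_union_le _ _).trans (mem_pats.1 h).2.2.2

theorem supp_subset {B : Finset ℕ} {m : ℕ} {p : Pat} (h : p ∈ pats B m) : supp p ⊆ B :=
  union_subset (mem_pats.1 h).1 (mem_pats.1 h).2.1

/-- sum of patterns -/
def padd (p q : Pat) : Pat := (p.1 ∪ q.1, p.2 ∪ q.2)

/-- negative pattern -/
def pneg (p : Pat) : Pat := (p.2, p.1)

theorem pneg_mem {B : Finset ℕ} {m : ℕ} {p : Pat} (h : p ∈ pats B m) : pneg p ∈ pats B m := by
  rw [mem_pats] at h ⊢
  exact ⟨h.2.1, h.1, h.2.2.1.symm, by simp only [pneg]; omega⟩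

theorem pv_pneg (x : ℕ → ℝ) (p : Pat) : pv x (pneg p) = - pv x p := by
  simp only [pv, pneg]; ring

theorem supp_pneg (p : Pat) : supp (pneg p) = supp p := union_comm _ _

theorem padd_mem {B B' : Finset ℕ} {m m' : ℕ} {p q : Pat} (hp : p ∈ pats B m)
    (hq : q ∈ pats B' m') (hBB : B' ⊆ B) (hd : Disjoint (supp p) (supp q)) :
    padd p q ∈ pats B (m + m') := by
  rw [mem_pats] at hp hq ⊢
  obtain ⟨h1, h2, h3, h4⟩ := hp
  obtain ⟨h5, h6, h7, h8⟩ := hq
  have hd1 : Disjoint p.1 q.2 := hd.mono subset_union_left subset_union_right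
  have hd2 : Disjoint q.1 p.2 := (hd.mono subset_union_right subset_union_left).symm
  refine ⟨union_subset h1 (h5.trans hBB), union_subset h2 (h6.trans hBB), ?_, ?_⟩
  · simp only [padd]
    rw [disjoint_union_left, disjoint_union_right, disjoint_union_right]
    exact ⟨⟨h3, hd1⟩, hd2, h7⟩
  · simp only [padd]
    have h9 := card_union_le p.1 q.1
    have h10 := card_union_le p.2 q.2
    omega

theorem supp_padd (p q : Pat) : supp (padd p q) = supp p ∪ supp q := by
  ext i; simp only [supp, padd, mem_union]; tauto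

theorem pv_padd (x : ℕ → ℝ) {p q : Pat} (hd : Disjoint (supp p) (supp q)) :
    pv x (padd p q) = pv x p + pv x q := by
  have hd1 : Disjoint p.1 q.1 := hd.mono subset_union_left subset_union_left
  have hd2 : Disjoint p.2 q.2 := hd.mono subset_union_right subset_union_right
  simp only [pv, padd, sv]
  rw [sum_union hd1, sum_union hd2]
  ring

theorem mem_cells1 {x : ℕ → ℝ} {R : ℝ} {B : Finset ℕ} {m : ℕ} {c : ℤ} :
    c ∈ cells1 x R B m ↔ ∃ p ∈ pats B m, cell R (pv x p) = c := by
  simp only [cells1, mem_image]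

theorem card_disj (S : Finset ℕ) :
    ((S.powerset ×ˢ S.powerset).filter (fun p : Pat => Disjoint p.1 p.2)).card ≤ 3 ^ S.card := by
  classical
  have h1 : Fintype.card (↥S → Fin 3) = 3 ^ S.card := by
    rw [Fintype.card_fun, Fintype.card_fin, Fintype.card_coe]
  rw [← h1, ← Finset.card_univ]
  apply card_le_card_of_injOn (fun (p : Pat) (i : ↥S) =>
    if (i : ℕ) ∈ p.1 then (0 : Fin 3) else if (i : ℕ) ∈ p.2 then 1 else 2)
  · intro p _
    exact mem_coe.2 (mem_univ _)
  · intro p hp q hq hpq
    simp only [coe_filter, mem_product, mem_powerset, Set.mem_setOf_eq] at hp hq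
    obtain ⟨⟨h1, h2⟩, h3⟩ := hp
    obtain ⟨⟨h4, h5⟩, h6⟩ := hq
    have key : ∀ i ∈ S, (if i ∈ p.1 then (0 : Fin 3) else if i ∈ p.2 then 1 else 2) =
        (if i ∈ q.1 then (0 : Fin 3) else if i ∈ q.2 then 1 else 2) :=
      fun i hi => congrFun hpq ⟨i, hi⟩
    have e1 : p.1 = q.1 := by
      ext i
      constructor
      · intro hi
        have hk := key i (h1 hi)
        rw [if_pos hi] at hk
        by_contra hcon
        rw [if_neg hcon] at hk
        split_ifs at hk <;> simp at hk
      · intro hi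
        have hk := key i (h4 hi)
        rw [if_pos hi] at hk
        by_contra hcon
        rw [if_neg hcon] at hk
        split_ifs at hk <;> simp at hk
    have e2 : p.2 = q.2 := by
      ext i
      constructor
      · intro hi
        have hk := key i (h2 hi)
        have hi1 : i ∉ p.1 := fun h => (Finset.disjoint_left.1 h3 h) hi
        have hi2 : i ∉ q.1 := by rwa [← e1]
        rw [if_neg hi1, if_pos hi, if_neg hi2] at hk
        by_contra hcon
        rw [if_neg hcon] at hk
        simp at hk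
      · intro hi
        have hk := key i (h5 hi)
        have hi1 : i ∉ q.1 := fun h => (Finset.disjoint_left.1 h6 h) hi
        have hi2 : i ∉ p.1 := by rwa [e1]
        rw [if_neg hi2, if_neg hi1, if_pos hi] at hk
        by_contra hcon
        rw [if_neg hcon] at hk
        simp at hk
    exact Prod.ext e1 e2

theorem loss (x : ℕ → ℝ) (R : ℝ) (B : Finset ℕ) (m : ℕ) (S : Finset ℕ) :
    (cells1 x R B m).card ≤ 2 * 3 ^ S.card * (cells1 x R (B \ S) m).card := by
  classical
  have hex : ∀ c : ℤ, ∃ p : Pat, c ∈ cells1 x R B m → p ∈ pats B m ∧ cell R (pv x p) = c := by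
    intro c
    by_cases hc : c ∈ cells1 x R B m
    · obtain ⟨p, hp, hpc⟩ := mem_cells1.1 hc
      exact ⟨p, fun _ => ⟨hp, hpc⟩⟩
    · exact ⟨(∅, ∅), fun h => absurd h hc⟩
  choose r hr using hex
  let pin : Pat → Pat := fun p => (p.1 ∩ S, p.2 ∩ S)
  let pout : Pat → Pat := fun p => (p.1 \ S, p.2 \ S)
  have hsum : ∀ p : Pat, pv x p = pv x (pin p) + pv x (pout p) := by
    intro p
    simp only [pv, sv, pin, pout]
    rw [← sum_inter_add_sum_sdiff p.1 S x, ← sum_inter_add_sum_sdiff p.2 S x]
    ring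
  have hcard : (cells1 x R B m).card ≤
      ((((S.powerset ×ˢ S.powerset).filter (fun p : Pat => Disjoint p.1 p.2)) ×ˢ
        cells1 x R (B \ S) m) ×ˢ Icc (0 : ℤ) 1).card := by
    apply card_le_card_of_injOn (fun c => ((pin (r c), cell R (pv x (pout (r c)))),
      c - cell R (pv x (pin (r c))) - cell R (pv x (pout (r c)))))
    · intro c hc
      obtain ⟨h1, h2⟩ := hr c hc
      have h1' := mem_pats.1 h1
      rw [mem_coe, mem_product, mem_product]
      refine ⟨⟨?_, ?_⟩, ?_⟩
      · simp only [mem_filter, mem_product, mem_powerset, pin]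
        exact ⟨⟨inter_subset_right, inter_subset_right⟩,
          h1'.2.2.1.mono inter_subset_left inter_subset_left⟩
      · simp only [mem_cells1]
        refine ⟨pout (r c), mem_pats.2 ⟨?_, ?_, ?_, ?_⟩, rfl⟩
        · exact sdiff_subset_sdiff h1'.1 subset_rfl
        · exact sdiff_subset_sdiff h1'.2.1 subset_rfl
        · exact h1'.2.2.1.mono sdiff_subset sdiff_subset
        · have h3 := card_le_card (sdiff_subset : (r c).1 \ S ⊆ (r c).1)
          have h4 := card_le_card (sdiff_subset : (r c).2 \ S ⊆ (r c).2)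
          have h5 := h1'.2.2.2
          simp only [pout]
          omega
      · have h3 := cell_bit R (pv x (pin (r c))) (pv x (pout (r c)))
        rw [← hsum, h2] at h3
        exact h3
    · intro c hc c' hc' h
      simp only [Prod.mk.injEq] at h
      obtain ⟨⟨h1, h2⟩, h3⟩ := h
      rw [h1, h2] at h3
      omega
  refine hcard.trans ?_
  rw [card_product, card_product]
  have h2 : (Icc (0 : ℤ) 1).card = 2 := by simp
  rw [h2]
  have h3 := Nat.mul_le_mul_right ((cells1 x R (B \ S) m).card) (card_disj S)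
  calc _ ≤ (3 ^ S.card * (cells1 x R (B \ S) m).card) * 2 := Nat.mul_le_mul_right 2 h3
    _ = _ := by ring

theorem ruzsa (x : ℕ → ℝ) (R : ℝ) (B : Finset ℕ) (m : ℕ) :
    (cells3 x R B m).card * (cells1 x R B m).card ^ 2 ≤
      64 * 3 ^ (7 * m) * ((cells1 x R B (3 * m)).card * (cells1 x R B (2 * m)).card ^ 2) := by
  classical
  have hex3 : ∀ k : ℤ, ∃ y : Pat × Pat × Pat, k ∈ cells3 x R B m →
      (y.1 ∈ pats B m ∧ y.2.1 ∈ pats B m ∧ y.2.2 ∈ pats B m) ∧
      cell R (pv x y.1 + pv x y.2.1 + pv x y.2.2) = k := by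
    intro k
    by_cases hk : k ∈ cells3 x R B m
    · obtain ⟨y, hy, hyk⟩ := mem_image.1 hk
      rw [mem_product, mem_product] at hy
      exact ⟨y, fun _ => ⟨hy, hyk⟩⟩
    · exact ⟨((∅, ∅), (∅, ∅), (∅, ∅)), fun h => absurd h hk⟩
  choose y hy using hex3
  have hex1 : ∀ (B' : Finset ℕ) (c : ℤ), ∃ p : Pat, c ∈ cells1 x R B' m →
      p ∈ pats B' m ∧ cell R (pv x p) = c := by
    intro B' c
    by_cases hc : c ∈ cells1 x R B' m
    · obtain ⟨p, hp, hpc⟩ := mem_cells1.1 hc
      exact ⟨p, fun _ => ⟨hp, hpc⟩⟩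
    · exact ⟨(∅, ∅), fun h => absurd h hc⟩
  choose r hr using hex1
  let S : ℤ → Finset ℕ := fun k => supp (y k).1 ∪ supp (y k).2.1 ∪ supp (y k).2.2
  let S' : ℤ → ℤ → Finset ℕ := fun k c => S k ∪ supp (r (B \ S k) c)
  have hS : ∀ k ∈ cells3 x R B m, (S k).card ≤ 3 * m := by
    intro k hk
    obtain ⟨⟨h1, h2, h3⟩, -⟩ := hy k hk
    have e1 := card_union_le (supp (y k).1 ∪ supp (y k).2.1) (supp (y k).2.2)
    have e2 := card_union_le (supp (y k).1) (supp (y k).2.1)
    have e3 := card_supp_le h1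
    have e4 := card_supp_le h2
    have e5 := card_supp_le h3
    show (supp (y k).1 ∪ supp (y k).2.1 ∪ supp (y k).2.2).card ≤ 3 * m
    omega
  have hS' : ∀ k ∈ cells3 x R B m, ∀ c ∈ cells1 x R (B \ S k) m, (S' k c).card ≤ 4 * m := by
    intro k hk c hc
    have e1 := card_union_le (S k) (supp (r (B \ S k) c))
    have e2 := hS k hk
    have e3 := card_supp_le (hr (B \ S k) c hc).1
    show (S k ∪ supp (r (B \ S k) c)).card ≤ 4 * m
    omega
  let T : Finset (Σ _ : ℤ, Σ _ : ℤ, ℤ) := (cells3 x R B m).sigma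
    (fun k => (cells1 x R (B \ S k) m).sigma (fun c => cells1 x R (B \ S' k c) m))
  -- lower bound for T
  have hlow : (cells3 x R B m).card * (cells1 x R B m).card ^ 2 ≤ 4 * 3 ^ (7 * m) * T.card := by
    have hT : T.card = ∑ k ∈ cells3 x R B m, ∑ c ∈ cells1 x R (B \ S k) m,
        (cells1 x R (B \ S' k c) m).card := by
      rw [card_sigma]
      exact sum_congr rfl (fun k _ => card_sigma _ _)
    have h1 : ∀ k ∈ cells3 x R B m, (cells1 x R B m).card ≤
        2 * 3 ^ (3 * m) * (cells1 x R (B \ S k) m).card := by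
      intro k hk
      refine (loss x R B m (S k)).trans ?_
      apply Nat.mul_le_mul_right
      apply Nat.mul_le_mul_left
      exact Nat.pow_le_pow_right (by norm_num) (hS k hk)
    have h2 : ∀ k ∈ cells3 x R B m, ∀ c ∈ cells1 x R (B \ S k) m, (cells1 x R B m).card ≤
        2 * 3 ^ (4 * m) * (cells1 x R (B \ S' k c) m).card := by
      intro k hk c hc
      refine (loss x R B m (S' k c)).trans ?_
      apply Nat.mul_le_mul_right
      apply Nat.mul_le_mul_left
      exact Nat.pow_le_pow_right (by norm_num) (hS' k hk c hc)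
    have h3 : ∀ k ∈ cells3 x R B m, (cells1 x R B m).card ^ 2 ≤ 4 * 3 ^ (7 * m) *
        ∑ c ∈ cells1 x R (B \ S k) m, (cells1 x R (B \ S' k c) m).card := by
      intro k hk
      have h4 : (cells1 x R (B \ S k) m).card * (cells1 x R B m).card ≤
          2 * 3 ^ (4 * m) * ∑ c ∈ cells1 x R (B \ S k) m, (cells1 x R (B \ S' k c) m).card := by
        rw [mul_sum, ← smul_eq_mul, ← sum_const]
        exact sum_le_sum (fun c hc => h2 k hk c hc)
      calc (cells1 x R B m).card ^ 2 = (cells1 x R B m).card * (cells1 x R B m).card := sq _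
        _ ≤ (2 * 3 ^ (3 * m) * (cells1 x R (B \ S k) m).card) * (cells1 x R B m).card :=
          Nat.mul_le_mul_right _ (h1 k hk)
        _ = 2 * 3 ^ (3 * m) * ((cells1 x R (B \ S k) m).card * (cells1 x R B m).card) := by ring
        _ ≤ 2 * 3 ^ (3 * m) * (2 * 3 ^ (4 * m) *
            ∑ c ∈ cells1 x R (B \ S k) m, (cells1 x R (B \ S' k c) m).card) :=
          Nat.mul_le_mul_left _ h4
        _ = _ := by
          have : 7 * m = 3 * m + 4 * m := by ring
          rw [this, pow_add]
          ring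
    rw [hT, mul_sum, ← smul_eq_mul, ← sum_const]
    exact sum_le_sum h3
  -- upper bound for T
  have hup : T.card ≤ 16 * ((cells1 x R B (3 * m)).card * (cells1 x R B (2 * m)).card ^ 2) := by
    have hinj : T.card ≤ ((cells1 x R B (3 * m) ×ˢ (cells1 x R B (2 * m) ×ˢ cells1 x R B (2 * m))) ×ˢ
        (Icc (0 : ℤ) 3 ×ˢ (Icc (0 : ℤ) 1 ×ˢ Icc (0 : ℤ) 1))).card := by
      let p2 : (Σ _ : ℤ, Σ _ : ℤ, ℤ) → Pat := fun t => r (B \ S t.1) t.2.1
      let p3 : (Σ _ : ℤ, Σ _ : ℤ, ℤ) → Pat := fun t => r (B \ S' t.1 t.2.1) t.2.2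
      let fA : (Σ _ : ℤ, Σ _ : ℤ, ℤ) → ℤ := fun t =>
        cell R (pv x (y t.1).1 + pv x (p2 t) + pv x (p3 t))
      let fB : (Σ _ : ℤ, Σ _ : ℤ, ℤ) → ℤ := fun t => cell R (pv x (y t.1).2.1 - pv x (p2 t))
      let fC : (Σ _ : ℤ, Σ _ : ℤ, ℤ) → ℤ := fun t => cell R (pv x (y t.1).2.2 - pv x (p3 t))
      apply card_le_card_of_injOn (fun t => ((fA t, (fB t, fC t)),
        (t.1 - fA t - fB t - fC t, (cell R (pv x (y t.1).2.1) - fB t - t.2.1,
          cell R (pv x (y t.1).2.2) - fC t - t.2.2))))
      · rintro ⟨k, c, c'⟩ ht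
        rw [mem_coe, mem_sigma, mem_sigma] at ht
        obtain ⟨hk, hc, hc'⟩ := ht
        simp only at hk hc hc'
        obtain ⟨⟨h1, h2, h3⟩, h4⟩ := hy k hk
        obtain ⟨h5, h6⟩ := hr (B \ S k) c hc
        obtain ⟨h7, h8⟩ := hr (B \ S' k c) c' hc'
        set q1 := (y k).1
        set q2 := (y k).2.1
        set q3 := (y k).2.2
        set w2 := r (B \ S k) c
        set w3 := r (B \ S' k c) c'
        have s1 : supp q1 ⊆ S k := subset_union_left.trans subset_union_left
        have s2 : supp q2 ⊆ S k := subset_union_right.trans subset_union_left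
        have s3 : supp q3 ⊆ S k := subset_union_right
        have sS : S k ⊆ S' k c := subset_union_left
        have sw2 : supp w2 ⊆ S' k c := subset_union_right
        have dw2 : Disjoint (S k) (supp w2) :=
          disjoint_sdiff.mono_right (supp_subset h5)
        have dw3 : Disjoint (S' k c) (supp w3) :=
          disjoint_sdiff.mono_right (supp_subset h7)
        rw [mem_coe, mem_product, mem_product, mem_product, mem_product, mem_product]
        refine ⟨⟨?_, ?_, ?_⟩, ?_, ?_, ?_⟩
        · show cell R (pv x q1 + pv x w2 + pv x w3) ∈ _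
          have d12 : Disjoint (supp q1) (supp w2) := dw2.mono_left s1
          have hm := padd_mem h1 h5 sdiff_subset d12
          have d123 : Disjoint (supp (padd q1 w2)) (supp w3) := by
            rw [supp_padd, disjoint_union_left]
            exact ⟨dw3.mono_left (s1.trans sS), dw3.mono_left sw2⟩
          have hm2 := padd_mem hm h7 sdiff_subset d123
          have e : m + m + m = 3 * m := by ring
          rw [e] at hm2
          rw [mem_cells1]
          refine ⟨_, hm2, ?_⟩
          rw [pv_padd x d123, pv_padd x d12]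
        · show cell R (pv x q2 - pv x w2) ∈ _
          have d12 : Disjoint (supp q2) (supp (pneg w2)) := by
            rw [supp_pneg]; exact dw2.mono_left s2
          have hm := padd_mem h2 (pneg_mem h5) sdiff_subset d12
          have e : m + m = 2 * m := by ring
          rw [e] at hm
          rw [mem_cells1]
          refine ⟨_, hm, ?_⟩
          rw [pv_padd x d12, pv_pneg, sub_eq_add_neg]
        · show cell R (pv x q3 - pv x w3) ∈ _
          have d12 : Disjoint (supp q3) (supp (pneg w3)) := by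
            rw [supp_pneg]; exact dw3.mono_left (s3.trans sS)
          have hm := padd_mem h3 (pneg_mem h7) sdiff_subset d12
          have e : m + m = 2 * m := by ring
          rw [e] at hm
          rw [mem_cells1]
          refine ⟨_, hm, ?_⟩
          rw [pv_padd x d12, pv_pneg, sub_eq_add_neg]
        · show k - cell R (pv x q1 + pv x w2 + pv x w3) - cell R (pv x q2 - pv x w2) -
            cell R (pv x q3 - pv x w3) ∈ Icc (0 : ℤ) 3
          have b1 := cell_bit R (pv x q1 + pv x w2 + pv x w3) (pv x q2 - pv x w2)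
          have b2 := cell_bit R ((pv x q1 + pv x w2 + pv x w3) + (pv x q2 - pv x w2))
            (pv x q3 - pv x w3)
          have e : (pv x q1 + pv x w2 + pv x w3) + (pv x q2 - pv x w2) + (pv x q3 - pv x w3) =
            pv x q1 + pv x q2 + pv x q3 := by ring
          rw [e, h4] at b2
          rw [mem_Icc] at b1 b2 ⊢
          omega
        · show cell R (pv x q2) - cell R (pv x q2 - pv x w2) - c ∈ Icc (0 : ℤ) 1
          have b1 := cell_bit R (pv x q2 - pv x w2) (pv x w2)
          rw [sub_add_cancel, h6] at b1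
          exact b1
        · show cell R (pv x q3) - cell R (pv x q3 - pv x w3) - c' ∈ Icc (0 : ℤ) 1
          have b1 := cell_bit R (pv x q3 - pv x w3) (pv x w3)
          rw [sub_add_cancel, h8] at b1
          exact b1
      · rintro ⟨k, c, c'⟩ _ ⟨l, d, d'⟩ _ h
        simp only [Prod.mk.injEq] at h
        obtain ⟨⟨e1, e2, e3⟩, e4, e5, e6⟩ := h
        have hkl : k = l := by omega
        subst hkl
        have hcd : c = d := by omega
        subst hcd
        have hcd' : c' = d' := by omega
        subst hcd'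
        rfl
    refine hinj.trans ?_
    rw [card_product, card_product, card_product, card_product, card_product]
    have h2 : (Icc (0 : ℤ) 1).card = 2 := by simp
    have h3 : (Icc (0 : ℤ) 3).card = 4 := by simp
    rw [h2, h3]
    apply le_of_eq
    ring
  calc _ ≤ 4 * 3 ^ (7 * m) * T.card := hlow
    _ ≤ 4 * 3 ^ (7 * m) * (16 * ((cells1 x R B (3 * m)).card * (cells1 x R B (2 * m)).card ^ 2)) :=
      Nat.mul_le_mul_left _ hup
    _ = _ := by ring

end Pool.Agent.HDSum.Rz
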