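import Pool.Agent.HDSum.Count
import Pool.Agent.HDSum.Ruzsa
import Pool.Agent.HDSum.Growth

open Finset

namespace Pool.Agent.HDSum

/-- scale of level `l` -/
noncomputable def Rl (l : ℕ) : ℝ := 2 ^ (l ^ 5)

/-- maximal size of the items used at level `l` -/
noncomputable def βl (ψ : ℝ) (l : ℕ) : ℝ := (2 : ℝ) ^ (-(ψ / 2) * (l : ℝ) ^ 4)

lemma Rl_pos (l : ℕ) : 0 < Rl l := by unfold Rl; positivity

lemma βl_pos (ψ : ℝ) (l : ℕ) : 0 < βl ψ l := by unfold βl; positivity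

lemma βl_le_one {ψ : ℝ} (hψ : 0 < ψ) (l : ℕ) : βl ψ l ≤ 1 := by
  unfold βl
  apply Real.rpow_le_one_of_one_le_of_nonpos (by norm_num)
  have : 0 ≤ (ψ / 2) * (l : ℝ) ^ 4 := by positivity
  linarith

/-- all the data attached to the levels -/
structure LD (x : ℕ → ℝ) (ψ S : ℝ) where
  C : ℕ
  jg : ℕ
  B : ℕ → Finset ℕ
  G : ℕ → Finset ℕ
  m : ℕ → ℕ
  Y : ℕ → Finset Pat
  κ : ℕ → Finset ℕ → Pat → Finset ℕ
  hsmall : ∀ l i, i ∉ B l → i ∉ G l → |x i| ≤ 1 / Rl l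
  hB : ∀ l, ∀ i ∈ B l, |x i| ≤ βl ψ l
  hG : ∀ l, ((2 * (G l).card + 1 : ℕ) : ℝ) ≤ (2 * S + 1) / βl ψ l
  hYp : ∀ l, Y l ⊆ pats (B l) (m l)
  hYne : ∀ l, (Y l).Nonempty
  hκ : ∀ l, Overw (κ l)
  hcell : ∀ l a, ∀ q : ℤ,
    (((Y l).filter (fun y => cell (Rl l) (sv x (κ l a y)) = q)).card) ^ 2 ≤ 8 * (Y l).card
  hm : ∀ l, jg ≤ l → 2 * l ≤ m l ∧ m l ≤ C * l ∧
    ((cells3 x (Rl l) (B l) (m l)).card : ℝ) ≤
      (2 : ℝ) ^ (4 * ψ * (l : ℝ) ^ 5) * ((Y l).card : ℝ)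

lemma exists_reps (x : ℕ → ℝ) (R : ℝ) (B : Finset ℕ) (m : ℕ) :
    ∃ Y : Finset Pat, Y ⊆ pats B m ∧
      (∀ y ∈ Y, ∀ y' ∈ Y, cell R (pv x y) = cell R (pv x y') → y = y') ∧
      Y.card = (cells1 x R B m).card := by
  classical
  have hch : ∀ c : ℤ, ∃ p : Pat, c ∈ cells1 x R B m → p ∈ pats B m ∧ cell R (pv x p) = c := by
    intro c
    by_cases hc : c ∈ cells1 x R B m
    · obtain ⟨p, hp, he⟩ := Finset.mem_image.1 hc
      exact ⟨p, fun _ => ⟨hp, he⟩⟩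
    · exact ⟨(∅, ∅), fun h => absurd h hc⟩
  choose g hg using hch
  refine ⟨(cells1 x R B m).image g, ?_, ?_, ?_⟩
  · intro y hy
    obtain ⟨c, hc, rfl⟩ := Finset.mem_image.1 hy
    exact (hg c hc).1
  · intro y hy y' hy' he
    obtain ⟨c, hc, rfl⟩ := Finset.mem_image.1 hy
    obtain ⟨c', hc', rfl⟩ := Finset.mem_image.1 hy'
    rw [(hg c hc).2, (hg c' hc').2] at he
    rw [he]
  · apply Finset.card_image_of_injOn
    intro c hc c' hc' he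
    have h1 := (hg c hc).2
    have h2 := (hg c' hc').2
    rw [he] at h1
    exact h1.symm.trans h2

theorem exists_LD (x : ℕ → ℝ) (hx : ∀ n, 0 < x n) (hs : Summable x) (ψ S : ℝ) (hψ : 0 < ψ)
    (hS : ∑' n, x n ≤ S) : Nonempty (LD x ψ S) := by
  classical
  obtain ⟨C, jg, hgr⟩ := Gr.growth (fun x R B m => Rz.ruzsa x R B m) ψ hψ
  have hfin : ∀ l : ℕ, {i | 1 / Rl l ≤ x i}.Finite := by
    intro l
    have h0 := hs.tendsto_cofinite_zero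
    have := h0.eventually (gt_mem_nhds (show (0 : ℝ) < 1 / Rl l from by
      have := Rl_pos l; positivity))
    rw [Filter.eventually_cofinite] at this
    refine this.subset ?_
    intro i hi
    simp only [Set.mem_ofPred_eq, not_lt] at hi ⊢
    exact hi
  let B : ℕ → Finset ℕ := fun l => (hfin l).toFinset.filter (fun i => x i ≤ βl ψ l)
  let G : ℕ → Finset ℕ := fun l => (hfin l).toFinset.filter (fun i => βl ψ l < x i)
  have hBβ : ∀ l, ∀ i ∈ B l, |x i| ≤ βl ψ l := by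
    intro l i hi
    rw [abs_of_pos (hx i)]
    exact (Finset.mem_filter.1 hi).2
  have hmex : ∀ l : ℕ, ∃ m : ℕ, jg ≤ l → 2 * l ≤ m ∧ m ≤ C * l ∧
      ((cells3 x (2 ^ (l ^ 5)) (B l) m).card : ℝ) ≤
          (2 : ℝ) ^ (4 * ψ * (l : ℝ) ^ 5) * ((cells1 x (2 ^ (l ^ 5)) (B l) m).card : ℝ) := by
    intro l
    by_cases hl : jg ≤ l
    · obtain ⟨m, hm⟩ := hgr l hl x (B l) (fun i hi => (hBβ l i hi).trans (βl_le_one hψ l))
      exact ⟨m, fun _ => hm⟩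
    · exact ⟨0, fun h => absurd h hl⟩
  choose m hm using hmex
  have hYex : ∀ l : ℕ, ∃ Y : Finset Pat, Y ⊆ pats (B l) (m l) ∧
      (∀ y ∈ Y, ∀ y' ∈ Y, cell (Rl l) (pv x y) = cell (Rl l) (pv x y') → y = y') ∧
      Y.card = (cells1 x (Rl l) (B l) (m l)).card := fun l => exists_reps x (Rl l) (B l) (m l)
  choose Y hY1 hY2 hY3 using hYex
  have hκex : ∀ (l : ℕ) (a : Finset ℕ), ∃ κ : Pat → Finset ℕ,
      (∀ y, κ y = (a \ (y.1 ∪ y.2)) ∪ y.1 ∨ κ y = (a \ (y.1 ∪ y.2)) ∪ y.2) ∧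
      ∀ q : ℤ, (((Y l).filter (fun y => cell (Rl l) (sv x (κ y)) = q)).card) ^ 2 ≤ 8 * (Y l).card :=
    fun l a => exists_kernel x (Rl l) (Y l) (hY2 l) a
  choose κ hκ1 hκ2 using hκex
  refine ⟨⟨C, jg, B, G, m, Y, κ, ?_, hBβ, ?_, hY1, ?_, hκ1, hκ2, ?_⟩⟩
  · intro l i h1 h2
    by_contra hcon
    push Not at hcon
    rw [abs_of_pos (hx i)] at hcon
    have hmem : i ∈ (hfin l).toFinset := by
      rw [Set.Finite.mem_toFinset]; exact hcon.le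
    rcases le_or_gt (x i) (βl ψ l) with h | h
    · exact h1 (Finset.mem_filter.2 ⟨hmem, h⟩)
    · exact h2 (Finset.mem_filter.2 ⟨hmem, h⟩)
  · intro l
    have hβ := βl_pos ψ l
    have hβ1 := βl_le_one hψ l
    rw [le_div_iff₀ hβ]
    have h1 : ((G l).card : ℝ) * βl ψ l ≤ S := by
      calc ((G l).card : ℝ) * βl ψ l = ∑ i ∈ G l, βl ψ l := by simp
        _ ≤ ∑ i ∈ G l, x i := Finset.sum_le_sum fun i hi => (Finset.mem_filter.1 hi).2.le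
        _ ≤ ∑' n, x n := hs.sum_le_tsum _ (fun i _ => (hx i).le)
        _ ≤ S := hS
    push_cast
    nlinarith
  · intro l
    rw [← Finset.card_pos, hY3 l, Finset.card_pos]
    unfold cells1
    apply Finset.Nonempty.image
    exact ⟨(∅, ∅), mem_pats.2 ⟨Finset.empty_subset _, Finset.empty_subset _,
      Finset.disjoint_empty_left _, by simp⟩⟩
  · intro l hl
    obtain ⟨h1, h2, h3⟩ := hm l hl
    refine ⟨h1, h2, ?_⟩
    rw [hY3 l]
    exact h3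

end Pool.Agent.HDSum
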