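import Pool.Agent.HDSum.Assembly

open Finset MeasureTheory
open scoped Pointwise ENNReal NNReal

namespace Pool.Agent.HDSum

theorem dim_sum_le (x : ℕ → ℝ) (hx : ∀ n, 0 < x n) (hs : Summable x) :
    dimH (AS x + AS x) ≤ 2 * dimH (AS x) := by
  by_contra hcon
  push Not at hcon
  obtain ⟨t, ht1, ht2⟩ := ENNReal.lt_iff_exists_nnreal_btwn.1 hcon
  have h2 : dimH (AS x) < (t : ℝ≥0∞) / 2 := by
    rw [ENNReal.lt_div_iff_mul_lt (Or.inl (by norm_num)) (Or.inl (by norm_num)), mul_comm]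
    exact ht1
  obtain ⟨s, hs1, hs2⟩ := ENNReal.lt_iff_exists_nnreal_btwn.1 h2
  have hs0 : (0 : ℝ) < s := by
    have : (0 : ℝ≥0∞) < s := lt_of_le_of_lt zero_le hs1
    exact_mod_cast this
  have hst : 2 * (s : ℝ) < t := by
    rw [ENNReal.lt_div_iff_mul_lt (Or.inl (by norm_num)) (Or.inl (by norm_num))] at hs2
    have h3 : ((s * 2 : ℝ≥0) : ℝ≥0∞) < (t : ℝ≥0∞) := by
      push_cast; exact hs2
    have h4 : s * 2 < t := by exact_mod_cast h3
    have h5 : ((s * 2 : ℝ≥0) : ℝ) < t := by exact_mod_cast h4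
    push_cast at h5
    linarith
  have h0 : μH[(s : ℝ)] (AS x) = 0 := hausdorffMeasure_of_dimH_lt hs1
  have htop : μH[(t : ℝ)] (AS x + AS x) = ∞ := hausdorffMeasure_of_lt_dimH ht2
  have hz := hausdorff_sum_zero x hx hs s (((t : ℝ) - 2 * s) / 10) t hs0 (by linarith)
    (by linarith) h0
  rw [hz] at htop
  exact ENNReal.zero_ne_top htop

end Pool.Agent.HDSum
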