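import Pool.Agent.HDSum.Kernel

open Finset

namespace Pool.Agent.HDSum

/-- averaging operators over levels `l, l+1, …, l+n-1` -/
noncomputable def noise (Y : ℕ → Finset Pat) (κ : ℕ → Finset ℕ → Pat → Finset ℕ) :
    ℕ → ℕ → (Finset ℕ → ℝ) → Finset ℕ → ℝ
  | _, 0, f => f
  | l, n + 1, f => fun a =>
      (∑ y ∈ Y l, noise Y κ (l + 1) n f (κ l a y)) / ((Y l).card : ℝ)

variable (Y : ℕ → Finset Pat) (κ : ℕ → Finset ℕ → Pat → Finset ℕ)

lemma noise_zero (l : ℕ) (f : Finset ℕ → ℝ) : noise Y κ l 0 f = f := rfl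

lemma noise_succ (l n : ℕ) (f : Finset ℕ → ℝ) (a : Finset ℕ) :
    noise Y κ l (n + 1) f a =
      (∑ y ∈ Y l, noise Y κ (l + 1) n f (κ l a y)) / ((Y l).card : ℝ) := rfl

lemma noise_add (n n' : ℕ) (f : Finset ℕ → ℝ) : ∀ l,
    noise Y κ l (n + n') f = noise Y κ l n (noise Y κ (l + n) n' f) := by
  induction n with
  | zero => intro l; simp [noise]
  | succ n ih =>
    intro l
    funext a
    have e : n + 1 + n' = (n + n') + 1 := by ring
    rw [e, noise_succ, noise_succ, ih (l + 1)]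
    have e2 : l + 1 + n = l + (n + 1) := by ring
    rw [e2]

lemma noise_mono {f g : Finset ℕ → ℝ} (h : ∀ a, f a ≤ g a) (n : ℕ) : ∀ l a,
    noise Y κ l n f a ≤ noise Y κ l n g a := by
  induction n with
  | zero => intro l a; exact h a
  | succ n ih =>
    intro l a
    rw [noise_succ, noise_succ]
    exact div_le_div_of_nonneg_right (Finset.sum_le_sum fun y _ => ih _ _) (Nat.cast_nonneg _)

lemma noise_nonneg {f : Finset ℕ → ℝ} (h : ∀ a, 0 ≤ f a) (n : ℕ) : ∀ l a,
    0 ≤ noise Y κ l n f a := by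
  induction n with
  | zero => intro l a; exact h a
  | succ n ih =>
    intro l a
    rw [noise_succ]
    exact div_nonneg (Finset.sum_nonneg fun y _ => ih _ _) (Nat.cast_nonneg _)

lemma noise_one (n : ℕ) : ∀ l, (∀ l', l ≤ l' → (Y l').Nonempty) → ∀ a,
    noise Y κ l n (fun _ => 1) a = 1 := by
  induction n with
  | zero => intro l _ a; rfl
  | succ n ih =>
    intro l hl a
    rw [noise_succ]
    have : ∀ y ∈ Y l, noise Y κ (l + 1) n (fun _ => 1) (κ l a y) = 1 :=
      fun y _ => ih (l + 1) (fun l' h' => hl l' (by omega)) _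
    rw [Finset.sum_congr rfl this]
    have hne : ((Y l).card : ℝ) ≠ 0 := by
      have := (hl l le_rfl).card_pos
      positivity
    simp [hne]

lemma noise_sum {ι : Type*} (s : Finset ι) (f : ι → Finset ℕ → ℝ) (n : ℕ) : ∀ l a,
    noise Y κ l n (fun b => ∑ i ∈ s, f i b) a = ∑ i ∈ s, noise Y κ l n (f i) a := by
  induction n with
  | zero => intro l a; rfl
  | succ n ih =>
    intro l a
    rw [noise_succ]
    simp_rw [noise_succ, ih]
    rw [Finset.sum_comm, Finset.sum_div]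

/-- event: the value is within `ρ` of `p` -/
noncomputable def ev (x : ℕ → ℝ) (p ρ : ℝ) (a : Finset ℕ) : ℝ :=
  if |sv x a - p| ≤ ρ then 1 else 0

lemma ev_nonneg (x : ℕ → ℝ) (p ρ : ℝ) (a : Finset ℕ) : 0 ≤ ev x p ρ a := by
  unfold ev; split_ifs <;> norm_num

lemma noise_tiny (x : ℕ → ℝ) (τ : ℕ → ℝ) (p ρ : ℝ) (n : ℕ) : ∀ l,
    (∀ l', l ≤ l' → l' < l + n → ∀ y ∈ Y l', ∀ a, |sv x (κ l' a y) - sv x a| ≤ τ l') → ∀ a,
    noise Y κ l n (ev x p ρ) a ≤ ev x p (ρ + ∑ i ∈ range n, τ (l + i)) a := by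
  induction n with
  | zero => intro l _ a; simp [noise]
  | succ n ih =>
    intro l hl a
    rw [noise_succ]
    have hle : ∀ y ∈ Y l, noise Y κ (l + 1) n (ev x p ρ) (κ l a y) ≤
        ev x p (ρ + ∑ i ∈ range (n + 1), τ (l + i)) a := by
      intro y hy
      refine le_trans (ih (l + 1) (fun l' h1 h2 => hl l' (by omega) (by omega)) _) ?_
      have h0 := hl l le_rfl (by omega) y hy a
      unfold ev
      rw [Finset.sum_range_succ']
      split_ifs with h1 h2
      · exact le_rfl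
      · exfalso
        apply h2
        have e : ∀ i ∈ range n, τ (l + 1 + i) = τ (l + (i + 1)) := fun i _ => by
          congr 1; ring
        rw [Finset.sum_congr rfl e] at h1
        have h3 : sv x a - p = (sv x (κ l a y) - p) - (sv x (κ l a y) - sv x a) := by ring
        rw [h3]
        have h4 := abs_sub (sv x (κ l a y) - p) (sv x (κ l a y) - sv x a)
        simp only [add_zero]
        linarith
      · norm_num
      · norm_num
    have hev := ev_nonneg x p (ρ + ∑ i ∈ range (n + 1), τ (l + i)) a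
    rcases (Y l).eq_empty_or_nonempty with he | hne
    · rw [he]; simpa using hev
    · have hpos : (0 : ℝ) < (Y l).card := by exact_mod_cast hne.card_pos
      rw [div_le_iff₀ hpos]
      calc _ ≤ ∑ y ∈ Y l, ev x p (ρ + ∑ i ∈ range (n + 1), τ (l + i)) a := Finset.sum_le_sum hle
        _ = _ := by rw [Finset.sum_const, nsmul_eq_mul]; ring

/-- indicator of a set of reals -/
noncomputable def ind (Q : Set ℝ) (u : ℝ) : ℝ := Q.indicator (fun _ => (1 : ℝ)) u

lemma ind_nonneg (Q : Set ℝ) (u : ℝ) : 0 ≤ ind Q u := by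
  unfold ind; exact Set.indicator_nonneg (fun _ _ => zero_le_one) _

lemma ind_of_mem {Q : Set ℝ} {u : ℝ} (h : u ∈ Q) : ind Q u = 1 := by
  unfold ind; exact Set.indicator_of_mem h _

lemma ind_of_not_mem {Q : Set ℝ} {u : ℝ} (h : u ∉ Q) : ind Q u = 0 := by
  unfold ind; exact Set.indicator_of_notMem h _

/-- dual description of `f` is bounded by a mixture of total mass `W` of translates of the
indicator of `Q` -/
def DualS (x : ℕ → ℝ) (Q : Set ℝ) (W : ℝ) (f : Finset ℕ → ℝ) : Prop :=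
  ∀ (ι : Type) (Z : Finset ι) (c : ι → ℝ) (a : ι → Finset ℕ) (K : ℝ), (∀ z ∈ Z, 0 ≤ c z) →
    (∀ q : ℝ, ∑ z ∈ Z, c z * ind Q (sv x (a z) - q) ≤ K) →
    ∑ z ∈ Z, c z * f (a z) ≤ W * K

lemma DualS.base {x : ℕ → ℝ} {Q : Set ℝ} {f : Finset ℕ → ℝ} {ι' : Type*} (I : Finset ι')
    (p : ι' → ℝ) (hf : ∀ a, f a ≤ ∑ i ∈ I, ind Q (sv x a - p i)) :
    DualS x Q I.card f := by
  intro ι Z c a K hc hK
  calc ∑ z ∈ Z, c z * f (a z) ≤ ∑ z ∈ Z, c z * ∑ i ∈ I, ind Q (sv x (a z) - p i) :=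
        Finset.sum_le_sum fun z hz => mul_le_mul_of_nonneg_left (hf _) (hc z hz)
    _ = ∑ i ∈ I, ∑ z ∈ Z, c z * ind Q (sv x (a z) - p i) := by
        simp_rw [Finset.mul_sum]; rw [Finset.sum_comm]
    _ ≤ ∑ i ∈ I, K := Finset.sum_le_sum fun i _ => hK _
    _ = I.card * K := by simp

lemma DualS.K_nonneg {x : ℕ → ℝ} {Q : Set ℝ} {ι : Type} {Z : Finset ι} {c : ι → ℝ}
    {a : ι → Finset ℕ} {K : ℝ} (hc : ∀ z ∈ Z, 0 ≤ c z)
    (hK : ∀ q : ℝ, ∑ z ∈ Z, c z * ind Q (sv x (a z) - q) ≤ K) : 0 ≤ K :=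
  le_trans (Finset.sum_nonneg fun z hz => mul_nonneg (hc z hz) (ind_nonneg _ _)) (hK 0)

lemma DualS.mono {x : ℕ → ℝ} {Q : Set ℝ} {W W' : ℝ} {f g : Finset ℕ → ℝ}
    (hf : DualS x Q W f) (hW : W ≤ W') (hg : ∀ a, g a ≤ f a) : DualS x Q W' g := by
  intro ι Z c a K hc hK
  calc _ ≤ ∑ z ∈ Z, c z * f (a z) :=
        Finset.sum_le_sum fun z hz => mul_le_mul_of_nonneg_left (hg _) (hc z hz)
    _ ≤ W * K := hf ι Z c a K hc hK
    _ ≤ W' * K := mul_le_mul_of_nonneg_right hW (DualS.K_nonneg hc hK)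

/-- the overwrite property of a kernel -/
def Overw (κ : Finset ℕ → Pat → Finset ℕ) : Prop :=
  ∀ a y, κ a y = (a \ (y.1 ∪ y.2)) ∪ y.1 ∨ κ a y = (a \ (y.1 ∪ y.2)) ∪ y.2

lemma sv_overw1 (x : ℕ → ℝ) (a : Finset ℕ) (y : Pat) :
    sv x ((a \ (y.1 ∪ y.2)) ∪ y.1) = sv x a - sv x (a ∩ (y.1 ∪ y.2)) + sv x y.1 := by
  rw [sv_union_disj]
  · unfold sv
    have := Finset.sum_inter_add_sum_sdiff a (y.1 ∪ y.2) x
    linarith
  · rw [Finset.disjoint_left]
    intro i hi hi'
    exact (Finset.mem_sdiff.1 hi).2 (Finset.mem_union_left _ hi')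

lemma sv_overw2 (x : ℕ → ℝ) (a : Finset ℕ) (y : Pat) :
    sv x ((a \ (y.1 ∪ y.2)) ∪ y.2) = sv x a - sv x (a ∩ (y.1 ∪ y.2)) + sv x y.2 := by
  rw [sv_union_disj]
  · unfold sv
    have := Finset.sum_inter_add_sum_sdiff a (y.1 ∪ y.2) x
    linarith
  · rw [Finset.disjoint_left]
    intro i hi hi'
    exact (Finset.mem_sdiff.1 hi).2 (Finset.mem_union_right _ hi')

lemma DualS.step {x : ℕ → ℝ} {Q : Set ℝ} {W : ℝ} {f : Finset ℕ → ℝ}
    (hf : DualS x Q W f) (Y : Finset Pat) (hY : Y.Nonempty)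
    (κ : Finset ℕ → Pat → Finset ℕ) (hκ : Overw κ) (m : ℕ)
    (hm : ∀ y ∈ Y, y.1.card + y.2.card ≤ m) :
    DualS x Q (W * 2 ^ (m + 1)) (fun a => (∑ y ∈ Y, f (κ a y)) / (Y.card : ℝ)) := by
  classical
  intro ι Z c a K hc hK
  have hK0 := DualS.K_nonneg hc hK
  have hYpos : (0 : ℝ) < Y.card := by exact_mod_cast hY.card_pos
  have key := hf (ι × Pat) (Z ×ˢ Y) (fun p => c p.1 / Y.card) (fun p => κ (a p.1) p.2)
    (2 ^ (m + 1) * K) (fun p hp => div_nonneg (hc p.1 (Finset.mem_product.1 hp).1) hYpos.le) ?_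
  · rw [Finset.sum_product] at key
    calc _ = ∑ z ∈ Z, ∑ y ∈ Y, c z / Y.card * f (κ (a z) y) := by
          apply Finset.sum_congr rfl
          intro z _
          rw [← Finset.mul_sum]
          ring
      _ ≤ W * (2 ^ (m + 1) * K) := key
      _ = W * 2 ^ (m + 1) * K := by ring
  · intro q
    rw [Finset.sum_product, Finset.sum_comm]
    have hone : ∀ y ∈ Y, ∑ z ∈ Z, c z / Y.card * ind Q (sv x (κ (a z) y) - q) ≤
        (2 ^ (m + 1) * K) / Y.card := by
      intro y hy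
      have h1 : ∀ z ∈ Z, c z / Y.card * ind Q (sv x (κ (a z) y) - q) ≤
          ∑ r ∈ (y.1 ∪ y.2).powerset, ((c z * ind Q (sv x (a z) - (q + sv x r - sv x y.1))) +
            (c z * ind Q (sv x (a z) - (q + sv x r - sv x y.2)))) / Y.card := by
        intro z hz
        have hcz := hc z hz
        have hr : a z ∩ (y.1 ∪ y.2) ∈ (y.1 ∪ y.2).powerset := by
          rw [Finset.mem_powerset]; exact Finset.inter_subset_right
        refine le_trans ?_ (Finset.single_le_sum (f := fun r =>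
          ((c z * ind Q (sv x (a z) - (q + sv x r - sv x y.1))) +
            (c z * ind Q (sv x (a z) - (q + sv x r - sv x y.2)))) / (Y.card : ℝ)) ?_ hr)
        · have n1 := mul_nonneg hcz
            (ind_nonneg Q (sv x (a z) - (q + sv x (a z ∩ (y.1 ∪ y.2)) - sv x y.1)))
          have n2 := mul_nonneg hcz
            (ind_nonneg Q (sv x (a z) - (q + sv x (a z ∩ (y.1 ∪ y.2)) - sv x y.2)))
          rw [div_mul_eq_mul_div]
          apply div_le_div_of_nonneg_right _ hYpos.le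
          rcases hκ (a z) y with h | h
          · rw [h, sv_overw1]
            have e : sv x (a z) - sv x (a z ∩ (y.1 ∪ y.2)) + sv x y.1 - q =
              sv x (a z) - (q + sv x (a z ∩ (y.1 ∪ y.2)) - sv x y.1) := by ring
            rw [e]; linarith
          · rw [h, sv_overw2]
            have e : sv x (a z) - sv x (a z ∩ (y.1 ∪ y.2)) + sv x y.2 - q =
              sv x (a z) - (q + sv x (a z ∩ (y.1 ∪ y.2)) - sv x y.2) := by ring
            rw [e]; linarith
        · intro r _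
          exact div_nonneg (add_nonneg (mul_nonneg hcz (ind_nonneg _ _))
            (mul_nonneg hcz (ind_nonneg _ _))) hYpos.le
      calc _ ≤ _ := Finset.sum_le_sum h1
        _ = ∑ r ∈ (y.1 ∪ y.2).powerset, ((∑ z ∈ Z, c z * ind Q (sv x (a z) - (q + sv x r - sv x y.1))) +
            (∑ z ∈ Z, c z * ind Q (sv x (a z) - (q + sv x r - sv x y.2)))) / Y.card := by
            rw [Finset.sum_comm]
            apply Finset.sum_congr rfl
            intro r _
            rw [← Finset.sum_add_distrib, Finset.sum_div]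
        _ ≤ ∑ r ∈ (y.1 ∪ y.2).powerset, (K + K) / Y.card := by
            apply Finset.sum_le_sum
            intro r _
            exact div_le_div_of_nonneg_right (add_le_add (hK _) (hK _)) hYpos.le
        _ = (2 ^ (y.1 ∪ y.2).card * (2 * K)) / Y.card := by
            rw [Finset.sum_const, Finset.card_powerset, nsmul_eq_mul]; push_cast; ring
        _ ≤ (2 ^ (m + 1) * K) / Y.card := by
            apply div_le_div_of_nonneg_right _ hYpos.le
            have hcard : (y.1 ∪ y.2).card ≤ m := le_trans (Finset.card_union_le _ _) (hm y hy)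
            have : (2 : ℝ) ^ (y.1 ∪ y.2).card ≤ 2 ^ m := pow_le_pow_right₀ (by norm_num) hcard
            calc (2 : ℝ) ^ (y.1 ∪ y.2).card * (2 * K) ≤ 2 ^ m * (2 * K) :=
                  mul_le_mul_of_nonneg_right this (by linarith)
              _ = 2 ^ (m + 1) * K := by ring
    calc _ ≤ ∑ y ∈ Y, (2 ^ (m + 1) * K) / Y.card := Finset.sum_le_sum hone
      _ = 2 ^ (m + 1) * K := by
        rw [Finset.sum_const, nsmul_eq_mul]
        field_simp

end Pool.Agent.HDSum
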