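import Pool.Agent.HDSum.Noise

open Finset

namespace Pool.Agent.HDSum

lemma mem_pats {B : Finset ℕ} {m : ℕ} {p : Pat} :
    p ∈ pats B m ↔ p.1 ⊆ B ∧ p.2 ⊆ B ∧ Disjoint p.1 p.2 ∧ p.1.card + p.2.card ≤ m := by
  unfold pats
  simp only [mem_filter, mem_product, mem_powerset]
  tauto

/-- increments of an overwrite kernel are values of patterns -/
lemma overw_incr (x : ℕ → ℝ) (κ : Finset ℕ → Pat → Finset ℕ) (hκ : Overw κ) (B : Finset ℕ) (m : ℕ)
    (y : Pat) (hy : y ∈ pats B m) (a : Finset ℕ) :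
    ∃ y' ∈ pats B m, sv x (κ a y) = sv x a + pv x y' := by
  classical
  obtain ⟨h1, h2, hd, hc⟩ := mem_pats.1 hy
  have hsplit : sv x (a ∩ (y.1 ∪ y.2)) = sv x (y.1 ∩ a) + sv x (y.2 ∩ a) := by
    have : a ∩ (y.1 ∪ y.2) = (y.1 ∩ a) ∪ (y.2 ∩ a) := by
      ext i; simp only [mem_inter, mem_union]; tauto
    rw [this, sv_union_disj]
    exact Disjoint.mono Finset.inter_subset_left Finset.inter_subset_left hd
  have e1 : sv x y.1 = sv x (y.1 \ a) + sv x (y.1 ∩ a) := by
    unfold sv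
    have := Finset.sum_inter_add_sum_sdiff y.1 a x
    linarith
  have e2 : sv x y.2 = sv x (y.2 \ a) + sv x (y.2 ∩ a) := by
    unfold sv
    have := Finset.sum_inter_add_sum_sdiff y.2 a x
    linarith
  rcases hκ a y with h | h
  · refine ⟨(y.1 \ a, y.2 ∩ a), ?_, ?_⟩
    · rw [mem_pats]
      refine ⟨(Finset.sdiff_subset).trans h1, (Finset.inter_subset_left).trans h2,
        Disjoint.mono Finset.sdiff_subset Finset.inter_subset_left hd, ?_⟩
      exact le_trans (add_le_add (Finset.card_le_card Finset.sdiff_subset)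
        (Finset.card_le_card Finset.inter_subset_left)) hc
    · rw [h, sv_overw1]
      unfold pv
      simp only
      rw [hsplit]
      linarith
  · refine ⟨(y.2 \ a, y.1 ∩ a), ?_, ?_⟩
    · rw [mem_pats]
      refine ⟨(Finset.sdiff_subset).trans h2, (Finset.inter_subset_left).trans h1,
        Disjoint.mono Finset.sdiff_subset Finset.inter_subset_left hd.symm, ?_⟩
      refine le_trans (add_le_add (Finset.card_le_card Finset.sdiff_subset)
        (Finset.card_le_card Finset.inter_subset_left)) ?_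
      omega
    · rw [h, sv_overw2]
      unfold pv
      simp only
      rw [hsplit]
      linarith

/-- the basic interval -/
def Q0 (R : ℝ) : Set ℝ := Set.Icc 0 (4 / R)

/-- the basic interval minus pattern values -/
def Q1 (x : ℕ → ℝ) (R : ℝ) (B : Finset ℕ) (m : ℕ) : Set ℝ :=
  {u | ∃ y ∈ pats B m, u + pv x y ∈ Q0 R}

lemma special_sum (x : ℕ → ℝ) (R : ℝ) (hR : 0 < R) (Y : Finset Pat) (B : Finset ℕ) (m : ℕ)
    (hYp : Y ⊆ pats B m) (κ : Finset ℕ → Pat → Finset ℕ) (hκ : Overw κ)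
    (hcell : ∀ a, ∀ q : ℤ, ((Y.filter (fun y => cell R (sv x (κ a y)) = q)).card) ^ 2 ≤ 8 * Y.card)
    (a : Finset ℕ) (q : ℝ) :
    ∑ y ∈ Y, ind (Q0 R) (sv x (κ a y) - q) ≤
      5 * Real.sqrt (8 * Y.card) * ind (Q1 x R B m) (sv x a - q) := by
  classical
  by_cases hmem : sv x a - q ∈ Q1 x R B m
  · rw [ind_of_mem hmem, mul_one]
    have h1 : ∀ y ∈ Y, ind (Q0 R) (sv x (κ a y) - q) ≤
        ∑ i ∈ range 5, if cell R (sv x (κ a y)) = ⌊R * q⌋ + (i : ℤ) then (1 : ℝ) else 0 := by
      intro y _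
      by_cases h : sv x (κ a y) - q ∈ Q0 R
      · rw [ind_of_mem h]
        obtain ⟨ha, hb⟩ := h
        have hlo : R * q ≤ R * sv x (κ a y) := mul_le_mul_of_nonneg_left (by linarith) hR.le
        have hhi : R * sv x (κ a y) ≤ R * q + 4 := by
          have : R * (sv x (κ a y) - q) ≤ R * (4 / R) := mul_le_mul_of_nonneg_left hb hR.le
          rw [mul_div_cancel₀ _ hR.ne'] at this
          linarith
        have c1 : ⌊R * q⌋ ≤ cell R (sv x (κ a y)) := Int.floor_le_floor hlo
        have c2 : cell R (sv x (κ a y)) ≤ ⌊R * q⌋ + 4 := by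
          have := Int.floor_le_floor hhi
          have e : ⌊R * q + 4⌋ = ⌊R * q⌋ + 4 := by
            have := Int.floor_add_intCast (R * q) 4
            simp at this ⊢
          unfold cell
          rw [e] at this
          exact this
        obtain ⟨i, hi⟩ : ∃ i : ℕ, cell R (sv x (κ a y)) = ⌊R * q⌋ + (i : ℤ) := by
          refine ⟨(cell R (sv x (κ a y)) - ⌊R * q⌋).toNat, ?_⟩
          rw [Int.toNat_of_nonneg (by omega)]; ring
        have hi5 : i ∈ range 5 := by rw [Finset.mem_range]; omega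
        refine le_trans ?_ (Finset.single_le_sum (f := fun i : ℕ =>
          if cell R (sv x (κ a y)) = ⌊R * q⌋ + (i : ℤ) then (1 : ℝ) else 0) ?_ hi5)
        · simp [hi]
        · intro j _; split_ifs <;> norm_num
      · rw [ind_of_not_mem h]
        apply Finset.sum_nonneg
        intro j _; split_ifs <;> norm_num
    calc _ ≤ _ := Finset.sum_le_sum h1
      _ = ∑ i ∈ range 5, ((Y.filter (fun y => cell R (sv x (κ a y)) = ⌊R * q⌋ + (i : ℤ))).card : ℝ) := by
          rw [Finset.sum_comm]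
          apply Finset.sum_congr rfl
          intro i _
          rw [Finset.sum_boole]
      _ ≤ ∑ i ∈ range 5, Real.sqrt (8 * Y.card) := by
          apply Finset.sum_le_sum
          intro i _
          apply Real.le_sqrt_of_sq_le
          exact_mod_cast hcell a (⌊R * q⌋ + (i : ℤ))
      _ = 5 * Real.sqrt (8 * Y.card) := by simp
  · rw [ind_of_not_mem hmem, mul_zero]
    apply le_of_eq
    apply Finset.sum_eq_zero
    intro y hy
    apply ind_of_not_mem
    intro hQ
    apply hmem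
    obtain ⟨y', hy', he⟩ := overw_incr x κ hκ B m y (hYp hy) a
    refine ⟨y', hy', ?_⟩
    have : sv x a - q + pv x y' = sv x (κ a y) - q := by rw [he]; ring
    rw [this]; exact hQ

lemma DualS.special {x : ℕ → ℝ} {R : ℝ} (hR : 0 < R) {W : ℝ} {f : Finset ℕ → ℝ}
    (hf : DualS x (Q0 R) W f) (Y : Finset Pat) (hY : Y.Nonempty)
    (B : Finset ℕ) (m : ℕ) (hYp : Y ⊆ pats B m)
    (κ : Finset ℕ → Pat → Finset ℕ) (hκ : Overw κ)
    (hcell : ∀ a, ∀ q : ℤ, ((Y.filter (fun y => cell R (sv x (κ a y)) = q)).card) ^ 2 ≤ 8 * Y.card) :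
    DualS x (Q1 x R B m) (W * (5 * Real.sqrt (8 * Y.card) / Y.card))
      (fun a => (∑ y ∈ Y, f (κ a y)) / (Y.card : ℝ)) := by
  classical
  intro ι Z c a K hc hK
  have hYpos : (0 : ℝ) < Y.card := by exact_mod_cast hY.card_pos
  have key := hf (ι × Pat) (Z ×ˢ Y) (fun p => c p.1 / Y.card) (fun p => κ (a p.1) p.2)
    (5 * Real.sqrt (8 * Y.card) / Y.card * K)
    (fun p hp => div_nonneg (hc p.1 (Finset.mem_product.1 hp).1) hYpos.le) ?_
  · rw [Finset.sum_product] at key
    calc _ = ∑ z ∈ Z, ∑ y ∈ Y, c z / Y.card * f (κ (a z) y) := by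
          apply Finset.sum_congr rfl
          intro z _
          rw [← Finset.mul_sum]
          ring
      _ ≤ W * (5 * Real.sqrt (8 * Y.card) / Y.card * K) := key
      _ = W * (5 * Real.sqrt (8 * Y.card) / Y.card) * K := by ring
  · intro q
    rw [Finset.sum_product]
    calc _ = ∑ z ∈ Z, c z / Y.card * ∑ y ∈ Y, ind (Q0 R) (sv x (κ (a z) y) - q) := by
          apply Finset.sum_congr rfl
          intro z _
          rw [Finset.mul_sum]
      _ ≤ ∑ z ∈ Z, c z / Y.card * (5 * Real.sqrt (8 * Y.card) * ind (Q1 x R B m) (sv x (a z) - q)) := by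
          apply Finset.sum_le_sum
          intro z hz
          apply mul_le_mul_of_nonneg_left _ (div_nonneg (hc z hz) hYpos.le)
          exact special_sum x R hR Y B m hYp κ hκ hcell (a z) q
      _ = 5 * Real.sqrt (8 * Y.card) / Y.card * ∑ z ∈ Z, c z * ind (Q1 x R B m) (sv x (a z) - q) := by
          rw [Finset.mul_sum]
          apply Finset.sum_congr rfl
          intro z _
          ring
      _ ≤ _ := by
          apply mul_le_mul_of_nonneg_left (hK q)
          positivity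

lemma DualS.generic {x : ℕ → ℝ} {Q : Set ℝ} {W : ℝ} {f : Finset ℕ → ℝ}
    (Y : ℕ → Finset Pat) (κ : ℕ → Finset ℕ → Pat → Finset ℕ) (m : ℕ → ℕ)
    (hf : DualS x Q W f) (n : ℕ) : ∀ l,
    (∀ l', l ≤ l' → l' < l + n → (Y l').Nonempty ∧ Overw (κ l') ∧
      ∀ y ∈ Y l', y.1.card + y.2.card ≤ m l') →
    DualS x Q (W * 2 ^ (∑ i ∈ range n, (m (l + i) + 1))) (noise Y κ l n f) := by
  induction n with
  | zero => intro l _; simpa [noise] using hf
  | succ n ih =>
    intro l hl
    have h1 := ih (l + 1) (fun l' h1 h2 => hl l' (by omega) (by omega))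
    obtain ⟨hY, hκ, hm⟩ := hl l le_rfl (by omega)
    have h2 := DualS.step h1 (Y l) hY (κ l) hκ (m l) hm
    have e : W * 2 ^ (∑ i ∈ range (n + 1), (m (l + i) + 1)) =
        W * 2 ^ (∑ i ∈ range n, (m (l + 1 + i) + 1)) * 2 ^ (m l + 1) := by
      rw [Finset.sum_range_succ', pow_add]
      have : ∑ k ∈ range n, (m (l + (k + 1)) + 1) = ∑ i ∈ range n, (m (l + 1 + i) + 1) := by
        apply Finset.sum_congr rfl
        intro i _
        congr 2; ring
      rw [this]
      simp only [add_zero]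
      ring
    rw [e]
    exact h2

/-- the bilinear consequence of duality -/
lemma DualS.pair {x : ℕ → ℝ} {Q : Set ℝ} {W : ℝ} {f : Finset ℕ → ℝ} (hf : DualS x Q W f)
    (hfn : ∀ a, 0 ≤ f a) {ι : Type} (Z : Finset ι) (a b : ι → Finset ℕ)
    (η : ℝ) (hη : 0 ≤ η) (ha : ∀ z ∈ Z, η ≤ f (a z)) (hb : ∀ z ∈ Z, η ≤ f (b z)) (K : ℝ)
    (hK : ∀ q q' : ℝ, ∑ z ∈ Z, ind Q (sv x (a z) - q) * ind Q (sv x (b z) - q') ≤ K) :
    (Z.card : ℝ) * η ^ 2 ≤ W ^ 2 * K := by
  have h1 : ∀ q : ℝ, ∑ z ∈ Z, f (b z) * ind Q (sv x (a z) - q) ≤ W * K := by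
    intro q
    have := hf ι Z (fun z => ind Q (sv x (a z) - q)) b K (fun z _ => ind_nonneg _ _)
      (fun q' => hK q q')
    refine le_trans (le_of_eq ?_) this
    apply Finset.sum_congr rfl
    intro z _; ring
  have h2 := hf ι Z (fun z => f (b z)) a (W * K) (fun z _ => hfn _) h1
  calc (Z.card : ℝ) * η ^ 2 = ∑ z ∈ Z, η * η := by rw [Finset.sum_const, nsmul_eq_mul]; ring
    _ ≤ ∑ z ∈ Z, f (b z) * f (a z) :=
        Finset.sum_le_sum fun z hz => mul_le_mul (hb z hz) (ha z hz) hη (hfn _)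
    _ ≤ W * (W * K) := h2
    _ = W ^ 2 * K := by ring

end Pool.Agent.HDSum
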